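import Pool.Agent.KQ.Defs

/-!
# Octagon arithmetic, contraction tables, counting
-/

set_option autoImplicit false

namespace KQ

variable {Ω V : Type}

namespace Oct

variable (D : Oct Ω) (x : Ω)

theorem a0_p1 : D.a0 (D.p1 x) = x := by
  simp only [p1, p2, p3, p4, p5, p6, p7, D.e0, D.e1, D.e4]
theorem a1_p1 : D.a1 (D.p1 x) = D.p2 x := by
  simp only [p1, p2, p3, p4, p5, p6, p7, D.e0, D.e1]
theorem a0_p2 : D.a0 (D.p2 x) = D.p3 x := by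
  simp only [p1, p2, p3, p4, p5, p6, p7, D.e0, D.e1, D.e4]
theorem a1_p2 : D.a1 (D.p2 x) = D.p1 x := by
  simp only [p1, p2, p3, p4, p5, p6, p7, D.e0, D.e1]
theorem a0_p3 : D.a0 (D.p3 x) = D.p2 x := by
  simp only [p1, p2, p3, p4, p5, p6, p7, D.e0, D.e1, D.e4]
theorem a1_p3 : D.a1 (D.p3 x) = D.p4 x := by
  simp only [p1, p2, p3, p4, p5, p6, p7, D.e0, D.e1]
theorem a0_p4 : D.a0 (D.p4 x) = D.p5 x := by
  simp only [p1, p2, p3, p4, p5, p6, p7, D.e0, D.e1, D.e4]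
theorem a1_p4 : D.a1 (D.p4 x) = D.p3 x := by
  simp only [p1, p2, p3, p4, p5, p6, p7, D.e0, D.e1]
theorem a0_p5 : D.a0 (D.p5 x) = D.p4 x := by
  simp only [p1, p2, p3, p4, p5, p6, p7, D.e0, D.e1, D.e4]
theorem a1_p5 : D.a1 (D.p5 x) = D.p6 x := by
  simp only [p1, p2, p3, p4, p5, p6, p7, D.e0, D.e1]
theorem a0_p6 : D.a0 (D.p6 x) = D.p7 x := by
  simp only [p1, p2, p3, p4, p5, p6, p7, D.e0, D.e1, D.e4]
theorem a1_p6 : D.a1 (D.p6 x) = D.p5 x := by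
  simp only [p1, p2, p3, p4, p5, p6, p7, D.e0, D.e1]
theorem a0_p7 : D.a0 (D.p7 x) = D.p6 x := by
  simp only [p1, p2, p3, p4, p5, p6, p7, D.e0, D.e1, D.e4]
theorem a1_p7 : D.a1 (D.p7 x) = x := by
  simp only [p1, p2, p3, p4, p5, p6, p7, D.e0, D.e1]
theorem a0_x : D.a0 x = D.p1 x := rfl
theorem a1_x : D.a1 x = D.p7 x := rfl
theorem p1_p1 : D.p1 (D.p1 x) = x := by
  show D.a0 (D.p1 x) = x
  rw [D.a0_p1 x]
theorem p1_p2 : D.p1 (D.p2 x) = D.p3 x := by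
  show D.a0 (D.p2 x) = D.p3 x
  rw [D.a0_p2 x]
theorem p1_p3 : D.p1 (D.p3 x) = D.p2 x := by
  show D.a0 (D.p3 x) = D.p2 x
  rw [D.a0_p3 x]
theorem p1_p4 : D.p1 (D.p4 x) = D.p5 x := by
  show D.a0 (D.p4 x) = D.p5 x
  rw [D.a0_p4 x]
theorem p1_p5 : D.p1 (D.p5 x) = D.p4 x := by
  show D.a0 (D.p5 x) = D.p4 x
  rw [D.a0_p5 x]
theorem p1_p6 : D.p1 (D.p6 x) = D.p7 x := by
  show D.a0 (D.p6 x) = D.p7 x
  rw [D.a0_p6 x]
theorem p1_p7 : D.p1 (D.p7 x) = D.p6 x := by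
  show D.a0 (D.p7 x) = D.p6 x
  rw [D.a0_p7 x]
theorem p2_p1 : D.p2 (D.p1 x) = D.p7 x := by
  show D.a1 (D.a0 (D.p1 x)) = D.p7 x
  rw [D.a0_p1 x, D.a1_x x]
theorem p2_p2 : D.p2 (D.p2 x) = D.p4 x := by
  show D.a1 (D.a0 (D.p2 x)) = D.p4 x
  rw [D.a0_p2 x, D.a1_p3 x]
theorem p2_p3 : D.p2 (D.p3 x) = D.p1 x := by
  show D.a1 (D.a0 (D.p3 x)) = D.p1 x
  rw [D.a0_p3 x, D.a1_p2 x]
theorem p2_p4 : D.p2 (D.p4 x) = D.p6 x := by
  show D.a1 (D.a0 (D.p4 x)) = D.p6 x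
  rw [D.a0_p4 x, D.a1_p5 x]
theorem p2_p5 : D.p2 (D.p5 x) = D.p3 x := by
  show D.a1 (D.a0 (D.p5 x)) = D.p3 x
  rw [D.a0_p5 x, D.a1_p4 x]
theorem p2_p6 : D.p2 (D.p6 x) = x := by
  show D.a1 (D.a0 (D.p6 x)) = x
  rw [D.a0_p6 x, D.a1_p7 x]
theorem p2_p7 : D.p2 (D.p7 x) = D.p5 x := by
  show D.a1 (D.a0 (D.p7 x)) = D.p5 x
  rw [D.a0_p7 x, D.a1_p6 x]
theorem p3_p1 : D.p3 (D.p1 x) = D.p6 x := by
  show D.a0 (D.a1 (D.a0 (D.p1 x))) = D.p6 x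
  rw [D.a0_p1 x, D.a1_x x, D.a0_p7 x]
theorem p3_p2 : D.p3 (D.p2 x) = D.p5 x := by
  show D.a0 (D.a1 (D.a0 (D.p2 x))) = D.p5 x
  rw [D.a0_p2 x, D.a1_p3 x, D.a0_p4 x]
theorem p3_p3 : D.p3 (D.p3 x) = x := by
  show D.a0 (D.a1 (D.a0 (D.p3 x))) = x
  rw [D.a0_p3 x, D.a1_p2 x, D.a0_p1 x]
theorem p3_p4 : D.p3 (D.p4 x) = D.p7 x := by
  show D.a0 (D.a1 (D.a0 (D.p4 x))) = D.p7 x
  rw [D.a0_p4 x, D.a1_p5 x, D.a0_p6 x]
theorem p3_p5 : D.p3 (D.p5 x) = D.p2 x := by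
  show D.a0 (D.a1 (D.a0 (D.p5 x))) = D.p2 x
  rw [D.a0_p5 x, D.a1_p4 x, D.a0_p3 x]
theorem p3_p6 : D.p3 (D.p6 x) = D.p1 x := by
  show D.a0 (D.a1 (D.a0 (D.p6 x))) = D.p1 x
  rw [D.a0_p6 x, D.a1_p7 x, D.a0_x x]
theorem p3_p7 : D.p3 (D.p7 x) = D.p4 x := by
  show D.a0 (D.a1 (D.a0 (D.p7 x))) = D.p4 x
  rw [D.a0_p7 x, D.a1_p6 x, D.a0_p5 x]
theorem p4_p1 : D.p4 (D.p1 x) = D.p5 x := by
  show D.a1 (D.a0 (D.a1 (D.a0 (D.p1 x)))) = D.p5 x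
  rw [D.a0_p1 x, D.a1_x x, D.a0_p7 x, D.a1_p6 x]
theorem p4_p2 : D.p4 (D.p2 x) = D.p6 x := by
  show D.a1 (D.a0 (D.a1 (D.a0 (D.p2 x)))) = D.p6 x
  rw [D.a0_p2 x, D.a1_p3 x, D.a0_p4 x, D.a1_p5 x]
theorem p4_p3 : D.p4 (D.p3 x) = D.p7 x := by
  show D.a1 (D.a0 (D.a1 (D.a0 (D.p3 x)))) = D.p7 x
  rw [D.a0_p3 x, D.a1_p2 x, D.a0_p1 x, D.a1_x x]
theorem p4_p4 : D.p4 (D.p4 x) = x := by
  show D.a1 (D.a0 (D.a1 (D.a0 (D.p4 x)))) = x
  rw [D.a0_p4 x, D.a1_p5 x, D.a0_p6 x, D.a1_p7 x]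
theorem p4_p5 : D.p4 (D.p5 x) = D.p1 x := by
  show D.a1 (D.a0 (D.a1 (D.a0 (D.p5 x)))) = D.p1 x
  rw [D.a0_p5 x, D.a1_p4 x, D.a0_p3 x, D.a1_p2 x]
theorem p4_p6 : D.p4 (D.p6 x) = D.p2 x := by
  show D.a1 (D.a0 (D.a1 (D.a0 (D.p6 x)))) = D.p2 x
  rw [D.a0_p6 x, D.a1_p7 x, D.a0_x x, D.a1_p1 x]
theorem p4_p7 : D.p4 (D.p7 x) = D.p3 x := by
  show D.a1 (D.a0 (D.a1 (D.a0 (D.p7 x)))) = D.p3 x
  rw [D.a0_p7 x, D.a1_p6 x, D.a0_p5 x, D.a1_p4 x]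
theorem p5_p1 : D.p5 (D.p1 x) = D.p4 x := by
  show D.a1 (D.a0 (D.a1 (D.p1 x))) = D.p4 x
  rw [D.a1_p1 x, D.a0_p2 x, D.a1_p3 x]
theorem p5_p2 : D.p5 (D.p2 x) = D.p7 x := by
  show D.a1 (D.a0 (D.a1 (D.p2 x))) = D.p7 x
  rw [D.a1_p2 x, D.a0_p1 x, D.a1_x x]
theorem p5_p3 : D.p5 (D.p3 x) = D.p6 x := by
  show D.a1 (D.a0 (D.a1 (D.p3 x))) = D.p6 x
  rw [D.a1_p3 x, D.a0_p4 x, D.a1_p5 x]
theorem p5_p4 : D.p5 (D.p4 x) = D.p1 x := by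
  show D.a1 (D.a0 (D.a1 (D.p4 x))) = D.p1 x
  rw [D.a1_p4 x, D.a0_p3 x, D.a1_p2 x]
theorem p5_p5 : D.p5 (D.p5 x) = x := by
  show D.a1 (D.a0 (D.a1 (D.p5 x))) = x
  rw [D.a1_p5 x, D.a0_p6 x, D.a1_p7 x]
theorem p5_p6 : D.p5 (D.p6 x) = D.p3 x := by
  show D.a1 (D.a0 (D.a1 (D.p6 x))) = D.p3 x
  rw [D.a1_p6 x, D.a0_p5 x, D.a1_p4 x]
theorem p5_p7 : D.p5 (D.p7 x) = D.p2 x := by
  show D.a1 (D.a0 (D.a1 (D.p7 x))) = D.p2 x
  rw [D.a1_p7 x, D.a0_x x, D.a1_p1 x]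
theorem p6_p1 : D.p6 (D.p1 x) = D.p3 x := by
  show D.a0 (D.a1 (D.p1 x)) = D.p3 x
  rw [D.a1_p1 x, D.a0_p2 x]
theorem p6_p2 : D.p6 (D.p2 x) = x := by
  show D.a0 (D.a1 (D.p2 x)) = x
  rw [D.a1_p2 x, D.a0_p1 x]
theorem p6_p3 : D.p6 (D.p3 x) = D.p5 x := by
  show D.a0 (D.a1 (D.p3 x)) = D.p5 x
  rw [D.a1_p3 x, D.a0_p4 x]
theorem p6_p4 : D.p6 (D.p4 x) = D.p2 x := by
  show D.a0 (D.a1 (D.p4 x)) = D.p2 x
  rw [D.a1_p4 x, D.a0_p3 x]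
theorem p6_p5 : D.p6 (D.p5 x) = D.p7 x := by
  show D.a0 (D.a1 (D.p5 x)) = D.p7 x
  rw [D.a1_p5 x, D.a0_p6 x]
theorem p6_p6 : D.p6 (D.p6 x) = D.p4 x := by
  show D.a0 (D.a1 (D.p6 x)) = D.p4 x
  rw [D.a1_p6 x, D.a0_p5 x]
theorem p6_p7 : D.p6 (D.p7 x) = D.p1 x := by
  show D.a0 (D.a1 (D.p7 x)) = D.p1 x
  rw [D.a1_p7 x, D.a0_x x]
theorem p7_p1 : D.p7 (D.p1 x) = D.p2 x := by
  show D.a1 (D.p1 x) = D.p2 x
  rw [D.a1_p1 x]
theorem p7_p2 : D.p7 (D.p2 x) = D.p1 x := by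
  show D.a1 (D.p2 x) = D.p1 x
  rw [D.a1_p2 x]
theorem p7_p3 : D.p7 (D.p3 x) = D.p4 x := by
  show D.a1 (D.p3 x) = D.p4 x
  rw [D.a1_p3 x]
theorem p7_p4 : D.p7 (D.p4 x) = D.p3 x := by
  show D.a1 (D.p4 x) = D.p3 x
  rw [D.a1_p4 x]
theorem p7_p5 : D.p7 (D.p5 x) = D.p6 x := by
  show D.a1 (D.p5 x) = D.p6 x
  rw [D.a1_p5 x]
theorem p7_p6 : D.p7 (D.p6 x) = D.p5 x := by
  show D.a1 (D.p6 x) = D.p5 x
  rw [D.a1_p6 x]
theorem p7_p7 : D.p7 (D.p7 x) = x := by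
  show D.a1 (D.p7 x) = x
  rw [D.a1_p7 x]
theorem ne0_1 : x ≠ D.p1 x := fun h => D.n0 x h.symm
theorem ne0_7 : x ≠ D.p7 x := fun h => D.n1 x h.symm
theorem ne0_2 : x ≠ D.p2 x := by
  intro h
  apply D.n01 x
  have := congrArg D.a1 h
  rw [a1_p2] at this
  exact this.symm
theorem ne0_6 : x ≠ D.p6 x := by
  intro h
  apply D.n01 x
  have := congrArg D.a0 h
  rw [a0_p6] at this
  exact this
theorem ne0_3 : x ≠ D.p3 x := by
  intro h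
  have := congrArg D.a0 h
  rw [a0_p3] at this
  exact D.n1 (D.p1 x) this.symm
theorem ne0_5 : x ≠ D.p5 x := by
  intro h
  have := congrArg D.a1 h
  rw [a1_p5] at this
  exact D.n0 (D.p7 x) (by rw [a0_p7]; exact this.symm)
theorem ne0_4 : x ≠ D.p4 x := fun h => D.n4 x h.symm
theorem ne1_2 : D.p1 x ≠ D.p2 x := by
  have h := D.ne0_7 (D.p1 x)
  rwa [p7_p1] at h
theorem ne1_3 : D.p1 x ≠ D.p3 x := by
  have h := D.ne0_6 (D.p1 x)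
  rwa [p6_p1] at h
theorem ne1_4 : D.p1 x ≠ D.p4 x := by
  have h := D.ne0_5 (D.p1 x)
  rwa [p5_p1] at h
theorem ne1_5 : D.p1 x ≠ D.p5 x := by
  have h := D.ne0_4 (D.p1 x)
  rwa [p4_p1] at h
theorem ne1_6 : D.p1 x ≠ D.p6 x := by
  have h := D.ne0_3 (D.p1 x)
  rwa [p3_p1] at h
theorem ne1_7 : D.p1 x ≠ D.p7 x := by
  have h := D.ne0_2 (D.p1 x)
  rwa [p2_p1] at h
theorem ne2_3 : D.p2 x ≠ D.p3 x := by
  have h := D.ne0_1 (D.p2 x)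
  rwa [p1_p2] at h
theorem ne2_4 : D.p2 x ≠ D.p4 x := by
  have h := D.ne0_2 (D.p2 x)
  rwa [p2_p2] at h
theorem ne2_5 : D.p2 x ≠ D.p5 x := by
  have h := D.ne0_3 (D.p2 x)
  rwa [p3_p2] at h
theorem ne2_6 : D.p2 x ≠ D.p6 x := by
  have h := D.ne0_4 (D.p2 x)
  rwa [p4_p2] at h
theorem ne2_7 : D.p2 x ≠ D.p7 x := by
  have h := D.ne0_5 (D.p2 x)
  rwa [p5_p2] at h
theorem ne3_4 : D.p3 x ≠ D.p4 x := by
  have h := D.ne0_7 (D.p3 x)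
  rwa [p7_p3] at h
theorem ne3_5 : D.p3 x ≠ D.p5 x := by
  have h := D.ne0_6 (D.p3 x)
  rwa [p6_p3] at h
theorem ne3_6 : D.p3 x ≠ D.p6 x := by
  have h := D.ne0_5 (D.p3 x)
  rwa [p5_p3] at h
theorem ne3_7 : D.p3 x ≠ D.p7 x := by
  have h := D.ne0_4 (D.p3 x)
  rwa [p4_p3] at h
theorem ne4_5 : D.p4 x ≠ D.p5 x := by
  have h := D.ne0_1 (D.p4 x)
  rwa [p1_p4] at h
theorem ne4_6 : D.p4 x ≠ D.p6 x := by
  have h := D.ne0_2 (D.p4 x)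
  rwa [p2_p4] at h
theorem ne4_7 : D.p4 x ≠ D.p7 x := by
  have h := D.ne0_3 (D.p4 x)
  rwa [p3_p4] at h
theorem ne5_6 : D.p5 x ≠ D.p6 x := by
  have h := D.ne0_7 (D.p5 x)
  rwa [p7_p5] at h
theorem ne5_7 : D.p5 x ≠ D.p7 x := by
  have h := D.ne0_6 (D.p5 x)
  rwa [p6_p5] at h
theorem ne6_7 : D.p6 x ≠ D.p7 x := by
  have h := D.ne0_1 (D.p6 x)
  rwa [p1_p6] at h
theorem ne1_0 : D.p1 x ≠ x := (D.ne0_1 x).symm
theorem ne2_0 : D.p2 x ≠ x := (D.ne0_2 x).symm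
theorem ne2_1 : D.p2 x ≠ D.p1 x := (D.ne1_2 x).symm
theorem ne3_0 : D.p3 x ≠ x := (D.ne0_3 x).symm
theorem ne3_1 : D.p3 x ≠ D.p1 x := (D.ne1_3 x).symm
theorem ne3_2 : D.p3 x ≠ D.p2 x := (D.ne2_3 x).symm
theorem ne4_0 : D.p4 x ≠ x := (D.ne0_4 x).symm
theorem ne4_1 : D.p4 x ≠ D.p1 x := (D.ne1_4 x).symm
theorem ne4_2 : D.p4 x ≠ D.p2 x := (D.ne2_4 x).symm
theorem ne4_3 : D.p4 x ≠ D.p3 x := (D.ne3_4 x).symm
theorem ne5_0 : D.p5 x ≠ x := (D.ne0_5 x).symm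
theorem ne5_1 : D.p5 x ≠ D.p1 x := (D.ne1_5 x).symm
theorem ne5_2 : D.p5 x ≠ D.p2 x := (D.ne2_5 x).symm
theorem ne5_3 : D.p5 x ≠ D.p3 x := (D.ne3_5 x).symm
theorem ne5_4 : D.p5 x ≠ D.p4 x := (D.ne4_5 x).symm
theorem ne6_0 : D.p6 x ≠ x := (D.ne0_6 x).symm
theorem ne6_1 : D.p6 x ≠ D.p1 x := (D.ne1_6 x).symm
theorem ne6_2 : D.p6 x ≠ D.p2 x := (D.ne2_6 x).symm
theorem ne6_3 : D.p6 x ≠ D.p3 x := (D.ne3_6 x).symm
theorem ne6_4 : D.p6 x ≠ D.p4 x := (D.ne4_6 x).symm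
theorem ne6_5 : D.p6 x ≠ D.p5 x := (D.ne5_6 x).symm
theorem ne7_0 : D.p7 x ≠ x := (D.ne0_7 x).symm
theorem ne7_1 : D.p7 x ≠ D.p1 x := (D.ne1_7 x).symm
theorem ne7_2 : D.p7 x ≠ D.p2 x := (D.ne2_7 x).symm
theorem ne7_3 : D.p7 x ≠ D.p3 x := (D.ne3_7 x).symm
theorem ne7_4 : D.p7 x ≠ D.p4 x := (D.ne4_7 x).symm
theorem ne7_5 : D.p7 x ≠ D.p5 x := (D.ne5_7 x).symm
theorem ne7_6 : D.p7 x ≠ D.p6 x := (D.ne6_7 x).symm

attribute [simp] a0_p1 a1_p1 a0_p2 a1_p2 a0_p3 a1_p3 a0_p4 a1_p4 a0_p5 a1_p5 a0_p6 a1_p6 a0_p7 a1_p7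
attribute [simp] p1_p1 p2_p1 p3_p1 p4_p1 p5_p1 p6_p1 p7_p1 p1_p2 p2_p2 p3_p2 p4_p2 p5_p2 p6_p2 p7_p2 p1_p3 p2_p3 p3_p3 p4_p3 p5_p3 p6_p3 p7_p3 p1_p4 p2_p4 p3_p4 p4_p4 p5_p4 p6_p4 p7_p4 p1_p5 p2_p5 p3_p5 p4_p5 p5_p5 p6_p5 p7_p5 p1_p6 p2_p6 p3_p6 p4_p6 p5_p6 p6_p6 p7_p6 p1_p7 p2_p7 p3_p7 p4_p7 p5_p7 p6_p7 p7_p7
attribute [simp] ne0_1 ne0_2 ne0_3 ne0_4 ne0_5 ne0_6 ne0_7 ne1_0 ne1_2 ne1_3 ne1_4 ne1_5 ne1_6 ne1_7 ne2_0 ne2_1 ne2_3 ne2_4 ne2_5 ne2_6 ne2_7 ne3_0 ne3_1 ne3_2 ne3_4 ne3_5 ne3_6 ne3_7 ne4_0 ne4_1 ne4_2 ne4_3 ne4_5 ne4_6 ne4_7 ne5_0 ne5_1 ne5_2 ne5_3 ne5_4 ne5_6 ne5_7 ne6_0 ne6_1 ne6_2 ne6_3 ne6_4 ne6_5 ne6_7 ne7_0 ne7_1 ne7_2 ne7_3 ne7_4 ne7_5 ne7_6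
theorem mem_fc {z : Ω} : z ∈ D.fc x ↔ (z = x ∨ z = D.p1 x ∨ z = D.p2 x ∨ z = D.p3 x ∨ z = D.p4 x ∨
    z = D.p5 x ∨ z = D.p6 x ∨ z = D.p7 x) := Iff.rfl

theorem mem_vc {z : Ω} : z ∈ D.vc x ↔ (z = x ∨ z = D.p7 x ∨ z = D.p3 x ∨ z = D.p4 x) := Iff.rfl

@[simp] theorem fc0 : x ∈ D.fc x := by simp [mem_fc]
@[simp] theorem fc1 : D.p1 x ∈ D.fc x := by simp [mem_fc]
@[simp] theorem fc2 : D.p2 x ∈ D.fc x := by simp [mem_fc]
@[simp] theorem fc3 : D.p3 x ∈ D.fc x := by simp [mem_fc]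
@[simp] theorem fc4 : D.p4 x ∈ D.fc x := by simp [mem_fc]
@[simp] theorem fc5 : D.p5 x ∈ D.fc x := by simp [mem_fc]
@[simp] theorem fc6 : D.p6 x ∈ D.fc x := by simp [mem_fc]
@[simp] theorem fc7 : D.p7 x ∈ D.fc x := by simp [mem_fc]
@[simp] theorem vc0 : x ∈ D.vc x := by simp [mem_vc]
@[simp] theorem vc1 : D.p1 x ∉ D.vc x := by simp [mem_vc]
@[simp] theorem vc2 : D.p2 x ∉ D.vc x := by simp [mem_vc]
@[simp] theorem vc3 : D.p3 x ∈ D.vc x := by simp [mem_vc]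
@[simp] theorem vc4 : D.p4 x ∈ D.vc x := by simp [mem_vc]
@[simp] theorem vc5 : D.p5 x ∉ D.vc x := by simp [mem_vc]
@[simp] theorem vc6 : D.p6 x ∉ D.vc x := by simp [mem_vc]
@[simp] theorem vc7 : D.p7 x ∈ D.vc x := by simp [mem_vc]

@[simp] theorem fc_p1 : D.fc (D.p1 x) = D.fc x := by
  ext z
  simp only [mem_fc, p1_p1, p2_p1, p3_p1, p4_p1, p5_p1, p6_p1, p7_p1]
  tauto
@[simp] theorem fc_p2 : D.fc (D.p2 x) = D.fc x := by
  ext z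
  simp only [mem_fc, p1_p2, p2_p2, p3_p2, p4_p2, p5_p2, p6_p2, p7_p2]
  tauto
@[simp] theorem fc_p3 : D.fc (D.p3 x) = D.fc x := by
  ext z
  simp only [mem_fc, p1_p3, p2_p3, p3_p3, p4_p3, p5_p3, p6_p3, p7_p3]
  tauto
@[simp] theorem fc_p4 : D.fc (D.p4 x) = D.fc x := by
  ext z
  simp only [mem_fc, p1_p4, p2_p4, p3_p4, p4_p4, p5_p4, p6_p4, p7_p4]
  tauto
@[simp] theorem fc_p5 : D.fc (D.p5 x) = D.fc x := by
  ext z
  simp only [mem_fc, p1_p5, p2_p5, p3_p5, p4_p5, p5_p5, p6_p5, p7_p5]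
  tauto
@[simp] theorem fc_p6 : D.fc (D.p6 x) = D.fc x := by
  ext z
  simp only [mem_fc, p1_p6, p2_p6, p3_p6, p4_p6, p5_p6, p6_p6, p7_p6]
  tauto
@[simp] theorem fc_p7 : D.fc (D.p7 x) = D.fc x := by
  ext z
  simp only [mem_fc, p1_p7, p2_p7, p3_p7, p4_p7, p5_p7, p6_p7, p7_p7]
  tauto
@[simp] theorem vc_p7 : D.vc (D.p7 x) = D.vc x := by
  ext z
  simp only [mem_vc, p1_p7, p2_p7, p3_p7, p4_p7, p5_p7, p6_p7, p7_p7]
  tauto
@[simp] theorem vc_p3 : D.vc (D.p3 x) = D.vc x := by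
  ext z
  simp only [mem_vc, p1_p3, p2_p3, p3_p3, p4_p3, p5_p3, p6_p3, p7_p3]
  tauto
@[simp] theorem vc_p4 : D.vc (D.p4 x) = D.vc x := by
  ext z
  simp only [mem_vc, p1_p4, p2_p4, p3_p4, p4_p4, p5_p4, p6_p4, p7_p4]
  tauto

@[simp] theorem fc_a0 : D.fc (D.a0 x) = D.fc x := D.fc_p1 x
@[simp] theorem fc_a1 : D.fc (D.a1 x) = D.fc x := D.fc_p7 x

variable {x}

theorem fc_eq {z : Ω} (h : z ∈ D.fc x) : D.fc z = D.fc x := by
  rcases h with rfl | rfl | rfl | rfl | rfl | rfl | rfl | rfl <;> simp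

theorem fc_symm {z : Ω} (h : z ∈ D.fc x) : x ∈ D.fc z := by
  rw [D.fc_eq h]; simp

theorem fc_trans {z w : Ω} (h : z ∈ D.fc x) (h' : w ∈ D.fc z) : w ∈ D.fc x := by
  rwa [D.fc_eq h] at h'

theorem mem_fc_a0 {z : Ω} : D.a0 z ∈ D.fc x ↔ z ∈ D.fc x := by
  constructor
  · intro h
    have := D.fc_symm h
    rw [fc_a0] at this
    exact D.fc_symm this
  · intro h
    apply D.fc_trans h
    exact D.fc1 z

theorem mem_fc_a1 {z : Ω} : D.a1 z ∈ D.fc x ↔ z ∈ D.fc x := by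
  constructor
  · intro h
    have := D.fc_symm h
    rw [fc_a1] at this
    exact D.fc_symm this
  · intro h
    apply D.fc_trans h
    exact D.fc7 z

/-- faces are equal or disjoint -/
theorem fc_disj {z w : Ω} (h : w ∈ D.fc x) (h' : w ∈ D.fc z) : D.fc x = D.fc z := by
  rw [← D.fc_eq h, ← D.fc_eq h']

variable (x)

theorem F_p7 (A : Set Ω) : D.F A (D.p7 x) ↔ D.F A x := by
  unfold F; rw [a1_p7]; exact and_comm

theorem F_a1 (A : Set Ω) : D.F A (D.a1 x) ↔ D.F A x := D.F_p7 x A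

/-- ncard of the face -/
theorem fc_ncard : (D.fc x).ncard = 8 := by
  have h : D.fc x = ({x, D.p1 x, D.p2 x, D.p3 x, D.p4 x, D.p5 x, D.p6 x, D.p7 x} : Set Ω) := by
    ext z; simp [mem_fc]
  rw [h]
  rw [Set.ncard_insert_of_notMem (by simp), Set.ncard_insert_of_notMem (by simp),
    Set.ncard_insert_of_notMem (by simp), Set.ncard_insert_of_notMem (by simp),
    Set.ncard_insert_of_notMem (by simp), Set.ncard_insert_of_notMem (by simp),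
    Set.ncard_insert_of_notMem (by simp), Set.ncard_singleton]

theorem fc_fin : (D.fc x).Finite := by
  apply Set.finite_of_ncard_pos
  rw [fc_ncard]; norm_num

end Oct

section tables

variable (D : Oct Ω) (a2 : Ω → Ω) (x : Ω)

@[simp] theorem kp0 : kp D x x = (D.p3 x) := by
  unfold kp
  rw [if_pos (by simp)]
  rw [D.a0_x x, D.a1_p1 x, D.a0_p2 x]
@[simp] theorem kp1 : kp D x (D.p1 x) = (D.p2 x) := by
  unfold kp
  rw [if_neg (by simp)]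
  exact D.a1_p1 x
@[simp] theorem kp2 : kp D x (D.p2 x) = (D.p1 x) := by
  unfold kp
  rw [if_neg (by simp)]
  exact D.a1_p2 x
@[simp] theorem kp3 : kp D x (D.p3 x) = x := by
  unfold kp
  rw [if_pos (by simp)]
  rw [D.a0_p3 x, D.a1_p2 x, D.a0_p1 x]
@[simp] theorem kp4 : kp D x (D.p4 x) = (D.p7 x) := by
  unfold kp
  rw [if_pos (by simp)]
  rw [D.a0_p4 x, D.a1_p5 x, D.a0_p6 x]
@[simp] theorem kp5 : kp D x (D.p5 x) = (D.p6 x) := by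
  unfold kp
  rw [if_neg (by simp)]
  exact D.a1_p5 x
@[simp] theorem kp6 : kp D x (D.p6 x) = (D.p5 x) := by
  unfold kp
  rw [if_neg (by simp)]
  exact D.a1_p6 x
@[simp] theorem kp7 : kp D x (D.p7 x) = (D.p4 x) := by
  unfold kp
  rw [if_pos (by simp)]
  rw [D.a0_p7 x, D.a1_p6 x, D.a0_p5 x]

theorem kp_mem {z : Ω} (h : z ∈ D.fc x) : kp D x z ∈ D.fc x := by
  rcases h with rfl | rfl | rfl | rfl | rfl | rfl | rfl | rfl <;> simp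

theorem kp_kp {z : Ω} (h : z ∈ D.fc x) : kp D x (kp D x z) = z := by
  rcases h with rfl | rfl | rfl | rfl | rfl | rfl | rfl | rfl <;> simp

theorem kp_ne {z : Ω} (h : z ∈ D.fc x) : kp D x z ≠ z := by
  rcases h with rfl | rfl | rfl | rfl | rfl | rfl | rfl | rfl <;> simp

theorem kp_a0 {z : Ω} (h : z ∈ D.fc x) : kp D x (D.a0 z) = D.a0 (kp D x z) := by
  rcases h with rfl | rfl | rfl | rfl | rfl | rfl | rfl | rfl <;> simp [D.a0_x]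

theorem st_out {z : Ω} (h : z ∉ D.fc x) : st D a2 x z = z := by
  unfold st; rw [if_neg h]

theorem st_in {z : Ω} (h : z ∈ D.fc x) : st D a2 x z = a2 (kp D x z) := by
  unfold st; rw [if_pos h]

theorem ca_out {y : Ω} (h : a2 y ∉ D.fc x) : ca D a2 x y = a2 y := by
  unfold ca; rw [st_out D a2 x h, st_out D a2 x h]

/-- `ca` at an outer flag when the first step leaves the face -/
theorem ca_in {y z : Ω} (hz : z ∈ D.fc x) (h : a2 y = z) (h' : a2 (kp D x z) ∉ D.fc x) :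
    ca D a2 x y = a2 (kp D x z) := by
  unfold ca; rw [h, st_in D a2 x hz, st_out D a2 x h']

/-- `ca` at an outer flag when the first step stays in the face -/
theorem ca_in2 {y z : Ω} (hz : z ∈ D.fc x) (h : a2 y = z) (h' : a2 (kp D x z) ∈ D.fc x) :
    ca D a2 x y = a2 (kp D x (a2 (kp D x z))) := by
  unfold ca; rw [h, st_in D a2 x hz, st_in D a2 x h']

theorem kp_p7 : kp D (D.p7 x) = kp D x := by
  funext z; unfold kp; rw [D.vc_p7]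

theorem kp_p3 : kp D (D.p3 x) = kp D x := by
  funext z; unfold kp; rw [D.vc_p3]

theorem kp_p4 : kp D (D.p4 x) = kp D x := by
  funext z; unfold kp; rw [D.vc_p4]

theorem st_p7 : st D a2 (D.p7 x) = st D a2 x := by
  funext z; unfold st; rw [kp_p7, D.fc_p7]

theorem st_p3 : st D a2 (D.p3 x) = st D a2 x := by
  funext z; unfold st; rw [kp_p3, D.fc_p3]

theorem st_p4 : st D a2 (D.p4 x) = st D a2 x := by
  funext z; unfold st; rw [kp_p4, D.fc_p4]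

theorem ca_p7 : ca D a2 (D.p7 x) = ca D a2 x := by
  funext z; unfold ca; simp [st_p7]

theorem ca_p3 : ca D a2 (D.p3 x) = ca D a2 x := by
  funext z; unfold ca; simp [st_p3]

theorem ca_p4 : ca D a2 (D.p4 x) = ca D a2 x := by
  funext z; unfold ca; simp [st_p4]

variable {a2 x}

/-- type `N`: the new partner of the outer flag `a2 z` -/
theorem ca_N (h : TN D a2 x) {z : Ω} (hz : z ∈ D.fc x) (h2 : a2 (a2 z) = z) :
    ca D a2 x (a2 z) = a2 (kp D x z) :=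
  ca_in D a2 x hz h2 (h _ (kp_mem D x hz))

theorem ca_D1_2 (h : TD1 D a2 x) (h2 : ∀ z ∈ D.fc x, a2 (a2 z) = z) :
    ca D a2 x (a2 (D.p2 x)) = a2 (D.p4 x) := by
  have e : a2 (kp D x (D.p2 x)) = D.p7 x := by rw [kp2]; exact h.2.1
  rw [ca_in2 D a2 x (D.fc2 x) (h2 _ (D.fc2 x)) (by rw [e]; simp), e, kp7]
theorem ca_D1_4 (h : TD1 D a2 x) (h2 : ∀ z ∈ D.fc x, a2 (a2 z) = z) :
    ca D a2 x (a2 (D.p4 x)) = a2 (D.p2 x) := by
  have e : a2 (kp D x (D.p4 x)) = D.p1 x := by rw [kp4, ← h.2.1]; exact h2 _ (D.fc1 x)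
  rw [ca_in2 D a2 x (D.fc4 x) (h2 _ (D.fc4 x)) (by rw [e]; simp), e, kp1]
theorem ca_D1_3 (h : TD1 D a2 x) (h2 : ∀ z ∈ D.fc x, a2 (a2 z) = z) :
    ca D a2 x (a2 (D.p3 x)) = a2 (D.p5 x) := by
  have e : a2 (kp D x (D.p3 x)) = D.p6 x := by rw [kp3]; exact h.1
  rw [ca_in2 D a2 x (D.fc3 x) (h2 _ (D.fc3 x)) (by rw [e]; simp), e, kp6]
theorem ca_D1_5 (h : TD1 D a2 x) (h2 : ∀ z ∈ D.fc x, a2 (a2 z) = z) :
    ca D a2 x (a2 (D.p5 x)) = a2 (D.p3 x) := by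
  have e : a2 (kp D x (D.p5 x)) = x := by rw [kp5, ← h.1]; exact h2 _ (D.fc0 x)
  rw [ca_in2 D a2 x (D.fc5 x) (h2 _ (D.fc5 x)) (by rw [e]; simp), e, kp0]
theorem ca_D2_2 (h : TD2 D a2 x) (h2 : ∀ z ∈ D.fc x, a2 (a2 z) = z) :
    ca D a2 x (a2 (D.p2 x)) = a2 (D.p7 x) := by
  have e : a2 (kp D x (D.p2 x)) = D.p4 x := by rw [kp2]; exact h.2.1
  rw [ca_in2 D a2 x (D.fc2 x) (h2 _ (D.fc2 x)) (by rw [e]; simp), e, kp4]
theorem ca_D2_7 (h : TD2 D a2 x) (h2 : ∀ z ∈ D.fc x, a2 (a2 z) = z) :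
    ca D a2 x (a2 (D.p7 x)) = a2 (D.p2 x) := by
  have e : a2 (kp D x (D.p7 x)) = D.p1 x := by rw [kp7, ← h.2.1]; exact h2 _ (D.fc1 x)
  rw [ca_in2 D a2 x (D.fc7 x) (h2 _ (D.fc7 x)) (by rw [e]; simp), e, kp1]
theorem ca_D2_3 (h : TD2 D a2 x) (h2 : ∀ z ∈ D.fc x, a2 (a2 z) = z) :
    ca D a2 x (a2 (D.p3 x)) = a2 (D.p6 x) := by
  have e : a2 (kp D x (D.p3 x)) = D.p5 x := by rw [kp3]; exact h.1
  rw [ca_in2 D a2 x (D.fc3 x) (h2 _ (D.fc3 x)) (by rw [e]; simp), e, kp5]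
theorem ca_D2_6 (h : TD2 D a2 x) (h2 : ∀ z ∈ D.fc x, a2 (a2 z) = z) :
    ca D a2 x (a2 (D.p6 x)) = a2 (D.p3 x) := by
  have e : a2 (kp D x (D.p6 x)) = x := by rw [kp6, ← h.1]; exact h2 _ (D.fc0 x)
  rw [ca_in2 D a2 x (D.fc6 x) (h2 _ (D.fc6 x)) (by rw [e]; simp), e, kp0]

end tables

section maps

variable {D : Oct Ω} {S : Set Ω} {a2 : Ω → Ω} {v : Ω → V} {x : Ω}

theorem Mp.fcS (m : Mp D S a2 v) (hx : x ∈ S) : D.fc x ⊆ S := by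
  have h1 := m.s0 x hx
  have h2 := m.s1 _ h1
  have h3 := m.s0 _ h2
  have h4 := m.s1 _ h3
  have h7 := m.s1 x hx
  have h6 := m.s0 _ h7
  have h5 := m.s1 _ h6
  intro z hz
  rcases hz with rfl | rfl | rfl | rfl | rfl | rfl | rfl | rfl <;> assumption

theorem Mp.v7 (m : Mp D S a2 v) (hx : x ∈ S) : v (D.p7 x) = v x := m.v1 x hx

theorem Mp.v21 (m : Mp D S a2 v) (hx : x ∈ S) : v (D.p2 x) = v (D.p1 x) :=
  m.v1 _ (m.s0 x hx)

theorem Mp.v43 (m : Mp D S a2 v) (hx : x ∈ S) : v (D.p4 x) = v (D.p3 x) :=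
  m.v1 _ (m.fcS hx (D.fc3 x))

theorem Mp.v56 (m : Mp D S a2 v) (hx : x ∈ S) : v (D.p5 x) = v (D.p6 x) :=
  m.v1 _ (m.fcS hx (D.fc6 x))

theorem Mp.inj (m : Mp D S a2 v) {y z : Ω} (hy : y ∈ S) (hz : z ∈ S) (h : a2 y = a2 z) : y = z := by
  rw [← m.e2 y hy, h, m.e2 z hz]

/-- the flags outside a face are closed under `a0` -/
theorem out_a0 (hS : ∀ x ∈ S, D.a0 x ∈ S) {y : Ω} (hy : y ∈ S \ D.fc x) :
    D.a0 y ∈ S \ D.fc x := ⟨hS y hy.1, fun h => hy.2 ((D.mem_fc_a0).1 h)⟩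

theorem out_a1 (hS : ∀ x ∈ S, D.a1 x ∈ S) {y : Ω} (hy : y ∈ S \ D.fc x) :
    D.a1 y ∈ S \ D.fc x := ⟨hS y hy.1, fun h => hy.2 ((D.mem_fc_a1).1 h)⟩

/-- labels do not matter -/
theorem Act.relabel {V' : Type} {w : Ω → V'} {A : Set Ω} (h : Act D S a2 v A)
    (hw : ∀ y ∈ S, ∀ z ∈ S, v y = v z ↔ w y = w z) : Act D S a2 w A where
  sub := h.sub
  na1 := h.na1
  na2 := h.na2
  u0 := h.u0
  u1 := h.u1
  u3 := h.u3
  ex := h.ex
  deg := by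
    intro y hy
    rw [← h.deg y hy]
    unfold cnt
    apply congrArg
    ext z
    constructor
    · rintro ⟨a, b, c⟩
      exact ⟨a, (hw z a y hy).2 b, c⟩
    · rintro ⟨a, b, c⟩
      exact ⟨a, (hw z a y hy).1 b, c⟩
  ham := by
    intro g h1 h2
    apply h.ham g _ h2
    intro y hy z hz a b c
    exact h1 y hy z hz a b ((hw y hy z hz).1 c)

/-- the labels of the contraction: partition property -/
theorem cv_iff (y z : Ω) : cv D v x y = cv D v x z ↔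
    (v y = v z ∨ ((v y = v x ∨ v y = v (D.p3 x)) ∧ (v z = v x ∨ v z = v (D.p3 x)))) := by
  unfold cv
  by_cases h1 : v y = v (D.p3 x)
  · by_cases h2 : v z = v (D.p3 x)
    · rw [if_pos h1, if_pos h2]
      simp [h1, h2]
    · rw [if_pos h1, if_neg h2]
      constructor
      · intro h; right; exact ⟨Or.inr h1, Or.inl h.symm⟩
      · rintro (h | ⟨h, h' | h'⟩)
        · exact absurd (h.symm.trans h1) h2
        · exact h'.symm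
        · exact absurd h' h2
  · by_cases h2 : v z = v (D.p3 x)
    · rw [if_neg h1, if_pos h2]
      constructor
      · intro h; right; exact ⟨Or.inl h, Or.inr h2⟩
      · rintro (h | ⟨h | h, h'⟩)
        · exact absurd (h.trans h2) h1
        · exact h
        · exact absurd h h1
    · rw [if_neg h1, if_neg h2]
      constructor
      · intro h; left; exact h
      · rintro (h | ⟨h | h, h' | h'⟩)
        · exact h
        · rw [h, h']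
        · exact absurd h' h2
        · exact absurd h h1
        · exact absurd h h1

/-- base change `v - c`: the labels of the contraction are the same up to names -/
theorem cv_p3 (hv : v x ≠ v (D.p3 x)) (y z : Ω) :
    cv D v (D.p3 x) y = cv D v (D.p3 x) z ↔ cv D v x y = cv D v x z := by
  rw [cv_iff, cv_iff]
  simp only [D.p3_p3]
  tauto

end maps

section counting

/-- indicator of a proposition -/
noncomputable def ind (p : Prop) : ℤ := by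
  classical
  exact if p then 1 else 0

theorem ind_pos {p : Prop} (h : p) : ind p = 1 := by unfold ind; rw [if_pos h]

theorem ind_neg {p : Prop} (h : ¬ p) : ind p = 0 := by unfold ind; rw [if_neg h]

theorem ind_ite (p : Prop) [Decidable p] : ind p = if p then 1 else 0 := by
  by_cases h : p
  · rw [ind_pos h, if_pos h]
  · rw [ind_neg h, if_neg h]

theorem ind_congr {p q : Prop} (h : p ↔ q) : ind p = ind q := by rw [propext h]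

theorem ind_not (p : Prop) : ind (¬ p) = 1 - ind p := by
  by_cases h : p
  · rw [ind_pos h, ind_neg (not_not.2 h)]; rfl
  · rw [ind_neg h, ind_pos h]; rfl

theorem ind_and (p q : Prop) : ind (p ∧ q) = ind p * ind q := by
  by_cases h : p <;> by_cases h' : q
  · rw [ind_pos h, ind_pos h', ind_pos ⟨h, h'⟩]; rfl
  · rw [ind_pos h, ind_neg h', ind_neg (fun a => h' a.2)]; rfl
  · rw [ind_neg h, ind_neg (fun a => h a.1), zero_mul]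
  · rw [ind_neg h, ind_neg (fun a => h a.1), zero_mul]

theorem ind_cases (p : Prop) : ind p = 0 ∨ ind p = 1 := by
  by_cases h : p
  · right; exact ind_pos h
  · left; exact ind_neg h

theorem cnt_eq_sum [Fintype Ω] (S : Set Ω) (v : Ω → V) (P : Ω → Prop) (u : V) :
    (cnt S v P u : ℤ) = ∑ y, ind (y ∈ S) * (ind (v y = u) * ind (P y)) := by
  classical
  unfold cnt
  rw [Set.ncard_eq_toFinset_card', Set.toFinset_setOf, Finset.card_filter]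
  push_cast
  apply Finset.sum_congr rfl
  intro y _
  rw [← ind_and, ← ind_and, ind_ite]

variable (D : Oct Ω)

theorem ind_fc (x y : Ω) : ind (y ∈ D.fc x) = ind (y = x) + ind (y = D.p1 x) + ind (y = D.p2 x) +
    ind (y = D.p3 x) + ind (y = D.p4 x) + ind (y = D.p5 x) + ind (y = D.p6 x) + ind (y = D.p7 x) := by
  by_cases h : y ∈ D.fc x
  · rw [ind_pos h]
    rcases h with rfl | rfl | rfl | rfl | rfl | rfl | rfl | rfl
    · rw [ind_pos rfl, ind_neg (D.ne0_1 _), ind_neg (D.ne0_2 _), ind_neg (D.ne0_3 _),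
        ind_neg (D.ne0_4 _), ind_neg (D.ne0_5 _), ind_neg (D.ne0_6 _), ind_neg (D.ne0_7 _)]; rfl
    · rw [ind_pos rfl, ind_neg (D.ne1_0 _), ind_neg (D.ne1_2 _), ind_neg (D.ne1_3 _),
        ind_neg (D.ne1_4 _), ind_neg (D.ne1_5 _), ind_neg (D.ne1_6 _), ind_neg (D.ne1_7 _)]; rfl
    · rw [ind_pos rfl, ind_neg (D.ne2_0 _), ind_neg (D.ne2_1 _), ind_neg (D.ne2_3 _),
        ind_neg (D.ne2_4 _), ind_neg (D.ne2_5 _), ind_neg (D.ne2_6 _), ind_neg (D.ne2_7 _)]; rfl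
    · rw [ind_pos rfl, ind_neg (D.ne3_0 _), ind_neg (D.ne3_1 _), ind_neg (D.ne3_2 _),
        ind_neg (D.ne3_4 _), ind_neg (D.ne3_5 _), ind_neg (D.ne3_6 _), ind_neg (D.ne3_7 _)]; rfl
    · rw [ind_pos rfl, ind_neg (D.ne4_0 _), ind_neg (D.ne4_1 _), ind_neg (D.ne4_2 _),
        ind_neg (D.ne4_3 _), ind_neg (D.ne4_5 _), ind_neg (D.ne4_6 _), ind_neg (D.ne4_7 _)]; rfl
    · rw [ind_pos rfl, ind_neg (D.ne5_0 _), ind_neg (D.ne5_1 _), ind_neg (D.ne5_2 _),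
        ind_neg (D.ne5_3 _), ind_neg (D.ne5_4 _), ind_neg (D.ne5_6 _), ind_neg (D.ne5_7 _)]; rfl
    · rw [ind_pos rfl, ind_neg (D.ne6_0 _), ind_neg (D.ne6_1 _), ind_neg (D.ne6_2 _),
        ind_neg (D.ne6_3 _), ind_neg (D.ne6_4 _), ind_neg (D.ne6_5 _), ind_neg (D.ne6_7 _)]; rfl
    · rw [ind_pos rfl, ind_neg (D.ne7_0 _), ind_neg (D.ne7_1 _), ind_neg (D.ne7_2 _),
        ind_neg (D.ne7_3 _), ind_neg (D.ne7_4 _), ind_neg (D.ne7_5 _), ind_neg (D.ne7_6 _)]; rfl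
  · rw [ind_neg h]
    rw [D.mem_fc] at h
    push Not at h
    rw [ind_neg h.1, ind_neg h.2.1, ind_neg h.2.2.1, ind_neg h.2.2.2.1, ind_neg h.2.2.2.2.1,
      ind_neg h.2.2.2.2.2.1, ind_neg h.2.2.2.2.2.2.1, ind_neg h.2.2.2.2.2.2.2]; rfl

theorem sum_ind_eq [Fintype Ω] (e : Ω) (f : Ω → ℤ) : ∑ y, ind (y = e) * f y = f e := by
  classical
  have : ∀ y, ind (y = e) * f y = if y = e then f y else 0 := by
    intro y
    by_cases h : y = e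
    · rw [ind_pos h, if_pos h, one_mul]
    · rw [ind_neg h, if_neg h, zero_mul]
  rw [Finset.sum_congr rfl (fun y _ => this y)]
  simp

/-- sum over the flags of a face, weighted by the label `u` -/
noncomputable def fs (v : Ω → V) (P : Ω → Prop) (u : V) (x : Ω) : ℤ :=
  ind (v x = u) * ind (P x) + ind (v (D.p1 x) = u) * ind (P (D.p1 x)) +
  ind (v (D.p2 x) = u) * ind (P (D.p2 x)) + ind (v (D.p3 x) = u) * ind (P (D.p3 x)) +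
  ind (v (D.p4 x) = u) * ind (P (D.p4 x)) + ind (v (D.p5 x) = u) * ind (P (D.p5 x)) +
  ind (v (D.p6 x) = u) * ind (P (D.p6 x)) + ind (v (D.p7 x) = u) * ind (P (D.p7 x))

theorem sum_fc [Fintype Ω] (v : Ω → V) (P : Ω → Prop) (u : V) (x : Ω) :
    ∑ y, ind (y ∈ D.fc x) * (ind (v y = u) * ind (P y)) = fs D v P u x := by
  simp only [ind_fc, add_mul, Finset.sum_add_distrib, sum_ind_eq]
  rfl

/-- counting over `S` and over `S` without a face, no change outside -/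
theorem cnt0 [Finite Ω] {S : Set Ω} {x : Ω} (hx : D.fc x ⊆ S) (v : Ω → V) (P P' : Ω → Prop)
    (h : ∀ y ∈ S \ D.fc x, P y ↔ P' y) (u : V) :
    (cnt S v P u : ℤ) = cnt (S \ D.fc x) v P' u + fs D v P u x := by
  classical
  haveI : Fintype Ω := Fintype.ofFinite Ω
  rw [cnt_eq_sum, cnt_eq_sum, ← sum_fc, ← Finset.sum_add_distrib]
  apply Finset.sum_congr rfl
  intro y _
  by_cases h1 : y ∈ D.fc x
  · rw [ind_pos (hx h1), ind_neg (fun a : y ∈ S \ D.fc x => a.2 h1), ind_pos h1]; ring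
  · by_cases h2 : y ∈ S
    · have hm : y ∈ S \ D.fc x := ⟨h2, h1⟩
      rw [ind_pos h2, ind_pos hm, ind_neg h1, ind_congr (h y hm)]; ring
    · rw [ind_neg h2, ind_neg (fun a : y ∈ S \ D.fc x => h2 a.1), ind_neg h1]; ring

/-- the same with four exceptional flags -/
theorem cnt4 [Finite Ω] {S : Set Ω} {x : Ω} (hx : D.fc x ⊆ S) (v : Ω → V) (P P' : Ω → Prop)
    {e1 e2 e3 e4 : Ω} (m1 : e1 ∈ S \ D.fc x) (m2 : e2 ∈ S \ D.fc x) (m3 : e3 ∈ S \ D.fc x)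
    (m4 : e4 ∈ S \ D.fc x) (n12 : e1 ≠ e2) (n13 : e1 ≠ e3) (n14 : e1 ≠ e4) (n23 : e2 ≠ e3)
    (n24 : e2 ≠ e4) (n34 : e3 ≠ e4)
    (h : ∀ y ∈ S \ D.fc x, y ≠ e1 → y ≠ e2 → y ≠ e3 → y ≠ e4 → (P y ↔ P' y)) (u : V) :
    (cnt S v P u : ℤ) = cnt (S \ D.fc x) v P' u + fs D v P u x
      + ind (v e1 = u) * (ind (P e1) - ind (P' e1)) + ind (v e2 = u) * (ind (P e2) - ind (P' e2))
      + ind (v e3 = u) * (ind (P e3) - ind (P' e3)) + ind (v e4 = u) * (ind (P e4) - ind (P' e4)) := by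
  classical
  haveI : Fintype Ω := Fintype.ofFinite Ω
  rw [cnt_eq_sum, cnt_eq_sum, ← sum_fc, ← Finset.sum_add_distrib]
  rw [← sum_ind_eq e1 (fun y => ind (v y = u) * (ind (P y) - ind (P' y))), ← Finset.sum_add_distrib,
    ← sum_ind_eq e2 (fun y => ind (v y = u) * (ind (P y) - ind (P' y))), ← Finset.sum_add_distrib,
    ← sum_ind_eq e3 (fun y => ind (v y = u) * (ind (P y) - ind (P' y))), ← Finset.sum_add_distrib,
    ← sum_ind_eq e4 (fun y => ind (v y = u) * (ind (P y) - ind (P' y))), ← Finset.sum_add_distrib]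
  apply Finset.sum_congr rfl
  intro y _
  by_cases h1 : y = e1
  · subst h1
    rw [ind_pos rfl, ind_neg n12, ind_neg n13, ind_neg n14, ind_pos m1.1, ind_pos m1, ind_neg m1.2]
    ring
  by_cases h2 : y = e2
  · subst h2
    rw [ind_pos rfl, ind_neg h1, ind_neg n23, ind_neg n24, ind_pos m2.1, ind_pos m2, ind_neg m2.2]
    ring
  by_cases h3 : y = e3
  · subst h3
    rw [ind_pos rfl, ind_neg h1, ind_neg h2, ind_neg n34, ind_pos m3.1, ind_pos m3, ind_neg m3.2]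
    ring
  by_cases h4 : y = e4
  · subst h4
    rw [ind_pos rfl, ind_neg h1, ind_neg h2, ind_neg h3, ind_pos m4.1, ind_pos m4, ind_neg m4.2]
    ring
  rw [ind_neg h1, ind_neg h2, ind_neg h3, ind_neg h4]
  by_cases h5 : y ∈ D.fc x
  · rw [ind_pos (hx h5), ind_neg (fun a : y ∈ S \ D.fc x => a.2 h5), ind_pos h5]; ring
  · by_cases h6 : y ∈ S
    · have hm : y ∈ S \ D.fc x := ⟨h6, h5⟩
      rw [ind_pos h6, ind_pos hm, ind_neg h5, ind_congr (h y hm h1 h2 h3 h4)]; ring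
    · rw [ind_neg h6, ind_neg (fun a : y ∈ S \ D.fc x => h6 a.1), ind_neg h5]; ring

end counting

section more

variable {D : Oct Ω} {S : Set Ω} {a2 : Ω → Ω} {v : Ω → V} {x : Ω}

theorem cv_congr {y z : Ω} (h : v y = v z) : cv D v x y = cv D v x z :=
  (cv_iff y z).2 (Or.inl h)

theorem cv_v {y : Ω} (h : v y = v x) : cv D v x y = v x := by
  unfold cv
  by_cases h1 : v y = v (D.p3 x)
  · rw [if_pos h1]
  · rw [if_neg h1, h]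

theorem cv_c {y : Ω} (h : v y = v (D.p3 x)) : cv D v x y = v x := by
  unfold cv; rw [if_pos h]

theorem cv_o {y : Ω} (h : v y ≠ v (D.p3 x)) : cv D v x y = v y := by
  unfold cv; rw [if_neg h]

theorem cv_eq_v (hv : v x ≠ v (D.p3 x)) {y : Ω} :
    cv D v x y = v x ↔ (v y = v x ∨ v y = v (D.p3 x)) := by
  constructor
  · intro h
    by_cases h1 : v y = v (D.p3 x)
    · exact Or.inr h1
    · rw [cv_o h1] at h; exact Or.inl h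
  · rintro (h | h)
    · exact cv_v h
    · exact cv_c h

/-- the labels do not change when the base flag `x` is replaced by `p7 x` (exchange of `a`, `b`) -/
theorem Mp.cv_p7 (m : Mp D S a2 v) (hx : x ∈ S) : cv D v (D.p7 x) = cv D v x := by
  funext y
  unfold cv
  rw [D.p3_p7, m.v43 hx, m.v7 hx]

/-- number of flags with a label different from `v`, `c` in the contraction -/
theorem cnt_other (S' : Set Ω) (P : Ω → Prop) {u : V} (h1 : u ≠ v x) (h2 : u ≠ v (D.p3 x)) :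
    cnt S' (cv D v x) P u = cnt S' v P u := by
  unfold cnt
  apply congrArg
  ext y
  constructor
  · rintro ⟨a, b, c⟩
    refine ⟨a, ?_, c⟩
    by_cases h : v y = v (D.p3 x)
    · rw [cv_c h] at b; exact absurd b.symm h1
    · rw [cv_o h] at b; exact b
  · rintro ⟨a, b, c⟩
    refine ⟨a, ?_, c⟩
    rw [cv_o (by rw [b]; exact h2)]; exact b

/-- number of flags with the new label `v = c` in the contraction -/
theorem cnt_merge [Finite Ω] (S' : Set Ω) (P : Ω → Prop) (hv : v x ≠ v (D.p3 x)) :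
    cnt S' (cv D v x) P (v x) = cnt S' v P (v x) + cnt S' v P (v (D.p3 x)) := by
  unfold cnt
  rw [← Set.ncard_union_eq]
  · apply congrArg
    ext y
    constructor
    · rintro ⟨a, b, c⟩
      rcases (cv_eq_v hv).1 b with h | h
      · left; exact ⟨a, h, c⟩
      · right; exact ⟨a, h, c⟩
    · rintro (⟨a, b, c⟩ | ⟨a, b, c⟩)
      · exact ⟨a, cv_v b, c⟩
      · exact ⟨a, cv_c b, c⟩
  · rw [Set.disjoint_left]
    rintro y ⟨_, b, _⟩ ⟨_, b', _⟩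
    exact hv (b.symm.trans b')

/-- where `a2` of an outer flag lies -/
theorem Mp.outer (m : Mp D S a2 v) (hx : x ∈ S) {y : Ω} (hy : y ∈ S \ D.fc x) :
    (a2 y ∉ D.fc x ∧ a2 y ∈ S \ D.fc x ∧ ca D a2 x y = a2 y) ∨
      ∃ z ∈ D.fc x, y = a2 z ∧ a2 y = z := by
  by_cases h : a2 y ∈ D.fc x
  · right
    exact ⟨a2 y, h, (m.e2 y hy.1).symm, rfl⟩
  · left
    exact ⟨h, ⟨m.s2 y hy.1, h⟩, ca_out D a2 x h⟩

theorem Mp.e2f (m : Mp D S a2 v) (hx : x ∈ S) : ∀ z ∈ D.fc x, a2 (a2 z) = z :=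
  fun z hz => m.e2 z (m.fcS hx hz)

/-- consequence of `u1`: at most one of `x`, `a1 (a0 x)` is in `A` -/
theorem Act.u2 {A : Set Ω} (h : Act D S a2 v A) {y : Ω} (hy : y ∈ A) : D.a1 (D.a0 y) ∉ A := by
  intro h1
  have := h.u1 _ h1
  rw [D.e1, D.e0] at this
  exact this hy

/-- exactly one of the four flags of two adjacent sides is in `A` -/
theorem Act.four {A : Set Ω} (h : Act D S a2 v A) {y : Ω} (hy : y ∈ S) :
    (y ∈ A ∧ D.a1 y ∉ A ∧ D.a0 y ∉ A ∧ D.a0 (D.a1 y) ∉ A) ∨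
    (y ∉ A ∧ D.a1 y ∈ A ∧ D.a0 y ∉ A ∧ D.a0 (D.a1 y) ∉ A) ∨
    (y ∉ A ∧ D.a1 y ∉ A ∧ D.a0 y ∈ A ∧ D.a0 (D.a1 y) ∉ A) ∨
    (y ∉ A ∧ D.a1 y ∉ A ∧ D.a0 y ∉ A ∧ D.a0 (D.a1 y) ∈ A) := by
  rcases h.ex y hy with h1 | h1 | h1 | h1
  · left; exact ⟨h1, h.na1 _ h1, h.u0 _ h1, h.u1 _ h1⟩
  · right; left
    refine ⟨?_, h1, ?_, h.u0 _ h1⟩
    · have := h.na1 _ h1
      rwa [D.e1] at this
    · have := h.u1 _ h1
      rwa [D.e1] at this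
  · right; right; left
    refine ⟨?_, ?_, h1, ?_⟩
    · have := h.u0 _ h1
      rwa [D.e0] at this
    · have := h.u2 h1
      rwa [D.e0] at this
    · have := h.u3 _ h1
      rwa [D.e0] at this
  · right; right; right
    refine ⟨?_, ?_, ?_, h1⟩
    · have := h.u2 h1
      rwa [D.e0, D.e1] at this
    · have := h.u0 _ h1
      rwa [D.e0] at this
    · have := h.u3 _ h1
      rwa [D.e0, D.e1] at this

end more

end KQ
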