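import Pool.Agent.KQ.St
import Pool.Agent.KR.St

/-!
# From the A-structure to the connected 2-factor of `KR.QFlag`
-/

set_option autoImplicit false

namespace KQ

variable {Ω V F : Type}

/-- exactly four flags of every face are free -/
theorem Act.face4 {D : Oct Ω} {S : Set Ω} {a2 : Ω → Ω} {v : Ω → V} {A : Set Ω}
    (h : Act D S a2 v A) (hS0 : ∀ x ∈ S, D.a0 x ∈ S) (hS1 : ∀ x ∈ S, D.a1 x ∈ S) {x : Ω}
    (hx : x ∈ S) : {y | y ∈ D.fc x ∧ D.F A y}.ncard = 4 := by
  have key : ∀ z ∈ A, {y | y ∈ D.fc z ∧ D.F A y}.ncard = 4 := by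
    intro z hz
    have hzS := h.sub hz
    have h7 : D.p7 z ∉ A := h.na1 z hz
    have h1 : D.p1 z ∉ A := h.u0 z hz
    have h6 : D.p6 z ∉ A := h.u1 z hz
    have h3 : D.p3 z ∉ A := h.u3 z hz
    have h2 : D.p2 z ∉ A := h.u2 hz
    have h4S : D.p4 z ∈ S := hS1 _ (hS0 _ (hS1 _ (hS0 _ hzS)))
    have h4 := h.four h4S
    rw [D.a1_p4, D.a0_p4, D.a0_p3] at h4
    have hF : ∀ y, D.F A y ↔ (y ∉ A ∧ D.a1 y ∉ A) := fun _ => Iff.rfl
    rcases h4 with ⟨a, _, b, _⟩ | ⟨_, a, _, _⟩ | ⟨a, _, b, _⟩ | ⟨_, _, _, a⟩
    · have e : {y | y ∈ D.fc z ∧ D.F A y} = ({D.p1 z, D.p2 z, D.p5 z, D.p6 z} : Set Ω) := by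
        ext y
        simp only [Set.mem_setOf_eq, Set.mem_insert_iff, Set.mem_singleton_iff]
        constructor
        · rintro ⟨hy, hf⟩
          rcases hy with rfl | rfl | rfl | rfl | rfl | rfl | rfl | rfl
          · exact absurd hz hf.1
          · simp
          · simp
          · exact absurd (by rw [D.a1_p3]; exact a) hf.2
          · exact absurd a hf.1
          · simp
          · simp
          · exact absurd (by rw [D.a1_p7]; exact hz) hf.2
        · rintro (rfl | rfl | rfl | rfl)
          · exact ⟨D.fc1 z, h1, by rw [D.a1_p1]; exact h2⟩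
          · exact ⟨D.fc2 z, h2, by rw [D.a1_p2]; exact h1⟩
          · exact ⟨D.fc5 z, b, by rw [D.a1_p5]; exact h6⟩
          · exact ⟨D.fc6 z, h6, by rw [D.a1_p6]; exact b⟩
      rw [e, Set.ncard_insert_of_notMem (by simp), Set.ncard_insert_of_notMem (by simp),
        Set.ncard_insert_of_notMem (by simp), Set.ncard_singleton]
    · exact absurd a h3
    · have e : {y | y ∈ D.fc z ∧ D.F A y} = ({D.p1 z, D.p2 z, D.p3 z, D.p4 z} : Set Ω) := by
        ext y
        simp only [Set.mem_setOf_eq, Set.mem_insert_iff, Set.mem_singleton_iff]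
        constructor
        · rintro ⟨hy, hf⟩
          rcases hy with rfl | rfl | rfl | rfl | rfl | rfl | rfl | rfl
          · exact absurd hz hf.1
          · simp
          · simp
          · simp
          · simp
          · exact absurd b hf.1
          · exact absurd (by rw [D.a1_p6]; exact b) hf.2
          · exact absurd (by rw [D.a1_p7]; exact hz) hf.2
        · rintro (rfl | rfl | rfl | rfl)
          · exact ⟨D.fc1 z, h1, by rw [D.a1_p1]; exact h2⟩
          · exact ⟨D.fc2 z, h2, by rw [D.a1_p2]; exact h1⟩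
          · exact ⟨D.fc3 z, h3, by rw [D.a1_p3]; exact a⟩
          · exact ⟨D.fc4 z, a, by rw [D.a1_p4]; exact h3⟩
      rw [e, Set.ncard_insert_of_notMem (by simp), Set.ncard_insert_of_notMem (by simp),
        Set.ncard_insert_of_notMem (by simp), Set.ncard_singleton]
    · exact absurd a h2
  rcases h.ex x hx with h1 | h1 | h1 | h1
  · exact key _ h1
  · have := key _ h1
    rwa [D.fc_a1] at this
  · have := key _ h1
    rwa [D.fc_a0] at this
  · have := key _ h1
    rwa [D.fc_a0, D.fc_a1] at this

/-- the octagons of a quadrangular flag map -/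
def octOf (m : KR.QFlag Ω V F) : Oct Ω where
  a0 := m.a0
  a1 := m.a1
  e0 := m.i0
  e1 := m.i1
  n0 := m.n0
  n1 := m.n1
  n01 := by
    intro x h
    apply m.n4 x
    rw [← h, m.i0]
    rw [← h, m.i0] 
  n4 := by
    intro x h
    exact m.n4 x (by rw [m.q4]; exact h)
  e4 := fun x => (m.q4 x).symm

theorem core (ma : S_MA) : KR.S_CORE := by
  intro Ω V F _ _ _ m ⟨O, hO⟩
  have hm : Mp (octOf m) Set.univ m.a2 m.v :=
    { s0 := fun _ _ => trivial
      s1 := fun _ _ => trivial
      s2 := fun _ _ => trivial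
      e2 := fun x _ => m.i2 x
      n2 := fun x _ => m.n2 x
      c2 := fun x _ => (m.c02 x).symm
      v1 := fun x _ => m.v1 x
      v2 := fun x _ => m.v2 x
      orb := fun g h1 h2 x _ y _ hxy => m.vv g (fun x => h1 x trivial) (fun x => h2 x trivial) x y hxy
      conn := fun g h0 h1 h2 x _ y _ => m.conn g (fun x => h0 x trivial) (fun x => h1 x trivial)
        (fun x => h2 x trivial) x y }
  have ho : Ori (octOf m) Set.univ m.a2 m.v O :=
    { t0 := fun x _ => by
        have := hO.o0 x
        show m.a0 x ∈ O ↔ x ∉ O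
        tauto
      t2 := fun x _ => hO.o2 x
      deg := fun x _ => by
        rw [← hO.deg (m.v x)]
        unfold cnt
        apply congrArg
        ext y
        constructor
        · rintro ⟨_, b, c⟩; exact ⟨c, b⟩
        · rintro ⟨b, c⟩; exact ⟨trivial, c, b⟩ }
  obtain ⟨A, hA⟩ := ma Ω V (octOf m) Set.univ m.a2 m.v O hm ho
  have hfc : ∀ x y, m.f y = m.f x ↔ y ∈ (octOf m).fc x := by
    intro x y
    constructor
    · intro h
      exact m.ff (fun z => z ∈ (octOf m).fc x) (fun z => (octOf m).mem_fc_a0)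
        (fun z => (octOf m).mem_fc_a1) x y h.symm ((octOf m).fc0 x)
    · intro h
      have f0 := m.f0
      have f1 := m.f1
      rcases h with rfl | rfl | rfl | rfl | rfl | rfl | rfl | rfl
      · rfl
      · exact f0 _
      · exact (f1 _).trans (f0 _)
      · exact (f0 _).trans ((f1 _).trans (f0 _))
      · exact (f1 _).trans ((f0 _).trans ((f1 _).trans (f0 _)))
      · exact (f1 _).trans ((f0 _).trans (f1 _))
      · exact (f0 _).trans (f1 _)
      · exact f1 _
  refine ⟨{y | (octOf m).F A y}, ?_⟩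
  exact
    { c1 := fun x => (octOf m).F_a1 x A
      dv := fun a => by
        obtain ⟨x, rfl⟩ := m.vs a
        rw [← hA.deg x trivial]
        unfold cnt
        apply congrArg
        ext y
        constructor
        · rintro ⟨b, c⟩; exact ⟨trivial, c, b⟩
        · rintro ⟨_, b, c⟩; exact ⟨c, b⟩
      df := fun b => by
        obtain ⟨x, rfl⟩ := m.fs b
        rw [← hA.face4 (fun _ _ => trivial) (fun _ _ => trivial) (x := x) trivial]
        apply congrArg
        ext y
        constructor
        · rintro ⟨b, c⟩; exact ⟨(hfc x y).1 c, b⟩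
        · rintro ⟨b, c⟩; exact ⟨c, (hfc x y).2 b⟩
      cn := fun g h1 h2 x hx y hy => by
        apply hA.ham g _ _ x trivial y trivial hx hy
        · intro x _ y _ a b c
          exact h1 x a y b c
        · intro x _ y _ a b c
          exact h2 x a y b ((hfc x y).2 c).symm }

end KQ
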