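import Mathlib

/-!
# Quadrangular maps by flags

`Oct Ω` : the flags `Ω` of a set of disjoint octagons, that is of quadrangular faces: `a0` changes
the vertex of a flag, `a1` its edge.  Every orbit of `a0, a1` has 8 elements.  For a flag `x` the
flags of its face are, in cyclic order, `x, p1 x, p2 x, ..., p7 x` with
`a0 : x - p1, p2 - p3, p4 - p5, p6 - p7` (the four sides) and
`a1 : p1 - p2, p3 - p4, p5 - p6, p7 - x` (the four corners).
The corners are called `v = {x, p7}`, `a = {p1, p2}`, `c = {p3, p4}`, `b = {p5, p6}`.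
A map lives on a subset `S` of `Ω` closed under `a0, a1` (a union of faces), the glueing of the
sides is given by the involution `a2` of `S`.
-/

set_option autoImplicit false

namespace KQ

/-- octagons: flags of quadrangular faces -/
structure Oct (Ω : Type) where
  /-- other end of the same side -/
  a0 : Ω → Ω
  /-- other side at the same corner -/
  a1 : Ω → Ω
  e0 : ∀ x, a0 (a0 x) = x
  e1 : ∀ x, a1 (a1 x) = x
  n0 : ∀ x, a0 x ≠ x
  n1 : ∀ x, a1 x ≠ x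
  n01 : ∀ x, a0 x ≠ a1 x
  n4 : ∀ x, a1 (a0 (a1 (a0 x))) ≠ x
  e4 : ∀ x, a1 (a0 (a1 (a0 x))) = a0 (a1 (a0 (a1 x)))

variable {Ω V : Type}

namespace Oct

variable (D : Oct Ω)

def p1 (x : Ω) : Ω := D.a0 x
def p2 (x : Ω) : Ω := D.a1 (D.a0 x)
def p3 (x : Ω) : Ω := D.a0 (D.a1 (D.a0 x))
def p4 (x : Ω) : Ω := D.a1 (D.a0 (D.a1 (D.a0 x)))
def p5 (x : Ω) : Ω := D.a1 (D.a0 (D.a1 x))
def p6 (x : Ω) : Ω := D.a0 (D.a1 x)
def p7 (x : Ω) : Ω := D.a1 x

/-- the eight flags of the face of `x` -/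
def fc (x : Ω) : Set Ω :=
  {z | z = x ∨ z = D.p1 x ∨ z = D.p2 x ∨ z = D.p3 x ∨ z = D.p4 x ∨ z = D.p5 x ∨ z = D.p6 x ∨
    z = D.p7 x}

/-- the four flags at the corner of `x` and at the opposite corner -/
def vc (x : Ω) : Set Ω := {z | z = x ∨ z = D.p7 x ∨ z = D.p3 x ∨ z = D.p4 x}

/-- corner `{y, a1 y}` without flag in `A` -/
def F (A : Set Ω) (y : Ω) : Prop := y ∉ A ∧ D.a1 y ∉ A

end Oct

/-- number of flags of `S` with label `u` and property `P` -/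
noncomputable def cnt (S : Set Ω) (v : Ω → V) (P : Ω → Prop) (u : V) : ℕ :=
  {y | y ∈ S ∧ v y = u ∧ P y}.ncard

/-- a connected quadrangular map with flag set `S`; vertices = labels `v` -/
structure Mp (D : Oct Ω) (S : Set Ω) (a2 : Ω → Ω) (v : Ω → V) : Prop where
  s0 : ∀ x ∈ S, D.a0 x ∈ S
  s1 : ∀ x ∈ S, D.a1 x ∈ S
  s2 : ∀ x ∈ S, a2 x ∈ S
  e2 : ∀ x ∈ S, a2 (a2 x) = x
  n2 : ∀ x ∈ S, a2 x ≠ x
  c2 : ∀ x ∈ S, a2 (D.a0 x) = D.a0 (a2 x)
  v1 : ∀ x ∈ S, v (D.a1 x) = v x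
  v2 : ∀ x ∈ S, v (a2 x) = v x
  orb : ∀ g : Ω → Prop, (∀ x ∈ S, g (D.a1 x) ↔ g x) → (∀ x ∈ S, g (a2 x) ↔ g x) →
    ∀ x ∈ S, ∀ y ∈ S, v x = v y → g x → g y
  conn : ∀ g : Ω → Prop, (∀ x ∈ S, g (D.a0 x) ↔ g x) → (∀ x ∈ S, g (D.a1 x) ↔ g x) →
    (∀ x ∈ S, g (a2 x) ↔ g x) → ∀ x ∈ S, ∀ y ∈ S, g x → g y

/-- `T` is a 2-orientation: every edge has one of its two ends in `T` (an end of an edge is a pair
`{y, a2 y}`), every vertex is two times such an end -/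
structure Ori (D : Oct Ω) (S : Set Ω) (a2 : Ω → Ω) (v : Ω → V) (T : Set Ω) : Prop where
  t0 : ∀ x ∈ S, D.a0 x ∈ T ↔ x ∉ T
  t2 : ∀ x ∈ S, a2 x ∈ T ↔ x ∈ T
  deg : ∀ x ∈ S, cnt S v (fun y => y ∈ T) (v x) = 4

/-- `A` is an `A`-structure: two corners of every face are without flag in `A`, two corners at
every vertex are without flag in `A`, and these corners form a single cycle -/
structure Act (D : Oct Ω) (S : Set Ω) (a2 : Ω → Ω) (v : Ω → V) (A : Set Ω) : Prop where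
  sub : A ⊆ S
  na1 : ∀ x ∈ A, D.a1 x ∉ A
  na2 : ∀ x ∈ A, a2 x ∉ A
  u0 : ∀ x ∈ A, D.a0 x ∉ A
  u1 : ∀ x ∈ A, D.a0 (D.a1 x) ∉ A
  u3 : ∀ x ∈ A, D.a0 (D.a1 (D.a0 x)) ∉ A
  ex : ∀ x ∈ S, x ∈ A ∨ D.a1 x ∈ A ∨ D.a0 x ∈ A ∨ D.a0 (D.a1 x) ∈ A
  deg : ∀ x ∈ S, cnt S v (D.F A) (v x) = 4
  ham : ∀ g : Ω → Prop,
    (∀ x ∈ S, ∀ y ∈ S, D.F A x → D.F A y → v x = v y → g x → g y) →
    (∀ x ∈ S, ∀ y ∈ S, D.F A x → D.F A y → y ∈ D.fc x → g x → g y) →
    ∀ x ∈ S, ∀ y ∈ S, D.F A x → D.F A y → g x → g y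

section contraction

variable (D : Oct Ω) (a2 : Ω → Ω) (v : Ω → V) (x : Ω)

/-- partner of a flag of the face of `x` when the corners `v` and `c` are identified -/
noncomputable def kp (z : Ω) : Ω := by
  classical
  exact if z ∈ D.vc x then D.a0 (D.a1 (D.a0 z)) else D.a1 z

/-- one step through the face of `x` -/
noncomputable def st (z : Ω) : Ω := by
  classical
  exact if z ∈ D.fc x then a2 (kp D x z) else z

/-- glueing after the contraction of the face of `x` -/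
noncomputable def ca (y : Ω) : Ω := st D a2 x (st D a2 x (a2 y))

/-- labels after the contraction of the face of `x` -/
noncomputable def cv (y : Ω) : V := by
  classical
  exact if v y = v (D.p3 x) then v x else v y

/-- no side of the face of `x` is glued to a side of this face -/
def TN : Prop := ∀ z ∈ D.fc x, a2 z ∉ D.fc x

/-- the side `x` is glued to the side `p6` (the two sides at the corner `v`), no other one -/
def TD1 : Prop := a2 x = D.p6 x ∧ a2 (D.p1 x) = D.p7 x ∧ a2 (D.p2 x) ∉ D.fc x ∧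
  a2 (D.p3 x) ∉ D.fc x ∧ a2 (D.p4 x) ∉ D.fc x ∧ a2 (D.p5 x) ∉ D.fc x

/-- the side `x` is glued to the opposite side, no other one -/
def TD2 : Prop := a2 x = D.p5 x ∧ a2 (D.p1 x) = D.p4 x ∧ a2 (D.p2 x) ∉ D.fc x ∧
  a2 (D.p3 x) ∉ D.fc x ∧ a2 (D.p6 x) ∉ D.fc x ∧ a2 (D.p7 x) ∉ D.fc x

/-- `v` is a source of the face -/
def Src (T : Set Ω) : Prop := x ∈ T ∧ D.p7 x ∈ T

/-- the face is a directed cycle `v, a, c, b` -/
def Cyc (T : Set Ω) : Prop := x ∈ T ∧ D.p2 x ∈ T ∧ D.p4 x ∈ T ∧ D.p6 x ∈ T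

/-- `a` is the source, `b` the sink and `a = b` -/
def Spc (T : Set Ω) : Prop := v (D.p1 x) = v (D.p6 x) ∧ D.p1 x ∈ T ∧ D.p2 x ∈ T ∧ D.p7 x ∈ T ∧
  D.p4 x ∈ T

end contraction

end KQ
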