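import Pool.Agent.KR.KR_LA

/-!
# Existence of a 2-orientation (flags)
-/

set_option autoImplicit false

namespace KR

open Function

namespace HallX

open KR_LA

variable {Ω V F : Type} (m : QFlag Ω V F)

theorem hall_cond [Fintype V] [Finite Ω] {T : Set Ω} (hT : Rep m T) [DecidableEq V]
    (hY : ∀ Y : Set V, Y.Nonempty → m.d Y ≤ 8 * Y.ncard) (S : Finset T) :
    S.card ≤ (S.biUnion fun x : T =>
      ({m.v x, m.v (m.a0 x)} : Finset V) ×ˢ (Finset.univ : Finset (Fin 2))).card := by
  classical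
  have := Fintype.ofFinite Ω
  rcases S.eq_empty_or_nonempty with rfl | hne
  · simp
  set Y : Finset V := S.biUnion fun x : T => ({m.v x, m.v (m.a0 x)} : Finset V) with hYdef
  have h1 : (S.biUnion fun x : T =>
      ({m.v x, m.v (m.a0 x)} : Finset V) ×ˢ (Finset.univ : Finset (Fin 2))) =
      Y ×ˢ (Finset.univ : Finset (Fin 2)) := by
    ext ⟨a, i⟩
    simp only [hYdef, Finset.mem_biUnion, Finset.mem_product, Finset.mem_univ, and_true]
  rw [h1, Finset.card_product, Finset.card_univ, Fintype.card_fin]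
  obtain ⟨x0, hx0⟩ := hne
  have hYne : (Y : Set V).Nonempty := by
    refine ⟨m.v x0, ?_⟩
    rw [Finset.mem_coe, hYdef, Finset.mem_biUnion]
    exact ⟨x0, hx0, by simp⟩
  have h2 := hY Y hYne
  rw [Set.ncard_coe_finset] at h2
  have h3 : 4 * S.card ≤ m.d Y := by
    have e : m.d Y = (Finset.univ.filter
        (fun x : Ω => m.v x ∈ Y ∧ m.v (m.a0 x) ∈ Y)).card := by
      unfold QFlag.d
      rw [Set.ncard_eq_toFinset_card', Set.toFinset_setOf]
      simp
    rw [e, quarter hT _ (by
      intro x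
      simp only [Finset.mem_filter, Finset.mem_univ, true_and, m.i0]
      exact and_comm) (by
      intro x
      simp only [Finset.mem_filter, Finset.mem_univ, true_and, m.v2, m.c02])]
    apply Nat.mul_le_mul_left
    rw [← Finset.card_map (Embedding.subtype _)]
    apply Finset.card_le_card
    intro x hx
    rw [Finset.mem_map] at hx
    obtain ⟨y, hy, rfl⟩ := hx
    rw [Finset.mem_filter, Finset.mem_filter]
    refine ⟨⟨Finset.mem_univ _, ?_, ?_⟩, y.2⟩
    · rw [hYdef, Finset.mem_biUnion]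
      exact ⟨y, hy, by simp⟩
    · rw [hYdef, Finset.mem_biUnion]
      exact ⟨y, hy, by simp⟩
  omega

end HallX

open HallX KR_LA in
theorem t_HALLx : S_HALL := by
  classical
  intro Ω V F _ _ _ m hY
  have := Fintype.ofFinite Ω
  have := Fintype.ofFinite V
  have := Fintype.ofFinite F
  obtain ⟨T, hT⟩ := exT m
  obtain ⟨c, hc, hc'⟩ := (Finset.all_card_le_biUnion_card_iff_exists_injective _).1
    (hall_cond m hT hY)
  have hcard : Fintype.card T = Fintype.card (V × Fin 2) := by
    have h1 := quarter hT Finset.univ (by simp) (by simp)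
    have h2 := cardX m
    have h3 := cardV m
    have h4 : (Finset.univ.filter (· ∈ T)).card = Fintype.card T := by
      rw [Fintype.card_subtype]
    rw [Finset.card_univ, h4] at h1
    rw [Fintype.card_prod, Fintype.card_fin]
    omega
  have hbij : Bijective c := (Fintype.bijective_iff_injective_and_card c).2 ⟨hc, hcard⟩
  have hend : ∀ x : T, (c x).1 = m.v x ∨ (c x).1 = m.v (m.a0 x) := by
    intro x
    have h1 := hc' x
    rw [Finset.mem_product, Finset.mem_insert, Finset.mem_singleton] at h1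
    exact h1.1
  -- `P x` : the chosen end of the edge of `x` is the end of `x`
  let P : Ω → Prop := fun x => ∃ h : x ∈ T, (c ⟨x, h⟩).1 = m.v x
  let N : Ω → Prop := fun x => ∃ h : x ∈ T, (c ⟨x, h⟩).1 ≠ m.v x
  have hPN : ∀ x ∈ T, (N x ↔ ¬ P x) := by
    intro x hx
    constructor
    · rintro ⟨_, h⟩ ⟨_, h'⟩
      exact h h'
    · intro h
      exact ⟨hx, fun h' => h ⟨hx, h'⟩⟩
  have hPT : ∀ x, P x → x ∈ T := fun x h => h.1
  have hNT : ∀ x, N x → x ∈ T := fun x h => h.1
  let O : Set Ω := {x | P x ∨ P (m.a2 x) ∨ N (m.a0 x) ∨ N (m.a0 (m.a2 x))}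
  have e1 : ∀ x, m.a2 (m.a0 x) = m.a0 (m.a2 x) := fun x => (m.c02 x).symm
  have hO1 : ∀ x ∈ T, (x ∈ O ↔ P x) := by
    intro x hx
    rcases hT x with ⟨_, h0, h2, h3⟩ | ⟨h, _⟩ | ⟨h, _⟩ | ⟨h, _⟩
    · constructor
      · rintro (h | h | h | h)
        · exact h
        · exact absurd (hPT _ h) h2
        · exact absurd (hNT _ h) h0
        · exact absurd (hNT _ h) h3
      · intro h; exact Or.inl h
    all_goals exact absurd hx h
  have hO2 : ∀ x ∈ T, (m.a2 x ∈ O ↔ P x) := by
    intro x hx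
    rcases hT x with ⟨_, h0, h2, h3⟩ | ⟨h, _⟩ | ⟨h, _⟩ | ⟨h, _⟩
    · constructor
      · rintro (h | h | h | h)
        · exact absurd (hPT _ h) h2
        · rwa [m.i2] at h
        · exact absurd (hNT _ h) h3
        · rw [m.i2] at h
          exact absurd (hNT _ h) h0
      · intro h
        refine Or.inr (Or.inl ?_)
        rw [m.i2]; exact h
    all_goals exact absurd hx h
  have hO3 : ∀ x ∈ T, (m.a0 x ∈ O ↔ ¬ P x) := by
    intro x hx
    rw [← hPN x hx]
    rcases hT x with ⟨_, h0, h2, h3⟩ | ⟨h, _⟩ | ⟨h, _⟩ | ⟨h, _⟩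
    · constructor
      · rintro (h | h | h | h)
        · exact absurd (hPT _ h) h0
        · rw [e1] at h
          exact absurd (hPT _ h) h3
        · rwa [m.i0] at h
        · rw [e1, m.i0] at h
          exact absurd (hNT _ h) h2
      · intro h
        refine Or.inr (Or.inr (Or.inl ?_))
        rw [m.i0]; exact h
    all_goals exact absurd hx h
  have hO4 : ∀ x ∈ T, (m.a0 (m.a2 x) ∈ O ↔ ¬ P x) := by
    intro x hx
    rw [← hPN x hx]
    rcases hT x with ⟨_, h0, h2, h3⟩ | ⟨h, _⟩ | ⟨h, _⟩ | ⟨h, _⟩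
    · constructor
      · rintro (h | h | h | h)
        · exact absurd (hPT _ h) h3
        · rw [e1, m.i2] at h
          exact absurd (hPT _ h) h0
        · rw [m.i0] at h
          exact absurd (hNT _ h) h2
        · rw [e1, m.i2, m.i0] at h
          exact h
      · intro h
        refine Or.inr (Or.inr (Or.inr ?_))
        rw [e1, m.i2, m.i0]; exact h
    all_goals exact absurd hx h
  have hrep : ∀ x, ∃ y ∈ T, x = y ∨ x = m.a0 y ∨ x = m.a2 y ∨ x = m.a0 (m.a2 y) := by
    intro x
    rcases hT x with ⟨h, _⟩ | ⟨_, h, _⟩ | ⟨_, _, h, _⟩ | ⟨_, _, _, h⟩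
    · exact ⟨x, h, Or.inl rfl⟩
    · exact ⟨_, h, Or.inr (Or.inl (m.i0 _).symm)⟩
    · exact ⟨_, h, Or.inr (Or.inr (Or.inl (m.i2 _).symm))⟩
    · refine ⟨_, h, Or.inr (Or.inr (Or.inr ?_))⟩
      rw [e1, m.i0, m.i2]
  refine ⟨O, ?_, ?_, ?_⟩
  · intro x
    obtain ⟨y, hy, rfl | rfl | rfl | rfl⟩ := hrep x
    · rw [hO1 _ hy, hO2 _ hy]
    · rw [e1, hO3 _ hy, hO4 _ hy]
    · rw [m.i2, hO1 _ hy, hO2 _ hy]
    · rw [e1, m.i2, hO3 _ hy, hO4 _ hy]
  · intro x
    obtain ⟨y, hy, rfl | rfl | rfl | rfl⟩ := hrep x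
    · rw [hO1 _ hy, hO3 _ hy, not_not]
    · rw [m.i0, hO1 _ hy, hO3 _ hy]
    · rw [hO2 _ hy, hO4 _ hy, not_not]
    · rw [m.i0, hO2 _ hy, hO4 _ hy]
  · intro a
    have hPs : ∀ y : T, P y ↔ (c y).1 = m.v y := by
      intro y
      constructor
      · rintro ⟨_, h⟩; exact h
      · intro h; exact ⟨y.2, h⟩
    -- the flag of `T` or its `a0`-image at the chosen end
    let q : T → Ω := fun y => if (c y).1 = m.v y then (y : Ω) else m.a0 y
    have hq : ∀ y : T, (q y = y ∧ P y) ∨ (q y = m.a0 y ∧ ¬ P y) := by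
      intro y
      by_cases h : (c y).1 = m.v y
      · exact Or.inl ⟨if_pos h, (hPs y).2 h⟩
      · exact Or.inr ⟨if_neg h, fun h' => h ((hPs y).1 h')⟩
    have hqO : ∀ y : T, q y ∈ O ∧ m.a2 (q y) ∈ O := by
      intro y
      rcases hq y with ⟨h, h'⟩ | ⟨h, h'⟩
      · rw [h]; exact ⟨(hO1 _ y.2).2 h', (hO2 _ y.2).2 h'⟩
      · rw [h, e1]; exact ⟨(hO3 _ y.2).2 h', (hO4 _ y.2).2 h'⟩
    have hqv : ∀ y : T, m.v (q y) = (c y).1 := by
      intro y
      rcases hq y with ⟨h, h'⟩ | ⟨h, h'⟩
      · rw [h]; exact ((hPs y).1 h').symm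
      · rw [h]
        exact ((hend y).resolve_left (fun h2 => h' ((hPs y).2 h2))).symm
    have hqs : ∀ x ∈ O, ∃ y : T, x = q y ∨ x = m.a2 (q y) := by
      intro x hx
      obtain ⟨y, hy, rfl | rfl | rfl | rfl⟩ := hrep x
      · refine ⟨⟨x, hy⟩, Or.inl ?_⟩
        rcases hq ⟨x, hy⟩ with ⟨h, h'⟩ | ⟨h, h'⟩
        · exact h.symm
        · exact absurd ((hO1 _ hy).1 hx) h'
      · refine ⟨⟨y, hy⟩, Or.inl ?_⟩
        rcases hq ⟨y, hy⟩ with ⟨h, h'⟩ | ⟨h, h'⟩
        · exact absurd h' ((hO3 _ hy).1 hx)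
        · exact h.symm
      · refine ⟨⟨y, hy⟩, Or.inr ?_⟩
        rcases hq ⟨y, hy⟩ with ⟨h, h'⟩ | ⟨h, h'⟩
        · rw [h]
        · exact absurd ((hO2 _ hy).1 hx) h'
      · refine ⟨⟨y, hy⟩, Or.inr ?_⟩
        rcases hq ⟨y, hy⟩ with ⟨h, h'⟩ | ⟨h, h'⟩
        · exact absurd h' ((hO4 _ hy).1 hx)
        · rw [h, e1]
    have hdiff : ∀ y z : T, (q y = q z ∨ q y = m.a2 (q z)) → y = z := by
      intro y z h
      have hTz := hT z
      have hzT : (z : Ω) ∈ T := z.2
      rcases hTz with ⟨_, n0, n2, n3⟩ | ⟨h', _⟩ | ⟨h', _⟩ | ⟨h', _⟩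
      · have key : (y : Ω) = z ∨ (y : Ω) = m.a0 z ∨ (y : Ω) = m.a2 z ∨ (y : Ω) = m.a0 (m.a2 z) := by
          rcases hq y with ⟨a, _⟩ | ⟨a, _⟩ <;> rcases hq z with ⟨b, _⟩ | ⟨b, _⟩ <;>
            rw [a, b] at h <;> rcases h with h | h
          · exact Or.inl h
          · exact Or.inr (Or.inr (Or.inl h))
          · exact Or.inr (Or.inl h)
          · rw [e1] at h; exact Or.inr (Or.inr (Or.inr h))
          · have := congrArg m.a0 h
            rw [m.i0] at this
            exact Or.inr (Or.inl this)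
          · have := congrArg m.a0 h
            rw [m.i0] at this
            exact Or.inr (Or.inr (Or.inr this))
          · have := congrArg m.a0 h
            rw [m.i0, m.i0] at this
            exact Or.inl this
          · have := congrArg m.a0 h
            rw [m.i0, e1, m.i0] at this
            exact Or.inr (Or.inr (Or.inl this))
        rcases key with k | k | k | k
        · exact Subtype.ext k
        · exact absurd (k ▸ y.2) n0
        · exact absurd (k ▸ y.2) n2
        · exact absurd (k ▸ y.2) n3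
      all_goals exact absurd hzT h'
    obtain ⟨y0, hy0⟩ := hbij.2 (a, 0)
    obtain ⟨y1, hy1⟩ := hbij.2 (a, 1)
    have hy01 : y0 ≠ y1 := by
      intro h
      rw [h, hy1] at hy0
      have h2 := congrArg Prod.snd hy0
      exact absurd (show (1 : Fin 2) = 0 from h2) (by decide)
    have hset : {x | x ∈ O ∧ m.v x = a} =
        ({q y0, m.a2 (q y0), q y1, m.a2 (q y1)} : Set Ω) := by
      ext x
      simp only [Set.mem_setOf_eq, Set.mem_insert_iff, Set.mem_singleton_iff]
      constructor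
      · rintro ⟨hx, hv⟩
        obtain ⟨y, hy⟩ := hqs x hx
        have hxv : m.v x = (c y).1 := by
          rcases hy with h | h
          · rw [h, hqv]
          · rw [h, m.v2, hqv]
        have h1 : (c y).1 = a := by rw [← hxv, hv]
        have h2 : (c y).2 = 0 ∨ (c y).2 = 1 := by
          generalize (c y).2 = i
          fin_cases i
          · exact Or.inl rfl
          · exact Or.inr rfl
        rcases h2 with h2 | h2
        · have e : y = y0 := hc (by rw [hy0]; exact Prod.ext h1 h2)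
          subst e
          rcases hy with h | h
          · exact Or.inl h
          · exact Or.inr (Or.inl h)
        · have e : y = y1 := hc (by rw [hy1]; exact Prod.ext h1 h2)
          subst e
          rcases hy with h | h
          · exact Or.inr (Or.inr (Or.inl h))
          · exact Or.inr (Or.inr (Or.inr h))
      · rintro (rfl | rfl | rfl | rfl)
        · exact ⟨(hqO y0).1, by rw [hqv, hy0]⟩
        · exact ⟨(hqO y0).2, by rw [m.v2, hqv, hy0]⟩
        · exact ⟨(hqO y1).1, by rw [hqv, hy1]⟩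
        · exact ⟨(hqO y1).2, by rw [m.v2, hqv, hy1]⟩
    rw [hset, Set.ncard_insert_of_notMem, Set.ncard_insert_of_notMem, Set.ncard_insert_of_notMem,
      Set.ncard_singleton]
    · rw [Set.mem_singleton_iff]
      exact (m.n2 _).symm
    · simp only [Set.mem_insert_iff, Set.mem_singleton_iff, not_or]
      constructor
      · intro h
        exact hy01 (hdiff y1 y0 (Or.inr h.symm)).symm
      · intro h
        have := congrArg m.a2 h
        rw [m.i2, m.i2] at this
        exact hy01 (hdiff y0 y1 (Or.inl this))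
    · simp only [Set.mem_insert_iff, Set.mem_singleton_iff, not_or]
      refine ⟨(m.n2 _).symm, ?_, ?_⟩
      · intro h
        exact hy01 (hdiff y0 y1 (Or.inl h))
      · intro h
        exact hy01 (hdiff y0 y1 (Or.inr h))

end KR
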