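import Pool.Agent.KQ.St

/-!
# The case without contractible face
-/

set_option autoImplicit false

namespace KQ

namespace KQ_BA

variable {Ω V : Type}

theorem ind_true : ind True = 1 := ind_pos trivial

theorem ind_false : ind False = 0 := ind_neg id

/-- the local conditions at a flag -/
def Loc (D : Oct Ω) (A : Set Ω) (z : Ω) : Prop :=
  (z ∈ A → D.a1 z ∉ A ∧ D.a0 z ∉ A ∧ D.a0 (D.a1 z) ∉ A ∧ D.a0 (D.a1 (D.a0 z)) ∉ A) ∧
  (z ∈ A ∨ D.a1 z ∈ A ∨ D.a0 z ∈ A ∨ D.a0 (D.a1 z) ∈ A)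

/-- shape of a face: `x`, `p5 x` in `A` -/
structure SA (D : Oct Ω) (A : Set Ω) (x : Ω) : Prop where
  m0 : x ∈ A
  m1 : D.p1 x ∉ A
  m2 : D.p2 x ∉ A
  m3 : D.p3 x ∉ A
  m4 : D.p4 x ∉ A
  m5 : D.p5 x ∈ A
  m6 : D.p6 x ∉ A
  m7 : D.p7 x ∉ A

/-- shape of a face: `x`, `p4 x` in `A` -/
structure SB (D : Oct Ω) (A : Set Ω) (x : Ω) : Prop where
  m0 : x ∈ A
  m1 : D.p1 x ∉ A
  m2 : D.p2 x ∉ A
  m3 : D.p3 x ∉ A
  m4 : D.p4 x ∈ A
  m5 : D.p5 x ∉ A
  m6 : D.p6 x ∉ A
  m7 : D.p7 x ∉ A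

variable {D : Oct Ω} {A S : Set Ω} {a2 : Ω → Ω} {v : Ω → V} {x : Ω}

theorem SA.loc (h : SA D A x) : ∀ z ∈ D.fc x, Loc D A z := by
  intro z hz
  unfold Loc
  rcases hz with rfl | rfl | rfl | rfl | rfl | rfl | rfl | rfl <;>
    simp [D.a0_x, D.a1_x, h.m0, h.m1, h.m2, h.m3, h.m4, h.m5, h.m6, h.m7]

theorem SB.loc (h : SB D A x) : ∀ z ∈ D.fc x, Loc D A z := by
  intro z hz
  unfold Loc
  rcases hz with rfl | rfl | rfl | rfl | rfl | rfl | rfl | rfl <;>
    simp [D.a0_x, D.a1_x, h.m0, h.m1, h.m2, h.m3, h.m4, h.m5, h.m6, h.m7]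

theorem SA.fs (h : SA D A x) (u : V) : KQ.fs D v (D.F A) u x = ind (v (D.p1 x) = u) +
    ind (v (D.p2 x) = u) + ind (v (D.p3 x) = u) + ind (v (D.p4 x) = u) := by
  unfold KQ.fs Oct.F
  simp [D.a0_x, D.a1_x, h.m0, h.m1, h.m2, h.m3, h.m4, h.m5, h.m6, h.m7, ind_true, ind_false]

theorem SB.fs (h : SB D A x) (u : V) : KQ.fs D v (D.F A) u x = ind (v (D.p1 x) = u) +
    ind (v (D.p2 x) = u) + ind (v (D.p5 x) = u) + ind (v (D.p6 x) = u) := by
  unfold KQ.fs Oct.F
  simp [D.a0_x, D.a1_x, h.m0, h.m1, h.m2, h.m3, h.m4, h.m5, h.m6, h.m7, ind_true, ind_false]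

theorem cnt_fc [Finite Ω] (v : Ω → V) (P : Ω → Prop) (u : V) (x : Ω) :
    (cnt (D.fc x) v P u : ℤ) = KQ.fs D v P u x := by
  have h := cnt0 D (S := D.fc x) (x := x) (fun _ h => h) v P P (fun _ _ => Iff.rfl) u
  have h0 : cnt (D.fc x \ D.fc x) v P u = 0 := by
    unfold cnt
    simp
  rw [h0] at h
  rw [h]
  simp

theorem mk (hs : A ⊆ S) (h2 : ∀ x ∈ A, a2 x ∉ A) (hl : ∀ x ∈ S, Loc D A x)
    (hd : ∀ x ∈ S, cnt S v (D.F A) (v x) = 4)
    (hh : ∀ g : Ω → Prop,
      (∀ x ∈ S, ∀ y ∈ S, D.F A x → D.F A y → v x = v y → g x → g y) →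
      (∀ x ∈ S, ∀ y ∈ S, D.F A x → D.F A y → y ∈ D.fc x → g x → g y) →
      ∀ x ∈ S, ∀ y ∈ S, D.F A x → D.F A y → g x → g y) : Act D S a2 v A where
  sub := hs
  na1 := fun x hx => ((hl x (hs hx)).1 hx).1
  na2 := h2
  u0 := fun x hx => ((hl x (hs hx)).1 hx).2.1
  u1 := fun x hx => ((hl x (hs hx)).1 hx).2.2.1
  u3 := fun x hx => ((hl x (hs hx)).1 hx).2.2.2
  ex := fun x hx => (hl x hx).2
  deg := hd
  ham := hh

/-- half of the flags are in `T` -/
theorem half [Finite Ω] (hS : ∀ x ∈ S, D.a0 x ∈ S) {T : Set Ω} (t0 : ∀ x ∈ S, D.a0 x ∈ T ↔ x ∉ T) :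
    S.ncard = 2 * (S ∩ T).ncard := by
  have h1 : (S \ T).ncard = (S ∩ T).ncard := by
    apply Set.ncard_congr (fun y _ => D.a0 y)
    · rintro y ⟨h, h'⟩
      exact ⟨hS y h, (t0 y h).2 h'⟩
    · intro y z _ _ h
      have := congrArg D.a0 h
      rwa [D.e0, D.e0] at this
    · rintro y ⟨h, h'⟩
      refine ⟨D.a0 y, ⟨hS y h, ?_⟩, D.e0 y⟩
      intro h2
      exact ((t0 y h).1 h2) h'
  have h2 := Set.ncard_inter_add_ncard_sdiff_eq_ncard S T
  omega

/-- one label: a single face -/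
theorem one [Finite Ω] (m : Mp D S a2 v) (hx : x ∈ S) (hS : S = D.fc x)
    (hv : ∀ y ∈ S, v y = v x) : ∃ A, Act D S a2 v A := by
  have hd : ∀ A : Set Ω, SA D A x ∨ SB D A x → ∀ y ∈ S, cnt S v (D.F A) (v y) = 4 := by
    intro A hA y hy
    have h := cnt_fc (D := D) v (D.F A) (v y) x
    rw [← hS] at h
    have hc : ∀ z ∈ D.fc x, v z = v y := by
      intro z hz
      rw [← hS] at hz
      rw [hv z hz, hv y hy]
    have e1 := hc _ (D.fc1 x)
    have e2 := hc _ (D.fc2 x)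
    have e3 := hc _ (D.fc3 x)
    have e4 := hc _ (D.fc4 x)
    have e5 := hc _ (D.fc5 x)
    have e6 := hc _ (D.fc6 x)
    rcases hA with hA | hA
    · rw [hA.fs, e1, e2, e3, e4, ind_pos rfl] at h
      omega
    · rw [hA.fs, e1, e2, e5, e6, ind_pos rfl] at h
      omega
  have hham : ∀ A : Set Ω, ∀ g : Ω → Prop,
      (∀ x ∈ S, ∀ y ∈ S, D.F A x → D.F A y → v x = v y → g x → g y) →
      (∀ x ∈ S, ∀ y ∈ S, D.F A x → D.F A y → y ∈ D.fc x → g x → g y) →
      ∀ x ∈ S, ∀ y ∈ S, D.F A x → D.F A y → g x → g y := by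
    intro A g h1 _ y hy z hz hFy hFz
    exact h1 y hy z hz hFy hFz ((hv y hy).trans (hv z hz).symm)
  by_cases hq : a2 x = D.p5 x
  · refine ⟨{z | z = x ∨ z = D.p4 x}, ?_⟩
    have hB : SB D {z | z = x ∨ z = D.p4 x} x := by
      constructor <;> simp
    refine mk ?_ ?_ ?_ (hd _ (Or.inr hB)) (hham _)
    · rintro z (rfl | rfl)
      · exact hx
      · rw [hS]; exact D.fc4 x
    · have h4 : a2 (D.p4 x) ≠ x := by
        intro h
        have := congrArg a2 h
        rw [m.e2 _ (by rw [hS]; exact D.fc4 x), hq] at this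
        exact D.ne4_5 x this
      rintro z (rfl | rfl)
      · rintro (h | h)
        · exact m.n2 _ hx h
        · rw [hq] at h
          exact D.ne5_4 _ h
      · rintro (h | h)
        · exact h4 h
        · exact m.n2 _ (by rw [hS]; exact D.fc4 x) h
    · intro z hz
      rw [hS] at hz
      exact hB.loc z hz
  · refine ⟨{z | z = x ∨ z = D.p5 x}, ?_⟩
    have hB : SA D {z | z = x ∨ z = D.p5 x} x := by
      constructor <;> simp
    refine mk ?_ ?_ ?_ (hd _ (Or.inl hB)) (hham _)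
    · rintro z (rfl | rfl)
      · exact hx
      · rw [hS]; exact D.fc5 x
    · have h4 : a2 (D.p5 x) ≠ x := by
        intro h
        have := congrArg a2 h
        rw [m.e2 _ (by rw [hS]; exact D.fc5 x)] at this
        exact hq this.symm
      rintro z (rfl | rfl)
      · rintro (h | h)
        · exact m.n2 _ hx h
        · exact hq h
      · rintro (h | h)
        · exact h4 h
        · exact m.n2 _ (by rw [hS]; exact D.fc5 x) h
    · intro z hz
      rw [hS] at hz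
      exact hB.loc z hz

/-- two labels: two faces -/
theorem two [Finite Ω] (m : Mp D S a2 v) {w : Ω} (hx : x ∈ S) (hw : w ∈ S)
    (hxw : w ∉ D.fc x) (hS : S \ D.fc x = D.fc w) (hc : ∀ y ∈ S, v y = v (D.p3 y))
    (hv : v w = v x) (hv1 : v (D.p1 w) = v (D.p1 x)) (hne : v x ≠ v (D.p1 x))
    (h1 : w ≠ a2 x) (h2 : D.p5 w ≠ a2 (D.p5 x)) : ∃ A, Act D S a2 v A := by
  have hin : ∀ y ∈ S, y ∈ D.fc x ∨ y ∈ D.fc w := by
    intro y hy
    by_cases h : y ∈ D.fc x
    · exact Or.inl h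
    · right; rw [← hS]; exact ⟨hy, h⟩
  have hdis : ∀ y ∈ D.fc w, y ∉ D.fc x := by
    intro y hy
    rw [← hS] at hy
    exact hy.2
  have hdis' : ∀ y ∈ D.fc x, y ∉ D.fc w := fun y hy h => hdis y h hy
  -- labels of a face
  have lab : ∀ y ∈ S, v (D.p1 y) = v (D.p1 y) ∧ v (D.p2 y) = v (D.p1 y) ∧ v (D.p3 y) = v y ∧
      v (D.p4 y) = v y ∧ v (D.p5 y) = v (D.p1 y) ∧ v (D.p6 y) = v (D.p1 y) ∧ v (D.p7 y) = v y := by
    intro y hy
    have e3 : v (D.p3 y) = v y := (hc y hy).symm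
    have e6 : v (D.p6 y) = v (D.p1 y) := by
      have := hc _ (m.fcS hy (D.fc1 y))
      rw [D.p3_p1] at this
      exact this.symm
    refine ⟨rfl, m.v21 hy, e3, ?_, ?_, e6, m.v7 hy⟩
    · rw [m.v43 hy, e3]
    · rw [m.v56 hy, e6]
  obtain ⟨_, x2, x3, x4, x5, x6, x7⟩ := lab x hx
  obtain ⟨_, w2, w3, w4, w5, w6, w7⟩ := lab w hw
  let A : Set Ω := {z | z = x ∨ z = D.p5 x ∨ z = w ∨ z = D.p5 w}
  have hwx : ∀ y ∈ D.fc w, ∀ z ∈ D.fc x, y ≠ z := by
    intro y hy z hz h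
    rw [h] at hy
    exact hdis z hy hz
  have hxw' : ∀ y ∈ D.fc x, ∀ z ∈ D.fc w, y ≠ z := fun y hy z hz h => hwx z hz y hy h.symm
  have hAx : SA D A x := by
    constructor <;> simp [A, hxw' _ _ _ (D.fc0 w), hxw' _ _ _ (D.fc5 w)]
  have hAw : SA D A w := by
    constructor <;> simp [A, hwx _ _ _ (D.fc0 x), hwx _ _ _ (D.fc5 x)]
  refine ⟨A, mk ?_ ?_ ?_ ?_ ?_⟩
  · rintro z (rfl | rfl | rfl | rfl)
    · exact hx
    · exact m.fcS hx (D.fc5 x)
    · exact hw
    · exact m.fcS hw (D.fc5 w)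
  · have hlab : ∀ z ∈ A, v (a2 z) = v z := by
      rintro z (rfl | rfl | rfl | rfl)
      · exact m.v2 _ hx
      · exact m.v2 _ (m.fcS hx (D.fc5 x))
      · exact m.v2 _ hw
      · exact m.v2 _ (m.fcS hw (D.fc5 w))
    rintro z hz hz2
    have hl := hlab z hz
    rcases hz with rfl | rfl | rfl | rfl
    · rcases hz2 with h | h | h | h
      · exact m.n2 _ hx h
      · rw [h, x5] at hl; exact hne hl.symm
      · exact h1 h.symm
      · rw [h, w5, hv1] at hl; exact hne hl.symm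
    · rcases hz2 with h | h | h | h
      · rw [h, x5] at hl; exact hne hl
      · exact m.n2 _ (m.fcS hx (D.fc5 x)) h
      · rw [h, x5, hv] at hl; exact hne hl
      · exact h2 h.symm
    · rcases hz2 with h | h | h | h
      · apply h1
        rw [← h, m.e2 _ hw]
      · rw [h, x5, hv] at hl; exact hne hl.symm
      · exact m.n2 _ hw h
      · rw [h, w5, hv1, hv] at hl; exact hne hl.symm
    · rcases hz2 with h | h | h | h
      · rw [h, w5, hv1] at hl; exact hne hl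
      · apply h2
        rw [← h, m.e2 _ (m.fcS hw (D.fc5 w))]
      · rw [h, w5, hv, hv1] at hl; exact hne hl
      · exact m.n2 _ (m.fcS hw (D.fc5 w)) h
  · intro z hz
    rcases hin z hz with h | h
    · exact hAx.loc z h
    · exact hAw.loc z h
  · intro y hy
    have h := cnt0 D (m.fcS hx) v (D.F A) (D.F A) (fun _ _ => Iff.rfl) (v y)
    rw [hS, cnt_fc, hAx.fs, hAw.fs, x2, x3, x4, w2, w3, w4, hv, hv1] at h
    have hy2 : v y = v x ∨ v y = v (D.p1 x) := by
      rcases hin y hy with h | h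
      · rcases h with rfl | rfl | rfl | rfl | rfl | rfl | rfl | rfl <;> tauto
      · rw [← hv, ← hv1]
        rcases h with rfl | rfl | rfl | rfl | rfl | rfl | rfl | rfl <;> tauto
    rcases hy2 with hy2 | hy2
    · rw [hy2, ind_pos rfl, ind_neg hne.symm] at h
      rw [hy2]
      omega
    · rw [hy2, ind_pos rfl, ind_neg hne] at h
      rw [hy2]
      omega
  · intro g hg1 hg2
    -- every free flag is connected with `p1 x`
    have F1 : D.F A (D.p1 x) := by
      unfold Oct.F; rw [D.a1_p1]; exact ⟨hAx.m1, hAx.m2⟩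
    have F3 : D.F A (D.p3 x) := by
      unfold Oct.F; rw [D.a1_p3]; exact ⟨hAx.m3, hAx.m4⟩
    have s1 := m.fcS hx (D.fc1 x)
    have s3 := m.fcS hx (D.fc3 x)
    have hy2 : ∀ y ∈ S, v y = v (D.p3 x) ∨ v y = v (D.p1 x) := by
      intro y hy
      rw [x3]
      rcases hin y hy with h | h
      · rcases h with rfl | rfl | rfl | rfl | rfl | rfl | rfl | rfl <;> tauto
      · rw [← hv, ← hv1]
        rcases h with rfl | rfl | rfl | rfl | rfl | rfl | rfl | rfl <;> tauto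
    have c13 : g (D.p1 x) → g (D.p3 x) := hg2 _ s1 _ s3 F1 F3 (by simp)
    have c31 : g (D.p3 x) → g (D.p1 x) := hg2 _ s3 _ s1 F3 F1 (by simp)
    have to1 : ∀ y ∈ S, D.F A y → (g y ↔ g (D.p1 x)) := by
      intro y hy hF
      rcases hy2 y hy with h | h
      · constructor
        · intro hgy
          exact c31 (hg1 y hy _ s3 hF F3 h hgy)
        · intro hg
          exact hg1 _ s3 y hy F3 hF h.symm (c13 hg)
      · constructor
        · intro hgy
          exact hg1 y hy _ s1 hF F1 h hgy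
        · intro hg
          exact hg1 _ s1 y hy F1 hF h.symm hg
    intro y hy z hz hFy hFz hgy
    exact (to1 z hz hFz).2 ((to1 y hy hFy).1 hgy)

end KQ_BA

open KQ_BA in
theorem t_BA : S_BA := by
  intro Ω V _ D S a2 v T m o hc
  by_cases hne : S.Nonempty
  swap
  · rw [Set.not_nonempty_iff_eq_empty] at hne
    subst hne
    refine ⟨∅, mk (fun _ h => h) (fun _ h => absurd h (Set.notMem_empty _))
      (fun _ h => absurd h (Set.notMem_empty _)) (fun _ h => absurd h (Set.notMem_empty _)) ?_⟩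
    intro g _ _ x hx
    exact absurd hx (Set.notMem_empty _)
  obtain ⟨x, hx⟩ := hne
  have hc1 : ∀ y ∈ S, v (D.a0 (D.a1 y)) = v (D.a0 y) := by
    intro y hy
    have := hc _ (m.s0 y hy)
    rw [this]
    show v (D.p6 y) = v (D.p3 (D.p1 y))
    rw [D.p3_p1]
  -- all labels
  have hlab : ∀ y ∈ S, (v y = v x ∧ v (D.a0 y) = v (D.p1 x)) ∨
      (v y = v (D.p1 x) ∧ v (D.a0 y) = v x) := by
    intro y hy
    refine m.conn (fun y => (v y = v x ∧ v (D.a0 y) = v (D.p1 x)) ∨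
      (v y = v (D.p1 x) ∧ v (D.a0 y) = v x)) ?_ ?_ ?_ x hx y hy (Or.inl ⟨rfl, rfl⟩)
    · intro y hy
      simp only [D.e0]
      tauto
    · intro y hy
      simp only [m.v1 y hy, hc1 y hy]
    · intro y hy
      simp only [m.v2 y hy]
      rw [← m.c2 y hy, m.v2 _ (m.s0 y hy)]
  have hhalf := half (D := D) m.s0 o.t0
  have hfc := m.fcS hx
  by_cases hv : v x = v (D.p1 x)
  · -- one label
    have hall : ∀ y ∈ S, v y = v x := by
      intro y hy
      rcases hlab y hy with h | h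
      · exact h.1
      · rw [h.1, hv]
    have h4 : {y | y ∈ S ∧ v y = v x ∧ y ∈ T}.ncard = 4 := o.deg x hx
    have he : S ∩ T = {y | y ∈ S ∧ v y = v x ∧ y ∈ T} := by
      ext y
      constructor
      · rintro ⟨h, h'⟩
        exact ⟨h, hall y h, h'⟩
      · rintro ⟨h, _, h'⟩
        exact ⟨h, h'⟩
    have h8 : S.ncard = 8 := by
      rw [hhalf, he, h4]
    have hS : S = D.fc x := by
      symm
      apply Set.eq_of_subset_of_ncard_le hfc
      rw [h8, D.fc_ncard]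
    exact one m hx hS hall
  · -- two labels
    have h4 : {y | y ∈ S ∧ v y = v x ∧ y ∈ T}.ncard = 4 := o.deg x hx
    have h4' : {y | y ∈ S ∧ v y = v (D.p1 x) ∧ y ∈ T}.ncard = 4 := o.deg _ (hfc (D.fc1 x))
    have he : S ∩ T = {y | y ∈ S ∧ v y = v x ∧ y ∈ T} ∪ {y | y ∈ S ∧ v y = v (D.p1 x) ∧ y ∈ T} := by
      ext y
      constructor
      · rintro ⟨h, h'⟩
        rcases hlab y h with h2 | h2
        · left; exact ⟨h, h2.1, h'⟩
        · right; exact ⟨h, h2.1, h'⟩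
      · rintro (⟨h, _, h'⟩ | ⟨h, _, h'⟩)
        · exact ⟨h, h'⟩
        · exact ⟨h, h'⟩
    have h16 : S.ncard = 16 := by
      rw [hhalf, he, Set.ncard_union_eq]
      · rw [h4, h4']
      · rw [Set.disjoint_left]
        rintro y ⟨_, h, _⟩ ⟨_, h', _⟩
        exact hv (h.symm.trans h')
    have h8 : (S \ D.fc x).ncard = 8 := by
      rw [Set.ncard_sdiff hfc, h16, D.fc_ncard]
    obtain ⟨z0, hz0⟩ : (S \ D.fc x).Nonempty := by
      rw [← Set.ncard_pos, h8]; norm_num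
    obtain ⟨z, hz, hzv⟩ : ∃ z ∈ S \ D.fc x, v z = v x := by
      rcases hlab z0 hz0.1 with h | h
      · exact ⟨z0, hz0, h.1⟩
      · exact ⟨D.a0 z0, out_a0 m.s0 hz0, h.2⟩
    have hzf : ∀ y ∈ D.fc z, y ∈ S \ D.fc x := by
      intro y hy
      refine ⟨m.fcS hz.1 hy, fun h => hz.2 ?_⟩
      have := D.fc_disj h hy
      rw [this]
      simp
    have hSz : S \ D.fc x = D.fc z := by
      symm
      apply Set.eq_of_subset_of_ncard_le hzf
      rw [h8, D.fc_ncard]
    have key : ∀ w ∈ D.fc z, v w = v x → w ≠ a2 x → D.p5 w ≠ a2 (D.p5 x) →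
        ∃ A, Act D S a2 v A := by
      intro w hw hwv h1 h2
      have hwS := hzf w hw
      have hv1 : v (D.p1 w) = v (D.p1 x) := by
        rcases hlab w hwS.1 with h | h
        · exact h.2
        · exact absurd (hwv.symm.trans h.1) hv
      exact two m hx hwS.1 hwS.2 (by rw [hSz, D.fc_eq hw]) hc hwv hv1 hv h1 h2
    have e3 : v (D.p3 z) = v x := by rw [← hc z hz.1, hzv]
    have e7 : v (D.p7 z) = v x := by rw [m.v7 hz.1, hzv]
    by_contra hcon
    have k0 := fun h1 h2 => hcon (key z (D.fc0 z) hzv h1 h2)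
    have k3 := fun h1 h2 => hcon (key _ (D.fc3 z) e3 h1 h2)
    have k7 := fun h1 h2 => hcon (key _ (D.fc7 z) e7 h1 h2)
    rw [D.p5_p3] at k3
    rw [D.p5_p7] at k7
    by_cases b0 : z = a2 x
    · by_cases b3 : D.p6 z = a2 (D.p5 x)
      · apply k7
        · rw [← b0]; simp
        · rw [← b3]; simp
      · apply k3
        · rw [← b0]; simp
        · exact b3
    · have b0' : D.p5 z = a2 (D.p5 x) := by
        by_contra h
        exact k0 b0 h
      by_cases b3 : D.p3 z = a2 x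
      · apply k7
        · rw [← b3]; simp
        · rw [← b0']; simp
      · apply k3 b3
        rw [← b0']; simp

end KQ
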