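import Pool.Agent.KQ.St

/-!
# C1: the contraction of a face of type D1 is a map
-/

set_option autoImplicit false

namespace KQ

namespace KQ_C1

variable {Ω V : Type}

/-- a set with a fixed point free involution has an even number of elements -/
theorem even_ncard [Finite Ω] (W : Set Ω) (f : Ω → Ω) (h1 : ∀ y ∈ W, f y ∈ W)
    (h2 : ∀ y ∈ W, f (f y) = y) (h3 : ∀ y ∈ W, f y ≠ y) : Even W.ncard := by
  classical
  have : Fintype Ω := Fintype.ofFinite Ω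
  rw [Set.ncard_eq_toFinset_card']
  have h := Finset.sum_involution (s := W.toFinset) (f := fun _ => (1 : ZMod 2))
    (fun y _ => f y) (fun _ _ => by decide)
    (fun y hy _ => h3 y (Set.mem_toFinset.1 hy))
    (fun y hy => Set.mem_toFinset.2 (h1 y (Set.mem_toFinset.1 hy)))
    (fun y hy => h2 y (Set.mem_toFinset.1 hy))
  rw [Finset.sum_const, nsmul_eq_mul, mul_one] at h
  rw [even_iff_two_dvd]
  exact (ZMod.natCast_eq_zero_iff _ 2).1 h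

variable {D : Oct Ω} {S : Set Ω} {a2 : Ω → Ω} {v : Ω → V} {x : Ω}

/-- the inner partners -/
theorem tab (m : Mp D S a2 v) (hx : x ∈ S) (h : TD1 D a2 x) :
    a2 x = D.p6 x ∧ a2 (D.p6 x) = x ∧ a2 (D.p1 x) = D.p7 x ∧ a2 (D.p7 x) = D.p1 x := by
  refine ⟨h.1, ?_, h.2.1, ?_⟩
  · rw [← h.1]; exact m.e2 x hx
  · rw [← h.2.1]; exact m.e2 _ (m.fcS hx (D.fc1 x))

theorem outS (m : Mp D S a2 v) (hx : x ∈ S) (h : TD1 D a2 x) :
    a2 (D.p2 x) ∈ S \ D.fc x ∧ a2 (D.p3 x) ∈ S \ D.fc x ∧ a2 (D.p4 x) ∈ S \ D.fc x ∧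
      a2 (D.p5 x) ∈ S \ D.fc x :=
  ⟨⟨m.s2 _ (m.fcS hx (D.fc2 x)), h.2.2.1⟩, ⟨m.s2 _ (m.fcS hx (D.fc3 x)), h.2.2.2.1⟩,
    ⟨m.s2 _ (m.fcS hx (D.fc4 x)), h.2.2.2.2.1⟩, ⟨m.s2 _ (m.fcS hx (D.fc5 x)), h.2.2.2.2.2⟩⟩

/-- the flags outside -/
theorem cases (m : Mp D S a2 v) (hx : x ∈ S) (h : TD1 D a2 x) {y : Ω} (hy : y ∈ S \ D.fc x) :
    (a2 y ∈ S \ D.fc x ∧ ca D a2 x y = a2 y) ∨ y = a2 (D.p2 x) ∨ y = a2 (D.p3 x) ∨
      y = a2 (D.p4 x) ∨ y = a2 (D.p5 x) := by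
  obtain ⟨t0, t6, t1, t7⟩ := tab m hx h
  rcases m.outer hx hy with ⟨_, h2, h3⟩ | ⟨z, hz, rfl, _⟩
  · exact Or.inl ⟨h2, h3⟩
  · rcases hz with rfl | rfl | rfl | rfl | rfl | rfl | rfl | rfl
    · exact absurd (by rw [t0]; exact D.fc6 _) hy.2
    · exact absurd (by rw [t1]; exact D.fc7 _) hy.2
    · exact Or.inr (Or.inl rfl)
    · exact Or.inr (Or.inr (Or.inl rfl))
    · exact Or.inr (Or.inr (Or.inr (Or.inl rfl)))
    · exact Or.inr (Or.inr (Or.inr (Or.inr rfl)))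
    · exact absurd (by rw [t6]; exact D.fc0 _) hy.2
    · exact absurd (by rw [t7]; exact D.fc1 _) hy.2

/-- the labels of the corners `a`, `b` are `v x` -/
theorem lab (m : Mp D S a2 v) (hx : x ∈ S) (h : TD1 D a2 x) :
    v (a2 (D.p2 x)) = v x ∧ v (a2 (D.p3 x)) = v (D.p3 x) ∧ v (a2 (D.p4 x)) = v (D.p3 x) ∧
      v (a2 (D.p5 x)) = v x := by
  obtain ⟨t0, t6, t1, t7⟩ := tab m hx h
  have hS := m.fcS hx
  refine ⟨?_, m.v2 _ (hS (D.fc3 x)), ?_, ?_⟩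
  · rw [m.v2 _ (hS (D.fc2 x)), m.v21 hx, ← m.v2 _ (hS (D.fc1 x)), t1, m.v7 hx]
  · rw [m.v2 _ (hS (D.fc4 x)), m.v43 hx]
  · rw [m.v2 _ (hS (D.fc5 x)), m.v56 hx, ← m.v2 _ (hS (D.fc6 x)), t6]

/-- parity -/
theorem parity [Finite Ω] (m : Mp D S a2 v) (hx : x ∈ S) (hv : v x ≠ v (D.p3 x))
    (h : TD1 D a2 x) (g : Ω → Prop) (g1 : ∀ y ∈ S \ D.fc x, g (D.a1 y) ↔ g y)
    (g2 : ∀ y ∈ S \ D.fc x, g (ca D a2 x y) ↔ g y) :
    g (a2 (D.p2 x)) ↔ g (a2 (D.p5 x)) := by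
  classical
  obtain ⟨o2, o3, o4, o5⟩ := outS m hx h
  obtain ⟨l2, l3, l4, l5⟩ := lab m hx h
  set W : Set Ω := {y | y ∈ S \ D.fc x ∧ v y = v x ∧ g y} with hW
  have hS := m.fcS hx
  have hne : a2 (D.p2 x) ≠ a2 (D.p5 x) := fun e =>
    D.ne2_5 x (m.inj (hS (D.fc2 x)) (hS (D.fc5 x)) e)
  have e1 : Even W.ncard := by
    refine even_ncard W D.a1 ?_ (fun y _ => D.e1 y) (fun y _ => D.n1 y)
    rintro y ⟨h1, h2, h3⟩
    exact ⟨out_a1 m.s1 h1, (m.v1 y h1.1).trans h2, (g1 y h1).2 h3⟩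
  have e2 : Even (W \ {a2 (D.p2 x), a2 (D.p5 x)}).ncard := by
    have key : ∀ y ∈ W \ {a2 (D.p2 x), a2 (D.p5 x)}, a2 y ∈ S \ D.fc x ∧
        ca D a2 x y = a2 y := by
      rintro y ⟨⟨h1, h2, h3⟩, h4⟩
      rcases cases m hx h h1 with h5 | rfl | rfl | rfl | rfl
      · exact h5
      · exact absurd (Or.inl rfl) h4
      · exact absurd (h2.symm.trans l3) hv
      · exact absurd (h2.symm.trans l4) hv
      · exact absurd (Or.inr rfl) h4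
    refine even_ncard _ a2 ?_ ?_ ?_
    · rintro y hy
      obtain ⟨h5, h6⟩ := key y hy
      obtain ⟨⟨h1, h2, h3⟩, h4⟩ := hy
      refine ⟨⟨h5, (m.v2 y h1.1).trans h2, ?_⟩, ?_⟩
      · rw [← h6]; exact (g2 y h1).2 h3
      · rintro (h7 | h7)
        · exact h1.2 (by rw [m.inj h1.1 (hS (D.fc2 x)) h7]; exact D.fc2 x)
        · exact h1.2 (by rw [m.inj h1.1 (hS (D.fc5 x)) h7]; exact D.fc5 x)
    · rintro y ⟨⟨h1, h2, h3⟩, h4⟩
      exact m.e2 y h1.1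
    · rintro y ⟨⟨h1, h2, h3⟩, h4⟩
      exact m.n2 y h1.1
  by_cases ga : g (a2 (D.p2 x)) <;> by_cases gb : g (a2 (D.p5 x))
  · exact ⟨fun _ => gb, fun _ => ga⟩
  · exfalso
    have h1 : W \ {a2 (D.p2 x), a2 (D.p5 x)} = W \ {a2 (D.p2 x)} := by
      ext y
      constructor
      · rintro ⟨h1, h2⟩
        exact ⟨h1, fun h3 => h2 (Or.inl h3)⟩
      · rintro ⟨h1, h2⟩
        refine ⟨h1, ?_⟩
        rintro (h3 | h3)
        · exact h2 h3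
        · exact gb (by rw [← (h3 : y = _)]; exact h1.2.2)
    rw [h1] at e2
    have h2 : a2 (D.p2 x) ∈ W := ⟨o2, l2, ga⟩
    have h3 := Set.ncard_sdiff_singleton_add_one h2 (Set.toFinite W)
    obtain ⟨a, ha⟩ := e1
    obtain ⟨b, hb⟩ := e2
    omega
  · exfalso
    have h1 : W \ {a2 (D.p2 x), a2 (D.p5 x)} = W \ {a2 (D.p5 x)} := by
      ext y
      constructor
      · rintro ⟨h1, h2⟩
        exact ⟨h1, fun h3 => h2 (Or.inr h3)⟩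
      · rintro ⟨h1, h2⟩
        refine ⟨h1, ?_⟩
        rintro (h3 | h3)
        · exact ga (by rw [← (h3 : y = _)]; exact h1.2.2)
        · exact h2 h3
    rw [h1] at e2
    have h2 : a2 (D.p5 x) ∈ W := ⟨o5, l5, gb⟩
    have h3 := Set.ncard_sdiff_singleton_add_one h2 (Set.toFinite W)
    obtain ⟨a, ha⟩ := e1
    obtain ⟨b, hb⟩ := e2
    omega
  · exact ⟨fun h1 => absurd h1 ga, fun h1 => absurd h1 gb⟩

/-- the extension of a predicate -/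
theorem ext [Finite Ω] (m : Mp D S a2 v) (hx : x ∈ S) (hv : v x ≠ v (D.p3 x))
    (h : TD1 D a2 x) (g : Ω → Prop) (g1 : ∀ y ∈ S \ D.fc x, g (D.a1 y) ↔ g y)
    (g2 : ∀ y ∈ S \ D.fc x, g (ca D a2 x y) ↔ g y) :
    ∃ f : Ω → Prop, (∀ y ∈ S \ D.fc x, f y ↔ g y) ∧ (∀ y ∈ S, f (D.a1 y) ↔ f y) ∧
      (∀ y ∈ S, f (a2 y) ↔ f y) ∧ (f x ↔ f (D.p3 x)) ∧
      ((∀ y ∈ S \ D.fc x, g (D.a0 y) ↔ g y) → ∀ y ∈ S, f (D.a0 y) ↔ f y) := by
  obtain ⟨t0, t6, t1, t7⟩ := tab m hx h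
  obtain ⟨o2, o3, o4, o5⟩ := outS m hx h
  have hp := parity m hx hv h g g1 g2
  have h2f := m.e2f hx
  have c2 : g (a2 (D.p4 x)) ↔ g (a2 (D.p2 x)) := by
    have := g2 _ o2
    rwa [ca_D1_2 D h h2f] at this
  have c3 : g (a2 (D.p5 x)) ↔ g (a2 (D.p3 x)) := by
    have := g2 _ o3
    rwa [ca_D1_3 D h h2f] at this
  have all : ∀ z ∈ D.fc x, a2 z ∉ D.fc x → (g (a2 z) ↔ g (a2 (D.p2 x))) := by
    intro z hz hz2
    rcases hz with rfl | rfl | rfl | rfl | rfl | rfl | rfl | rfl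
    · exact absurd (by rw [t0]; exact D.fc6 _) hz2
    · exact absurd (by rw [t1]; exact D.fc7 _) hz2
    · exact Iff.rfl
    · exact c3.symm.trans hp.symm
    · exact c2
    · exact hp.symm
    · exact absurd (by rw [t6]; exact D.fc0 _) hz2
    · exact absurd (by rw [t7]; exact D.fc1 _) hz2
  let f : Ω → Prop := fun z => (z ∈ D.fc x ∧ g (a2 (D.p2 x))) ∨ (z ∉ D.fc x ∧ g z)
  have fi : ∀ z ∈ D.fc x, f z ↔ g (a2 (D.p2 x)) := by
    intro z hz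
    constructor
    · rintro (h1 | h1)
      · exact h1.2
      · exact absurd hz h1.1
    · intro h1
      exact Or.inl ⟨hz, h1⟩
  have fo : ∀ z, z ∉ D.fc x → (f z ↔ g z) := by
    intro z hz
    constructor
    · rintro (h1 | h1)
      · exact absurd h1.1 hz
      · exact h1.2
    · intro h1
      exact Or.inr ⟨hz, h1⟩
  refine ⟨f, fun y hy => fo y hy.2, ?_, ?_, ?_, ?_⟩
  · intro y hy
    by_cases hyf : y ∈ D.fc x
    · rw [fi y hyf, fi _ (D.mem_fc_a1.2 hyf)]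
    · rw [fo y hyf, fo _ fun h1 => hyf (D.mem_fc_a1.1 h1)]
      exact g1 y ⟨hy, hyf⟩
  · intro y hy
    by_cases hyf : y ∈ D.fc x
    · by_cases h3 : a2 y ∈ D.fc x
      · rw [fi y hyf, fi _ h3]
      · rw [fi y hyf, fo _ h3]
        exact all y hyf h3
    · by_cases h3 : a2 y ∈ D.fc x
      · rw [fo y hyf, fi _ h3]
        have h4 := all (a2 y) h3 (by rw [m.e2 y hy]; exact hyf)
        rw [m.e2 y hy] at h4
        exact h4.symm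
      · rw [fo y hyf, fo _ h3]
        have h4 := g2 y ⟨hy, hyf⟩
        rwa [ca_out D a2 x h3] at h4
  · rw [fi x (D.fc0 x), fi _ (D.fc3 x)]
  · intro h0 y hy
    by_cases hyf : y ∈ D.fc x
    · rw [fi y hyf, fi _ (D.mem_fc_a0.2 hyf)]
    · rw [fo y hyf, fo _ fun h1 => hyf (D.mem_fc_a0.1 h1)]
      exact h0 y ⟨hy, hyf⟩

end KQ_C1

theorem t_C1 : S_C1 := by
  intro Ω V _ D S a2 v x m hx hv h
  obtain ⟨o2, o3, o4, o5⟩ := KQ_C1.outS m hx h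
  obtain ⟨l2, l3, l4, l5⟩ := KQ_C1.lab m hx h
  have hS := m.fcS hx
  have h2f := m.e2f hx
  have k2 := ca_D1_2 D h h2f
  have k3 := ca_D1_3 D h h2f
  have k4 := ca_D1_4 D h h2f
  have k5 := ca_D1_5 D h h2f
  have z2 : D.a0 (a2 (D.p2 x)) = a2 (D.p3 x) := by
    rw [← m.c2 _ (hS (D.fc2 x)), D.a0_p2]
  have z3 : D.a0 (a2 (D.p3 x)) = a2 (D.p2 x) := by
    rw [← m.c2 _ (hS (D.fc3 x)), D.a0_p3]
  have z4 : D.a0 (a2 (D.p4 x)) = a2 (D.p5 x) := by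
    rw [← m.c2 _ (hS (D.fc4 x)), D.a0_p4]
  have z5 : D.a0 (a2 (D.p5 x)) = a2 (D.p4 x) := by
    rw [← m.c2 _ (hS (D.fc5 x)), D.a0_p5]
  refine
    { s0 := fun y hy => out_a0 m.s0 hy
      s1 := fun y hy => out_a1 m.s1 hy
      s2 := ?_, e2 := ?_, n2 := ?_, c2 := ?_, v1 := ?_, v2 := ?_, orb := ?_, conn := ?_ }
  · intro y hy
    rcases KQ_C1.cases m hx h hy with ⟨h1, h2⟩ | rfl | rfl | rfl | rfl
    · rw [h2]; exact h1
    · rw [k2]; exact o4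
    · rw [k3]; exact o5
    · rw [k4]; exact o2
    · rw [k5]; exact o3
  · intro y hy
    rcases KQ_C1.cases m hx h hy with ⟨h1, h2⟩ | rfl | rfl | rfl | rfl
    · rw [h2, ca_out D a2 x (by rw [m.e2 y hy.1]; exact hy.2), m.e2 y hy.1]
    · rw [k2, k4]
    · rw [k3, k5]
    · rw [k4, k2]
    · rw [k5, k3]
  · intro y hy
    rcases KQ_C1.cases m hx h hy with ⟨h1, h2⟩ | rfl | rfl | rfl | rfl
    · rw [h2]; exact m.n2 y hy.1
    · rw [k2]; exact fun e => D.ne4_2 x (m.inj (hS (D.fc4 x)) (hS (D.fc2 x)) e)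
    · rw [k3]; exact fun e => D.ne5_3 x (m.inj (hS (D.fc5 x)) (hS (D.fc3 x)) e)
    · rw [k4]; exact fun e => D.ne2_4 x (m.inj (hS (D.fc2 x)) (hS (D.fc4 x)) e)
    · rw [k5]; exact fun e => D.ne3_5 x (m.inj (hS (D.fc3 x)) (hS (D.fc5 x)) e)
  · intro y hy
    rcases KQ_C1.cases m hx h hy with ⟨h1, h2⟩ | rfl | rfl | rfl | rfl
    · have h3 : a2 (D.a0 y) ∉ D.fc x := by
        rw [m.c2 y hy.1]
        exact fun h4 => h1.2 (D.mem_fc_a0.1 h4)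
      rw [h2, ca_out D a2 x h3, m.c2 y hy.1]
    · rw [z2, k3, k2, z4]
    · rw [z3, k2, k3, z5]
    · rw [z4, k5, k4, z2]
    · rw [z5, k4, k5, z3]
  · intro y hy
    exact cv_congr (m.v1 y hy.1)
  · intro y hy
    rcases KQ_C1.cases m hx h hy with ⟨h1, h2⟩ | rfl | rfl | rfl | rfl
    · rw [h2]; exact cv_congr (m.v2 y hy.1)
    · rw [k2, cv_v l2, cv_c l4]
    · rw [k3, cv_v l5, cv_c l3]
    · rw [k4, cv_v l2, cv_c l4]
    · rw [k5, cv_v l5, cv_c l3]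
  · intro g g1 g2 y hy z hz hyz hg
    obtain ⟨f, f0, f1, f2, f3, -⟩ := KQ_C1.ext m hx hv h g g1 g2
    rw [← f0 z hz]
    rw [← f0 y hy] at hg
    have o := m.orb f f1 f2
    have key : ∀ w ∈ S, (v w = v x ∨ v w = v (D.p3 x)) → (f w ↔ f x) := by
      intro w hw hvw
      rcases hvw with hvw | hvw
      · exact ⟨o w hw x hx hvw, o x hx w hw hvw.symm⟩
      · rw [f3]
        exact ⟨o w hw _ (hS (D.fc3 x)) hvw, o _ (hS (D.fc3 x)) w hw hvw.symm⟩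
    rcases (cv_iff y z).1 hyz with h1 | ⟨h1, h2⟩
    · exact o y hy.1 z hz.1 h1 hg
    · exact (key z hz.1 h2).2 ((key y hy.1 h1).1 hg)
  · intro g g0 g1 g2 y hy z hz hg
    obtain ⟨f, f0, f1, f2, -, f4⟩ := KQ_C1.ext m hx hv h g g1 g2
    rw [← f0 z hz]
    rw [← f0 y hy] at hg
    exact m.conn f (f4 g0) f1 f2 y hy.1 z hz.1 hg

end KQ
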