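import Pool.Agent.KQ.St

/-!
# Contraction of a face of type D2
-/

set_option autoImplicit false

namespace KQ

namespace KQ_C2

variable {Ω V : Type} {D : Oct Ω} {S : Set Ω} {a2 : Ω → Ω} {v : Ω → V} {x : Ω}

theorem even_inv (Q : Finset Ω) (f : Ω → Ω) (h1 : ∀ y ∈ Q, f y ∈ Q) (h2 : ∀ y ∈ Q, f (f y) = y)
    (h3 : ∀ y ∈ Q, f y ≠ y) : Even Q.card := by
  have h : ∑ _y ∈ Q, (1 : ZMod 2) = 0 := by
    apply Finset.sum_involution (fun y _ => f y)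
    · intro y _
      decide
    · intro y hy _
      exact h3 y hy
    · intro y hy
      exact h1 y hy
    · intro y hy
      exact h2 y hy
  rw [Finset.sum_const, nsmul_eq_mul, mul_one] at h
  exact (ZMod.natCast_eq_zero_iff_even).1 h

/-- the four types of outer flags -/
theorem tab (m : Mp D S a2 v) (hx : x ∈ S) (h : TD2 D a2 x) {y : Ω} (hy : y ∈ S \ D.fc x) :
    (a2 y ∉ D.fc x ∧ a2 y ∈ S \ D.fc x ∧ ca D a2 x y = a2 y) ∨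
    (y = a2 (D.p2 x) ∧ ca D a2 x y = a2 (D.p7 x)) ∨
    (y = a2 (D.p7 x) ∧ ca D a2 x y = a2 (D.p2 x)) ∨
    (y = a2 (D.p3 x) ∧ ca D a2 x y = a2 (D.p6 x)) ∨
    (y = a2 (D.p6 x) ∧ ca D a2 x y = a2 (D.p3 x)) := by
  have h2 := m.e2f hx
  have e4 : a2 (D.p4 x) = D.p1 x := by rw [← h.2.1]; exact h2 _ (D.fc1 x)
  have e5 : a2 (D.p5 x) = x := by rw [← h.1]; exact h2 _ (D.fc0 x)
  rcases m.outer hx hy with h1 | ⟨z, hz, h1, _⟩
  · left; exact h1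
  · right
    rcases hz with rfl | rfl | rfl | rfl | rfl | rfl | rfl | rfl
    · exact absurd (by rw [h1, h.1]; simp) hy.2
    · exact absurd (by rw [h1, h.2.1]; simp) hy.2
    · left; refine ⟨h1, ?_⟩; rw [h1]; exact ca_D2_2 D h h2
    · right; right; left; refine ⟨h1, ?_⟩; rw [h1]; exact ca_D2_3 D h h2
    · exact absurd (by rw [h1, e4]; simp) hy.2
    · exact absurd (by rw [h1, e5]; simp) hy.2
    · right; right; right; refine ⟨h1, ?_⟩; rw [h1]; exact ca_D2_6 D h h2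
    · right; left; refine ⟨h1, ?_⟩; rw [h1]; exact ca_D2_7 D h h2

/-- the outer flags -/
theorem mem2 (m : Mp D S a2 v) (hx : x ∈ S) (h : TD2 D a2 x) : a2 (D.p2 x) ∈ S \ D.fc x :=
  ⟨m.s2 _ (m.fcS hx (D.fc2 x)), h.2.2.1⟩
theorem mem3 (m : Mp D S a2 v) (hx : x ∈ S) (h : TD2 D a2 x) : a2 (D.p3 x) ∈ S \ D.fc x :=
  ⟨m.s2 _ (m.fcS hx (D.fc3 x)), h.2.2.2.1⟩
theorem mem6 (m : Mp D S a2 v) (hx : x ∈ S) (h : TD2 D a2 x) : a2 (D.p6 x) ∈ S \ D.fc x :=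
  ⟨m.s2 _ (m.fcS hx (D.fc6 x)), h.2.2.2.2.1⟩
theorem mem7 (m : Mp D S a2 v) (hx : x ∈ S) (h : TD2 D a2 x) : a2 (D.p7 x) ∈ S \ D.fc x :=
  ⟨m.s2 _ (m.fcS hx (D.fc7 x)), h.2.2.2.2.2⟩

/-- the labels of the outer flags -/
theorem lab2 (m : Mp D S a2 v) (hx : x ∈ S) (h : TD2 D a2 x) : v (a2 (D.p2 x)) = v (D.p3 x) := by
  rw [m.v2 _ (m.fcS hx (D.fc2 x)), m.v21 hx, ← m.v43 hx, ← h.2.1, m.v2 _ (m.fcS hx (D.fc1 x))]
theorem lab3 (m : Mp D S a2 v) (hx : x ∈ S) : v (a2 (D.p3 x)) = v (D.p3 x) :=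
  m.v2 _ (m.fcS hx (D.fc3 x))
theorem lab6 (m : Mp D S a2 v) (hx : x ∈ S) (h : TD2 D a2 x) : v (a2 (D.p6 x)) = v x := by
  rw [m.v2 _ (m.fcS hx (D.fc6 x)), ← m.v56 hx, ← h.1, m.v2 x hx]
theorem lab7 (m : Mp D S a2 v) (hx : x ∈ S) : v (a2 (D.p7 x)) = v x := by
  rw [m.v2 _ (m.fcS hx (D.fc7 x)), m.v7 hx]

theorem par [Finite Ω] (m : Mp D S a2 v) (hx : x ∈ S) (hv : v x ≠ v (D.p3 x)) (h : TD2 D a2 x)
    (g : Ω → Prop) (h1 : ∀ y ∈ S \ D.fc x, g (D.a1 y) ↔ g y)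
    (h2 : ∀ y ∈ S \ D.fc x, g (ca D a2 x y) ↔ g y) {e f : Ω}
    (hef : (e = a2 (D.p7 x) ∧ f = a2 (D.p6 x)) ∨ (e = a2 (D.p6 x) ∧ f = a2 (D.p7 x))) :
    g e → g f := by
  classical
  intro he
  by_contra hf
  have hn : a2 (D.p7 x) ≠ a2 (D.p6 x) := by
    intro hh
    exact D.ne7_6 x (m.inj (m.fcS hx (D.fc7 x)) (m.fcS hx (D.fc6 x)) hh)
  have heS : e ∈ S \ D.fc x := by
    rcases hef with ⟨rfl, _⟩ | ⟨rfl, _⟩
    · exact mem7 m hx h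
    · exact mem6 m hx h
  have hel : v e = v x := by
    rcases hef with ⟨rfl, _⟩ | ⟨rfl, _⟩
    · exact lab7 m hx
    · exact lab6 m hx h
  set Q : Finset Ω := (Set.toFinite {y | y ∈ S \ D.fc x ∧ v y = v x ∧ g y}).toFinset with hQ
  have mQ : ∀ y, y ∈ Q ↔ (y ∈ S \ D.fc x ∧ v y = v x ∧ g y) := by
    intro y; rw [hQ, Set.Finite.mem_toFinset]; exact Iff.rfl
  have q1 : Even Q.card := by
    apply even_inv Q D.a1
    · intro y hy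
      rw [mQ] at hy ⊢
      exact ⟨out_a1 m.s1 hy.1, (m.v1 y hy.1.1).trans hy.2.1, (h1 y hy.1).2 hy.2.2⟩
    · intro y _; exact D.e1 y
    · intro y _; exact D.n1 y
  have q2 : Even (Q.erase e).card := by
    apply even_inv _ (ca D a2 x)
    · intro y hy
      rw [Finset.mem_erase, mQ] at hy ⊢
      obtain ⟨hye, hyS, hyl, hyg⟩ := hy
      have hyf : y ≠ f := fun hh => hf (hh ▸ hyg)
      rcases tab m hx h hyS with ⟨t1, t2, t3⟩ | ⟨t1, t2⟩ | ⟨t1, t2⟩ | ⟨t1, t2⟩ | ⟨t1, t2⟩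
      · refine ⟨?_, by rw [t3]; exact t2, ?_, (h2 y hyS).2 hyg⟩
        · intro hh
          rw [t3] at hh
          rcases hef with ⟨he1, _⟩ | ⟨he1, _⟩
          · rw [he1] at hh
            have := m.inj hyS.1 (m.fcS hx (D.fc7 x)) hh
            exact hyS.2 (by rw [this]; simp)
          · rw [he1] at hh
            have := m.inj hyS.1 (m.fcS hx (D.fc6 x)) hh
            exact hyS.2 (by rw [this]; simp)
        · rw [t3, m.v2 y hyS.1, hyl]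
      · exact absurd (hyl.symm.trans (by rw [t1]; exact lab2 m hx h)) hv
      · rcases hef with ⟨rfl, rfl⟩ | ⟨rfl, rfl⟩
        · exact absurd t1 hye
        · exact absurd t1 hyf
      · exact absurd (hyl.symm.trans (by rw [t1]; exact lab3 m hx)) hv
      · rcases hef with ⟨rfl, rfl⟩ | ⟨rfl, rfl⟩
        · exact absurd t1 hyf
        · exact absurd t1 hye
    · intro y hy
      rw [Finset.mem_erase, mQ] at hy
      obtain ⟨hye, hyS, hyl, hyg⟩ := hy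
      rcases tab m hx h hyS with ⟨t1, t2, t3⟩ | ⟨t1, t2⟩ | ⟨t1, t2⟩ | ⟨t1, t2⟩ | ⟨t1, t2⟩
      · rw [t3, ca_out D a2 x (by rw [m.e2 y hyS.1]; exact hyS.2), m.e2 y hyS.1]
      · rw [t2, ca_D2_7 D h (m.e2f hx), t1]
      · rw [t2, ca_D2_2 D h (m.e2f hx), t1]
      · rw [t2, ca_D2_6 D h (m.e2f hx), t1]
      · rw [t2, ca_D2_3 D h (m.e2f hx), t1]
    · intro y hy
      rw [Finset.mem_erase, mQ] at hy
      obtain ⟨hye, hyS, hyl, hyg⟩ := hy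
      rcases tab m hx h hyS with ⟨t1, t2, t3⟩ | ⟨t1, t2⟩ | ⟨t1, t2⟩ | ⟨t1, t2⟩ | ⟨t1, t2⟩
      · rw [t3]; exact m.n2 y hyS.1
      · exact absurd (hyl.symm.trans (by rw [t1]; exact lab2 m hx h)) hv
      · intro hh
        rw [t2, t1] at hh
        exact D.ne2_7 x (m.inj (m.fcS hx (D.fc2 x)) (m.fcS hx (D.fc7 x)) hh)
      · exact absurd (hyl.symm.trans (by rw [t1]; exact lab3 m hx)) hv
      · intro hh
        rw [t2, t1] at hh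
        exact D.ne3_6 x (m.inj (m.fcS hx (D.fc3 x)) (m.fcS hx (D.fc6 x)) hh)
  have heQ : e ∈ Q := (mQ e).2 ⟨heS, hel, he⟩
  have hc := Finset.card_erase_add_one heQ
  rw [← hc] at q1
  exact absurd q1 (by rw [Nat.not_even_iff_odd]; exact q2.add_one)

/-- the extension claim -/
theorem ext [Finite Ω] (m : Mp D S a2 v) (hx : x ∈ S) (hv : v x ≠ v (D.p3 x)) (h : TD2 D a2 x)
    (g : Ω → Prop) (h1 : ∀ y ∈ S \ D.fc x, g (D.a1 y) ↔ g y)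
    (h2 : ∀ y ∈ S \ D.fc x, g (ca D a2 x y) ↔ g y) :
    ∃ k : Ω → Prop, (∀ y ∈ S \ D.fc x, k y ↔ g y) ∧ (∀ y ∈ S, k (D.a1 y) ↔ k y) ∧
      (∀ y ∈ S, k (a2 y) ↔ k y) ∧ (k x ↔ k (D.p3 x)) ∧
      ((∀ y ∈ S \ D.fc x, g (D.a0 y) ↔ g y) → ∀ y ∈ S, k (D.a0 y) ↔ k y) := by
  have g76 : g (a2 (D.p7 x)) ↔ g (a2 (D.p6 x)) :=
    ⟨par m hx hv h g h1 h2 (Or.inl ⟨rfl, rfl⟩), par m hx hv h g h1 h2 (Or.inr ⟨rfl, rfl⟩)⟩
  have g27 : g (a2 (D.p7 x)) ↔ g (a2 (D.p2 x)) := by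
    have := h2 _ (mem2 m hx h)
    rwa [ca_D2_2 D h (m.e2f hx)] at this
  have g36 : g (a2 (D.p6 x)) ↔ g (a2 (D.p3 x)) := by
    have := h2 _ (mem3 m hx h)
    rwa [ca_D2_3 D h (m.e2f hx)] at this
  set k : Ω → Prop := fun z => (z ∈ D.fc x ∧ g (a2 (D.p7 x))) ∨ (z ∉ D.fc x ∧ g z) with hk
  have kin : ∀ z ∈ D.fc x, (k z ↔ g (a2 (D.p7 x))) := by
    intro z hz
    constructor
    · rintro (⟨_, q⟩ | ⟨q, _⟩)
      · exact q
      · exact absurd hz q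
    · intro q; left; exact ⟨hz, q⟩
  have kout : ∀ z, z ∉ D.fc x → (k z ↔ g z) := by
    intro z hz
    constructor
    · rintro (⟨q, _⟩ | ⟨_, q⟩)
      · exact absurd q hz
      · exact q
    · intro q; right; exact ⟨hz, q⟩
  refine ⟨k, fun y hy => kout y hy.2, ?_, ?_, ?_, ?_⟩
  · intro y hy
    by_cases hf : y ∈ D.fc x
    · rw [kin y hf, kin _ ((D.mem_fc_a1).2 hf)]
    · rw [kout y hf, kout _ (fun q => hf ((D.mem_fc_a1).1 q))]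
      exact h1 y ⟨hy, hf⟩
  · -- a2
    have key : ∀ z ∈ D.fc x, (k (a2 z) ↔ g (a2 (D.p7 x))) := by
      intro z hz
      by_cases hf : a2 z ∈ D.fc x
      · exact kin _ hf
      · rw [kout _ hf]
        rcases hz with rfl | rfl | rfl | rfl | rfl | rfl | rfl | rfl
        · exact absurd (by rw [h.1]; simp) hf
        · exact absurd (by rw [h.2.1]; simp) hf
        · exact g27.symm
        · exact (g76.trans g36).symm
        · exact absurd (by rw [← h.2.1, m.e2f hx _ (D.fc1 x)]; simp) hf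
        · exact absurd (by
            have e5 : a2 (D.p5 x) = x := by rw [← h.1]; exact m.e2f hx _ (D.fc0 x)
            rw [e5]; simp) hf
        · exact g76.symm
        · exact Iff.rfl
    intro y hy
    by_cases hf : y ∈ D.fc x
    · rw [kin y hf]; exact key y hf
    · by_cases hf2 : a2 y ∈ D.fc x
      · have := key _ hf2
        rw [m.e2 y hy] at this
        rw [this]
        exact kin _ hf2
      · rw [kout y hf, kout _ hf2, ← ca_out D a2 x hf2]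
        exact h2 y ⟨hy, hf⟩
  · rw [kin _ (D.fc0 x), kin _ (D.fc3 x)]
  · intro h0 y hy
    by_cases hf : y ∈ D.fc x
    · rw [kin y hf, kin _ ((D.mem_fc_a0).2 hf)]
    · rw [kout y hf, kout _ (fun q => hf ((D.mem_fc_a0).1 q))]
      exact h0 y ⟨hy, hf⟩

end KQ_C2

open KQ_C2 in
theorem t_C2 : S_C2 := by
  intro Ω V _ D S a2 v x m hx hv h
  have E := m.e2f hx
  refine ⟨?_, ?_, ?_, ?_, ?_, ?_, ?_, ?_, ?_, ?_⟩
  · intro y hy; exact out_a0 m.s0 hy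
  · intro y hy; exact out_a1 m.s1 hy
  · intro y hy
    rcases tab m hx h hy with ⟨t1, t2, t3⟩ | ⟨t1, t2⟩ | ⟨t1, t2⟩ | ⟨t1, t2⟩ | ⟨t1, t2⟩
    · rw [t3]; exact t2
    · rw [t2]; exact mem7 m hx h
    · rw [t2]; exact mem2 m hx h
    · rw [t2]; exact mem6 m hx h
    · rw [t2]; exact mem3 m hx h
  · intro y hy
    rcases tab m hx h hy with ⟨t1, t2, t3⟩ | ⟨t1, t2⟩ | ⟨t1, t2⟩ | ⟨t1, t2⟩ | ⟨t1, t2⟩
    · rw [t3, ca_out D a2 x (by rw [m.e2 y hy.1]; exact hy.2), m.e2 y hy.1]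
    · rw [t2, ca_D2_7 D h E, t1]
    · rw [t2, ca_D2_2 D h E, t1]
    · rw [t2, ca_D2_6 D h E, t1]
    · rw [t2, ca_D2_3 D h E, t1]
  · intro y hy hh
    rcases tab m hx h hy with ⟨t1, t2, t3⟩ | ⟨t1, t2⟩ | ⟨t1, t2⟩ | ⟨t1, t2⟩ | ⟨t1, t2⟩
    · rw [t3] at hh; exact m.n2 y hy.1 hh
    · rw [t2, t1] at hh
      exact D.ne7_2 x (m.inj (m.fcS hx (D.fc7 x)) (m.fcS hx (D.fc2 x)) hh)
    · rw [t2, t1] at hh
      exact D.ne2_7 x (m.inj (m.fcS hx (D.fc2 x)) (m.fcS hx (D.fc7 x)) hh)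
    · rw [t2, t1] at hh
      exact D.ne6_3 x (m.inj (m.fcS hx (D.fc6 x)) (m.fcS hx (D.fc3 x)) hh)
    · rw [t2, t1] at hh
      exact D.ne3_6 x (m.inj (m.fcS hx (D.fc3 x)) (m.fcS hx (D.fc6 x)) hh)
  · intro y hy
    have c : ∀ z ∈ D.fc x, D.a0 (a2 z) = a2 (D.a0 z) := fun z hz => (m.c2 z (m.fcS hx hz)).symm
    rcases tab m hx h hy with ⟨t1, t2, t3⟩ | ⟨t1, t2⟩ | ⟨t1, t2⟩ | ⟨t1, t2⟩ | ⟨t1, t2⟩
    · rw [t3, ca_out D a2 x (by rw [m.c2 y hy.1]; exact fun q => t1 ((D.mem_fc_a0).1 q)),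
        m.c2 y hy.1]
    · rw [t2, t1, c _ (D.fc2 x), c _ (D.fc7 x), D.a0_p2, D.a0_p7, ca_D2_3 D h E]
    · rw [t2, t1, c _ (D.fc2 x), c _ (D.fc7 x), D.a0_p2, D.a0_p7, ca_D2_6 D h E]
    · rw [t2, t1, c _ (D.fc3 x), c _ (D.fc6 x), D.a0_p3, D.a0_p6, ca_D2_2 D h E]
    · rw [t2, t1, c _ (D.fc3 x), c _ (D.fc6 x), D.a0_p3, D.a0_p6, ca_D2_7 D h E]
  · intro y hy; exact cv_congr (m.v1 y hy.1)
  · intro y hy
    rcases tab m hx h hy with ⟨t1, t2, t3⟩ | ⟨t1, t2⟩ | ⟨t1, t2⟩ | ⟨t1, t2⟩ | ⟨t1, t2⟩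
    · rw [t3]; exact cv_congr (m.v2 y hy.1)
    · rw [t2, t1, cv_v (lab7 m hx), cv_c (lab2 m hx h)]
    · rw [t2, t1, cv_v (lab7 m hx), cv_c (lab2 m hx h)]
    · rw [t2, t1, cv_v (lab6 m hx h), cv_c (lab3 m hx)]
    · rw [t2, t1, cv_v (lab6 m hx h), cv_c (lab3 m hx)]
  · intro g h1 h2 y hy z hz hl hg
    obtain ⟨k, k0, k1, k2, k3, _⟩ := ext m hx hv h g h1 h2
    have hx3 : D.p3 x ∈ S := m.fcS hx (D.fc3 x)
    have key : ∀ w ∈ S, (v w = v x ∨ v w = v (D.p3 x)) → (k w ↔ k x) := by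
      intro w hw hh
      rcases hh with hh | hh
      · exact ⟨m.orb k k1 k2 w hw x hx hh, m.orb k k1 k2 x hx w hw hh.symm⟩
      · rw [k3]
        exact ⟨m.orb k k1 k2 w hw _ hx3 hh, m.orb k k1 k2 _ hx3 w hw hh.symm⟩
    rcases (cv_iff y z).1 hl with hl | ⟨hl1, hl2⟩
    · exact (k0 z hz).1 (m.orb k k1 k2 y hy.1 z hz.1 hl ((k0 y hy).2 hg))
    · exact (k0 z hz).1 ((key z hz.1 hl2).2 ((key y hy.1 hl1).1 ((k0 y hy).2 hg)))
  · intro g h0 h1 h2 y hy z hz hg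
    obtain ⟨k, k0, k1, k2, _, k4⟩ := ext m hx hv h g h1 h2
    exact (k0 z hz).1 (m.conn k (k4 h0) k1 k2 y hy.1 z hz.1 ((k0 y hy).2 hg))

end KQ
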