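import Pool.Agent.KQ.St

/-!
# CN: contraction of a face of type N is a map (project MP_b1567b_co)
-/

set_option autoImplicit false

namespace KQ
namespace KQ_CN

variable {Ω V : Type}

/-- a finite set with a fixed point free involution has an even number of elements -/
theorem even_of_inv [Finite Ω] (C : Set Ω) (i : Ω → Ω) (h1 : ∀ x ∈ C, i x ∈ C)
    (h2 : ∀ x ∈ C, i (i x) = x) (h3 : ∀ x ∈ C, i x ≠ x) : Even C.ncard := by
  classical
  have := Fintype.ofFinite Ω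
  rw [Set.ncard_eq_toFinset_card' C]
  have hs : ∑ x ∈ C.toFinset, (1 : ZMod 2) = 0 := by
    apply Finset.sum_involution (fun x _ => i x)
    · intro x _
      decide
    · intro x hx _
      exact h3 x (by simpa using hx)
    · intro x hx
      simpa using h1 x (by simpa using hx)
    · intro x hx
      exact h2 x (by simpa using hx)
  rw [Finset.sum_const, nsmul_eq_mul, mul_one] at hs
  exact (ZMod.natCast_eq_zero_iff_even).1 hs

section

variable {D : Oct Ω} {S : Set Ω} {a2 : Ω → Ω} {v : Ω → V} {x : Ω}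

theorem out (m : Mp D S a2 v) (hx : x ∈ S) (hN : TN D a2 x) {z : Ω} (hz : z ∈ D.fc x) :
    a2 z ∈ S \ D.fc x := ⟨m.s2 z (m.fcS hx hz), hN z hz⟩

/-- the value of the new involution -/
theorem cs (m : Mp D S a2 v) (hx : x ∈ S) (hN : TN D a2 x) {y : Ω} (hy : y ∈ S \ D.fc x) :
    (a2 y ∉ D.fc x ∧ a2 y ∈ S \ D.fc x ∧ ca D a2 x y = a2 y) ∨
      ∃ z ∈ D.fc x, y = a2 z ∧ a2 y = z ∧ ca D a2 x y = a2 (kp D x z) := by
  rcases m.outer hx hy with h | ⟨z, hz, h1, h2⟩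
  · exact Or.inl h
  · refine Or.inr ⟨z, hz, h1, h2, ?_⟩
    rw [h1]
    exact ca_N D hN hz (m.e2f hx z hz)

theorem caN (m : Mp D S a2 v) (hx : x ∈ S) (hN : TN D a2 x) {z : Ω} (hz : z ∈ D.fc x) :
    ca D a2 x (a2 z) = a2 (kp D x z) := ca_N D hN hz (m.e2f hx z hz)

/-- the set of the parity argument -/
def Q (D : Oct Ω) (S : Set Ω) (v : Ω → V) (x : Ω) (g : Ω → Prop) : Set Ω :=
  {y | y ∈ S \ D.fc x ∧ v y = v x ∧ g y}

/-- flags with the label of `x` other than `V1`, `V2` -/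
theorem step (m : Mp D S a2 v) (hx : x ∈ S) (hN : TN D a2 x) (hv : v x ≠ v (D.p3 x)) {y : Ω}
    (hy : y ∈ S \ D.fc x) (hl : v y = v x) (h1 : y ≠ a2 x) (h2 : y ≠ a2 (D.p7 x)) :
    ca D a2 x y ∈ S \ D.fc x ∧ v (ca D a2 x y) = v x ∧ ca D a2 x y ≠ a2 x ∧
      ca D a2 x y ≠ a2 (D.p7 x) := by
  rcases cs m hx hN hy with ⟨h3, h4, h5⟩ | ⟨z, hz, h3, h4, h5⟩
  · rw [h5]
    refine ⟨h4, ?_, ?_, ?_⟩
    · rw [m.v2 y hy.1, hl]
    · intro h
      have := m.inj hy.1 hx h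
      rw [this] at hy
      exact hy.2 (D.fc0 x)
    · intro h
      have := m.inj hy.1 (m.fcS hx (D.fc7 x)) h
      rw [this] at hy
      exact hy.2 (D.fc7 x)
  · rw [h5]
    have hzl : v z = v x := by
      rw [← hl, h3, m.v2 z (m.fcS hx hz)]
    have key : ∀ w ∈ D.fc x, v w = v x → w ≠ x → w ≠ D.p7 x →
        a2 w ∈ S \ D.fc x ∧ v (a2 w) = v x ∧ a2 w ≠ a2 x ∧ a2 w ≠ a2 (D.p7 x) := by
      intro w hw hwl hw1 hw2
      refine ⟨out m hx hN hw, ?_, ?_, ?_⟩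
      · rw [m.v2 w (m.fcS hx hw), hwl]
      · intro h
        exact hw1 (m.inj (m.fcS hx hw) hx h)
      · intro h
        exact hw2 (m.inj (m.fcS hx hw) (m.fcS hx (D.fc7 x)) h)
    rcases hz with hz | hz | hz | hz | hz | hz | hz | hz
    · exact absurd (by rw [h3, hz]) h1
    · rw [hz] at hzl ⊢
      rw [kp1]
      exact key _ (D.fc2 x) (by rw [m.v21 hx, hzl]) (D.ne2_0 x) (D.ne2_7 x)
    · rw [hz] at hzl ⊢
      rw [kp2]
      exact key _ (D.fc1 x) (by rw [← m.v21 hx, hzl]) (D.ne1_0 x) (D.ne1_7 x)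
    · rw [hz] at hzl
      exact absurd hzl.symm hv
    · rw [hz, m.v43 hx] at hzl
      exact absurd hzl.symm hv
    · rw [hz] at hzl ⊢
      rw [kp5]
      exact key _ (D.fc6 x) (by rw [← m.v56 hx, hzl]) (D.ne6_0 x) (D.ne6_7 x)
    · rw [hz] at hzl ⊢
      rw [kp6]
      exact key _ (D.fc5 x) (by rw [m.v56 hx, hzl]) (D.ne5_0 x) (D.ne5_7 x)
    · exact absurd (by rw [h3, hz]) h2

theorem ca_ca (m : Mp D S a2 v) (hx : x ∈ S) (hN : TN D a2 x) {y : Ω}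
    (hy : y ∈ S \ D.fc x) : ca D a2 x (ca D a2 x y) = y := by
  rcases cs m hx hN hy with ⟨h3, h4, h5⟩ | ⟨z, hz, h3, h4, h5⟩
  · rw [h5, ca_out D a2 x (by rw [m.e2 y hy.1]; exact hy.2), m.e2 y hy.1]
  · rw [h5, caN m hx hN (kp_mem D x hz), kp_kp D x hz, h3]

theorem ca_ne (m : Mp D S a2 v) (hx : x ∈ S) (hN : TN D a2 x) {y : Ω}
    (hy : y ∈ S \ D.fc x) : ca D a2 x y ≠ y := by
  rcases cs m hx hN hy with ⟨h3, h4, h5⟩ | ⟨z, hz, h3, h4, h5⟩
  · rw [h5]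
    exact m.n2 y hy.1
  · rw [h5, h3]
    intro h
    exact kp_ne D x hz (m.inj (m.fcS hx (kp_mem D x hz)) (m.fcS hx hz) h)

/-- parity -/
theorem par [Finite Ω] (m : Mp D S a2 v) (hx : x ∈ S) (hN : TN D a2 x) (hv : v x ≠ v (D.p3 x))
    (g : Ω → Prop) (g1 : ∀ y ∈ S \ D.fc x, g (D.a1 y) ↔ g y)
    (g2 : ∀ y ∈ S \ D.fc x, g (ca D a2 x y) ↔ g y) : g (a2 x) ↔ g (a2 (D.p7 x)) := by
  classical
  have hV1 : a2 x ∈ S \ D.fc x := out m hx hN (D.fc0 x)
  have hV2 : a2 (D.p7 x) ∈ S \ D.fc x := out m hx hN (D.fc7 x)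
  have l1 : v (a2 x) = v x := m.v2 x hx
  have l2 : v (a2 (D.p7 x)) = v x := by
    rw [m.v2 _ (m.fcS hx (D.fc7 x)), m.v7 hx]
  have hne : a2 x ≠ a2 (D.p7 x) := by
    intro h
    exact D.ne0_7 x (m.inj hx (m.fcS hx (D.fc7 x)) h)
  have e1 : Even (Q D S v x g).ncard := by
    refine even_of_inv _ D.a1 ?_ ?_ ?_
    · rintro y ⟨hy, hl, hg⟩
      exact ⟨out_a1 m.s1 hy, by rw [m.v1 y hy.1, hl], (g1 y hy).2 hg⟩
    · intro y _
      exact D.e1 y
    · intro y _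
      exact D.n1 y
  have e2 : Even (Q D S v x g \ {a2 x, a2 (D.p7 x)}).ncard := by
    refine even_of_inv _ (ca D a2 x) ?_ ?_ ?_
    · rintro y ⟨⟨hy, hl, hg⟩, hn⟩
      have hn1 : y ≠ a2 x := fun h => hn (Or.inl h)
      have hn2 : y ≠ a2 (D.p7 x) := fun h => hn (Or.inr h)
      obtain ⟨k1, k2, k3, k4⟩ := step m hx hN hv hy hl hn1 hn2
      exact ⟨⟨k1, k2, (g2 y hy).2 hg⟩, fun h => h.elim k3 k4⟩
    · rintro y ⟨⟨hy, -⟩, -⟩
      exact ca_ca m hx hN hy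
    · rintro y ⟨⟨hy, -⟩, -⟩
      exact ca_ne m hx hN hy
  have key : ∀ a b, a ≠ b → ({a, b} : Set Ω) = {a2 x, a2 (D.p7 x)} → a ∈ Q D S v x g →
      b ∉ Q D S v x g → False := by
    intro a b _ hab ha hb
    have h3 : Q D S v x g \ {a2 x, a2 (D.p7 x)} = Q D S v x g \ {a} := by
      rw [← hab]
      ext z
      constructor
      · rintro ⟨hz, hz'⟩
        exact ⟨hz, fun h => hz' (Or.inl h)⟩
      · rintro ⟨hz, hz'⟩
        refine ⟨hz, fun h => h.elim hz' fun h' => hb ?_⟩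
        rw [← (h' : z = b)]
        exact hz
    have h4 := Set.ncard_diff_singleton_add_one ha
    rw [h3] at e2
    rw [← h4] at e1
    exact (Nat.not_even_iff_odd.2 (Even.add_one e2)) e1
  constructor
  · intro h
    by_contra h'
    exact key _ _ hne rfl ⟨hV1, l1, h⟩ fun hq => h' hq.2.2
  · intro h
    by_contra h'
    exact key _ _ hne.symm (Set.pair_comm _ _) ⟨hV2, l2, h⟩ fun hq => h' hq.2.2

/-- extension of an invariant predicate -/
theorem ext [Finite Ω] (m : Mp D S a2 v) (hx : x ∈ S) (hN : TN D a2 x) (hv : v x ≠ v (D.p3 x))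
    (g : Ω → Prop) (g1 : ∀ y ∈ S \ D.fc x, g (D.a1 y) ↔ g y)
    (g2 : ∀ y ∈ S \ D.fc x, g (ca D a2 x y) ↔ g y) :
    ∃ k : Ω → Prop, (∀ y ∈ S \ D.fc x, k y ↔ g y) ∧ (∀ y ∈ S, k (D.a1 y) ↔ k y) ∧
      (∀ y ∈ S, k (a2 y) ↔ k y) ∧ (k x ↔ k (D.p3 x)) ∧
      ((∀ y ∈ S \ D.fc x, g (D.a0 y) ↔ g y) → ∀ y ∈ S, k (D.a0 y) ↔ k y) := by
  classical
  let k : Ω → Prop := fun z => if z ∈ D.fc x then g (a2 z) else g z
  have kin : ∀ z ∈ D.fc x, (k z ↔ g (a2 z)) := by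
    intro z hz
    change (if z ∈ D.fc x then g (a2 z) else g z) ↔ _
    rw [if_pos hz]
  have kout : ∀ z, z ∉ D.fc x → (k z ↔ g z) := by
    intro z hz
    change (if z ∈ D.fc x then g (a2 z) else g z) ↔ _
    rw [if_neg hz]
  have gk : ∀ z ∈ D.fc x, (g (a2 (kp D x z)) ↔ g (a2 z)) := by
    intro z hz
    rw [← caN m hx hN hz]
    exact g2 _ (out m hx hN hz)
  have hp := par m hx hN hv g g1 g2
  have g03 : g (a2 (D.p3 x)) ↔ g (a2 x) := by
    have := gk x (D.fc0 x)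
    rwa [kp0] at this
  have g74 : g (a2 (D.p4 x)) ↔ g (a2 (D.p7 x)) := by
    have := gk _ (D.fc7 x)
    rwa [kp7] at this
  have g12 : g (a2 (D.p2 x)) ↔ g (a2 (D.p1 x)) := by
    have := gk _ (D.fc1 x)
    rwa [kp1] at this
  have g56 : g (a2 (D.p6 x)) ↔ g (a2 (D.p5 x)) := by
    have := gk _ (D.fc5 x)
    rwa [kp5] at this
  refine ⟨k, fun y hy => kout y hy.2, ?_, ?_, ?_, ?_⟩
  · intro y hy
    by_cases h : y ∈ D.fc x
    · rw [kin _ ((D.mem_fc_a1).2 h), kin _ h]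
      rcases h with h | h | h | h | h | h | h | h
      · rw [h, D.a1_x]
        exact hp.symm
      · rw [h, D.a1_p1]
        exact g12
      · rw [h, D.a1_p2]
        exact g12.symm
      · rw [h, D.a1_p3, g74, g03]
        exact hp.symm
      · rw [h, D.a1_p4, g74, g03]
        exact hp
      · rw [h, D.a1_p5]
        exact g56
      · rw [h, D.a1_p6]
        exact g56.symm
      · rw [h, D.a1_p7]
        exact hp
    · rw [kout _ (fun h' => h ((D.mem_fc_a1).1 h')), kout _ h]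
      exact g1 y ⟨hy, h⟩
  · intro y hy
    by_cases h : y ∈ D.fc x
    · rw [kin _ h, kout _ (hN y h)]
    · rw [kout _ h]
      rcases cs m hx hN ⟨hy, h⟩ with ⟨h3, h4, h5⟩ | ⟨z, hz, h3, h4, h5⟩
      · rw [kout _ h3, ← h5]
        exact g2 y ⟨hy, h⟩
      · rw [h4, kin _ hz, ← h3]
  · rw [kin _ (D.fc0 x), kin _ (D.fc3 x)]
    exact g03.symm
  · intro g0 y hy
    by_cases h : y ∈ D.fc x
    · rw [kin _ ((D.mem_fc_a0).2 h), kin _ h, m.c2 y hy]
      exact g0 _ (out m hx hN h)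
    · rw [kout _ (fun h' => h ((D.mem_fc_a0).1 h')), kout _ h]
      exact g0 y ⟨hy, h⟩

end

end KQ_CN

open KQ_CN in
theorem t_CN : S_CN := by
  classical
  intro Ω V _ D S a2 v x m hx hv hN
  refine
    { s0 := fun y hy => out_a0 m.s0 hy
      s1 := fun y hy => out_a1 m.s1 hy
      s2 := ?_
      e2 := fun y hy => ca_ca m hx hN hy
      n2 := fun y hy => ca_ne m hx hN hy
      c2 := ?_
      v1 := fun y hy => cv_congr (m.v1 y hy.1)
      v2 := ?_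
      orb := ?_
      conn := ?_ }
  · intro y hy
    rcases cs m hx hN hy with ⟨h3, h4, h5⟩ | ⟨z, hz, h3, h4, h5⟩
    · rw [h5]
      exact h4
    · rw [h5]
      exact out m hx hN (kp_mem D x hz)
  · intro y hy
    rcases cs m hx hN hy with ⟨h3, h4, h5⟩ | ⟨z, hz, h3, h4, h5⟩
    · rw [h5]
      have h6 : a2 (D.a0 y) ∉ D.fc x := by
        rw [m.c2 y hy.1]
        exact fun h => h3 ((D.mem_fc_a0).1 h)
      rw [ca_out D a2 x h6, m.c2 y hy.1]
    · rw [h5, h3, ← m.c2 z (m.fcS hx hz), caN m hx hN ((D.mem_fc_a0).2 hz), kp_a0 D x hz,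
        m.c2 _ (m.fcS hx (kp_mem D x hz))]
  · intro y hy
    rcases cs m hx hN hy with ⟨h3, h4, h5⟩ | ⟨z, hz, h3, h4, h5⟩
    · rw [h5]
      exact cv_congr (m.v2 y hy.1)
    · rw [h5, h3, cv_congr (m.v2 _ (m.fcS hx (kp_mem D x hz))), cv_congr (m.v2 z (m.fcS hx hz)),
        cv_iff]
      rcases hz with hz | hz | hz | hz | hz | hz | hz | hz
      · rw [hz, kp0]
        exact Or.inr ⟨Or.inr rfl, Or.inl rfl⟩
      · rw [hz, kp1]
        exact Or.inl (m.v21 hx)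
      · rw [hz, kp2]
        exact Or.inl (m.v21 hx).symm
      · rw [hz, kp3]
        exact Or.inr ⟨Or.inl rfl, Or.inr rfl⟩
      · rw [hz, kp4]
        exact Or.inr ⟨Or.inl (m.v7 hx), Or.inr (m.v43 hx)⟩
      · rw [hz, kp5]
        exact Or.inl (m.v56 hx).symm
      · rw [hz, kp6]
        exact Or.inl (m.v56 hx)
      · rw [hz, kp7]
        exact Or.inr ⟨Or.inr (m.v43 hx), Or.inl (m.v7 hx)⟩
  · intro g g1 g2 y hy z hz hyz hg
    obtain ⟨k, k0, k1, k2, k3, -⟩ := ext m hx hN hv g g1 g2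
    rw [← k0 z hz]
    rw [← k0 y hy] at hg
    have key : ∀ y ∈ S, ∀ z ∈ S, v y = v z → k y → k z := m.orb k k1 k2
    rcases (cv_iff y z).1 hyz with h | ⟨h1, h2⟩
    · exact key y hy.1 z hz.1 h hg
    · have h3 : D.p3 x ∈ S := m.fcS hx (D.fc3 x)
      have h4 : k x := by
        rcases h1 with h1 | h1
        · exact key y hy.1 x hx h1 hg
        · exact k3.2 (key y hy.1 _ h3 h1 hg)
      rcases h2 with h2 | h2
      · exact key x hx z hz.1 h2.symm h4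
      · exact key _ h3 z hz.1 h2.symm (k3.1 h4)
  · intro g g0 g1 g2 y hy z hz hg
    obtain ⟨k, k0, k1, k2, k3, k4⟩ := ext m hx hN hv g g1 g2
    rw [← k0 z hz]
    rw [← k0 y hy] at hg
    exact m.conn k (k4 g0) k1 k2 y hy.1 z hz.1 hg

end KQ
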