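import Pool.Agent.KQ.St

/-!
# EV and ZE: parity of the numbers of free corners and the pigeonhole on one side
-/

set_option autoImplicit false

namespace KQ

namespace KQ_EZ

variable {Ω V : Type}

/-- a set with a fixed point free involution has an even number of elements -/
theorem even_ncard [Finite Ω] (W : Set Ω) (f : Ω → Ω) (h1 : ∀ y ∈ W, f y ∈ W)
    (h2 : ∀ y ∈ W, f (f y) = y) (h3 : ∀ y ∈ W, f y ≠ y) : Even W.ncard := by
  classical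
  haveI : Fintype Ω := Fintype.ofFinite Ω
  rw [Set.ncard_eq_toFinset_card']
  have h := Finset.sum_involution (s := W.toFinset) (f := fun _ => (1 : ZMod 2))
    (fun y _ => f y) (fun _ _ => by decide)
    (fun y hy _ => h3 y (Set.mem_toFinset.1 hy))
    (fun y hy => Set.mem_toFinset.2 (h1 y (Set.mem_toFinset.1 hy)))
    (fun y hy => h2 y (Set.mem_toFinset.1 hy))
  rw [Finset.sum_const, nsmul_eq_mul, mul_one] at h
  rw [even_iff_two_dvd]
  exact (ZMod.natCast_eq_zero_iff _ 2).1 h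

theorem cnt_even [Finite Ω] {D : Oct Ω} {S : Set Ω} {a2 : Ω → Ω} {v : Ω → V} {x : Ω}
    (m : Mp D S a2 v) (A : Set Ω) (u : V) : Even (cnt (S \ D.fc x) v (D.F A) u) := by
  unfold cnt
  refine even_ncard _ D.a1 ?_ ?_ ?_
  · rintro y ⟨h1, h2, h3⟩
    refine ⟨out_a1 m.s1 h1, ?_, (D.F_a1 y A).2 h3⟩
    rw [m.v1 y h1.1, h2]
  · intro y _
    exact D.e1 y
  · intro y _
    exact D.n1 y

end KQ_EZ

theorem t_EV : S_EV := by
  intro Ω V _ D S a2 v A x m hx hv hy h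
  obtain ⟨y, hy, hyv⟩ := hy
  have h1 := h.deg y hy
  rw [cv_v hyv, cnt_merge _ _ hv] at h1
  have h2 := KQ_EZ.cnt_even (x := x) m A (v x)
  have h3 := KQ_EZ.cnt_even (x := x) m A (v (D.p3 x))
  obtain ⟨a, ha⟩ := h2
  obtain ⟨b, hb⟩ := h3
  rw [ha, hb] at h1 ⊢
  omega

theorem t_ZE : S_ZE := by
  intro Ω V _ D S a2 v A x u e1 e2 m hx h he hu hg hc
  by_contra hcon
  push Not at hcon
  obtain ⟨n1, n2⟩ := hcon
  have hz : ∀ y ∈ S \ D.fc x, v y = u → y ∈ A ∨ D.a1 y ∈ A := by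
    intro y hy hyu
    by_contra hF
    push Not at hF
    unfold cnt at hc
    rw [Set.ncard_eq_zero (Set.toFinite _)] at hc
    have : y ∈ ({y | y ∈ S \ D.fc x ∧ v y = u ∧ D.F A y} : Set Ω) := ⟨hy, hyu, hF.1, hF.2⟩
    rw [hc] at this
    exact this
  have k1 : ({y | y ∈ S \ D.fc x ∧ v y = u ∧ y ∉ A} : Set Ω).ncard ≤
      ({y | y ∈ S \ D.fc x ∧ v y = u ∧ y ∈ A} : Set Ω).ncard := by
    refine Set.ncard_le_ncard_of_injOn D.a1 ?_ ?_ (Set.toFinite _)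
    · rintro y ⟨h1, h2, h3⟩
      refine ⟨out_a1 m.s1 h1, ?_, ?_⟩
      · rw [m.v1 y h1.1, h2]
      · exact (hz y h1 h2).resolve_left h3
    · intro y _ z _ hyz
      have := congrArg D.a1 hyz
      simpa only [D.e1] using this
  have k2 : ({y | y ∈ S \ D.fc x ∧ v y = u ∧ y ∈ A} : Set Ω).ncard ≤
      (({y | y ∈ S \ D.fc x ∧ v y = u ∧ y ∉ A} : Set Ω) \ {e1}).ncard := by
    refine Set.ncard_le_ncard_of_injOn (ca D a2 x) ?_ ?_ (Set.toFinite _)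
    · rintro y ⟨h1, h2, h3⟩
      obtain ⟨g1, g2, g3, g4⟩ := hg y h1 h2 (fun e => n1 (e ▸ h3)) (fun e => n2 (e ▸ h3))
      exact ⟨⟨g1, g2, h.na2 y h3⟩, g3⟩
    · rintro y ⟨h1, h2, h3⟩ z ⟨i1, i2, i3⟩ hyz
      obtain ⟨_, _, _, g4⟩ := hg y h1 h2 (fun e => n1 (e ▸ h3)) (fun e => n2 (e ▸ h3))
      obtain ⟨_, _, _, g5⟩ := hg z i1 i2 (fun e => n1 (e ▸ i3)) (fun e => n2 (e ▸ i3))
      rw [← g4, ← g5, hyz]
  have k3 : (({y | y ∈ S \ D.fc x ∧ v y = u ∧ y ∉ A} : Set Ω) \ {e1}).ncard <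
      ({y | y ∈ S \ D.fc x ∧ v y = u ∧ y ∉ A} : Set Ω).ncard :=
    Set.ncard_diff_singleton_lt_of_mem ⟨he, hu, n1⟩ (Set.toFinite _)
  omega

end KQ
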