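import Pool.Agent.KQ.St

/-!
# FI: there is a contractible face
-/

set_option autoImplicit false

namespace KQ

variable {Ω V : Type}

namespace KQ_FI

variable {D : Oct Ω} {S : Set Ω} {a2 : Ω → Ω} {v : Ω → V} {T : Set Ω} {x : Ω}

/-- five distinct flags of `T` with one label: impossible -/
theorem five [Finite Ω] (o : Ori D S a2 v T) {q1 q2 q3 q4 q5 : Ω}
    (s1 : q1 ∈ S) (s2 : q2 ∈ S) (s3 : q3 ∈ S) (s4 : q4 ∈ S) (s5 : q5 ∈ S)
    (t1 : q1 ∈ T) (t2 : q2 ∈ T) (t3 : q3 ∈ T) (t4 : q4 ∈ T) (t5 : q5 ∈ T)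
    (l2 : v q2 = v q1) (l3 : v q3 = v q1) (l4 : v q4 = v q1) (l5 : v q5 = v q1)
    (n12 : q1 ≠ q2) (n13 : q1 ≠ q3) (n14 : q1 ≠ q4) (n15 : q1 ≠ q5)
    (n23 : q2 ≠ q3) (n24 : q2 ≠ q4) (n25 : q2 ≠ q5)
    (n34 : q3 ≠ q4) (n35 : q3 ≠ q5) (n45 : q4 ≠ q5) : False := by
  have h : {y | y ∈ S ∧ v y = v q1 ∧ y ∈ T}.ncard = 4 := o.deg q1 s1
  have hsub : ({q1, q2, q3, q4, q5} : Set Ω) ⊆ {y | y ∈ S ∧ v y = v q1 ∧ y ∈ T} := by
    intro z hz
    simp only [Set.mem_insert_iff, Set.mem_singleton_iff] at hz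
    rcases hz with rfl | rfl | rfl | rfl | rfl
    · exact ⟨s1, rfl, t1⟩
    · exact ⟨s2, l2, t2⟩
    · exact ⟨s3, l3, t3⟩
    · exact ⟨s4, l4, t4⟩
    · exact ⟨s5, l5, t5⟩
  have h1 := Set.ncard_le_ncard hsub (Set.toFinite _)
  rw [h] at h1
  rw [Set.ncard_insert_of_notMem, Set.ncard_insert_of_notMem, Set.ncard_insert_of_notMem,
    Set.ncard_insert_of_notMem, Set.ncard_singleton] at h1
  · omega
  · simpa using n45
  · simp only [Set.mem_insert_iff, Set.mem_singleton_iff, not_or]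
    exact ⟨n34, n35⟩
  · simp only [Set.mem_insert_iff, Set.mem_singleton_iff, not_or]
    exact ⟨n23, n24, n25⟩
  · simp only [Set.mem_insert_iff, Set.mem_singleton_iff, not_or]
    exact ⟨n12, n13, n14, n15⟩

/-- no vertex of degree one -/
theorem deg1 [Finite Ω] (m : Mp D S a2 v) (o : Ori D S a2 v T) (hx : x ∈ S) :
    a2 x ≠ D.p7 x := by
  intro h
  have h7 : D.p7 x ∈ S := m.fcS hx (D.fc7 x)
  have hb : a2 (D.p7 x) = x := by rw [← h]; exact m.e2 x hx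
  have key : ∀ y ∈ S, v x = v y → (y = x ∨ y = D.p7 x) := by
    intro y hy hv
    refine m.orb (fun y => y = x ∨ y = D.p7 x) ?_ ?_ x hx y hy hv (Or.inl rfl)
    · intro z hz
      constructor
      · rintro (h1 | h1)
        · right
          rw [← D.e1 z, h1]; rfl
        · left
          rw [← D.e1 z, h1, D.a1_p7]
      · rintro (rfl | rfl)
        · right; rfl
        · left; rw [D.a1_p7]
    · intro z hz
      constructor
      · rintro (h1 | h1)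
        · right
          rw [← m.e2 z hz, h1, h]
        · left
          rw [← m.e2 z hz, h1, hb]
      · rintro (rfl | rfl)
        · right; exact h
        · left; exact hb
  have h4 : {y | y ∈ S ∧ v y = v x ∧ y ∈ T}.ncard = 4 := o.deg x hx
  have hsub : {y | y ∈ S ∧ v y = v x ∧ y ∈ T} ⊆ ({x, D.p7 x} : Set Ω) := by
    rintro z ⟨hz, hv, _⟩
    exact key z hz hv.symm
  have h1 := Set.ncard_le_ncard hsub (Set.toFinite _)
  have h2 := Set.ncard_insert_le x {D.p7 x}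
  rw [Set.ncard_singleton] at h2
  omega

/-- an edge is not glued to itself -/
theorem ne1 (o : Ori D S a2 v T) (hx : x ∈ S) : a2 x ≠ D.p1 x := by
  intro h
  have h1 := o.t2 x hx
  have h2 := o.t0 x hx
  have h3 : D.a0 x = a2 x := h.symm
  rw [h3, h1] at h2
  by_cases hT : x ∈ T
  · exact (h2.1 hT) hT
  · exact hT (h2.2 hT)

/-- the possible partners inside the face -/
theorem part [Finite Ω] (m : Mp D S a2 v) (o : Ori D S a2 v T) (hx : x ∈ S)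
    (hv : v x ≠ v (D.p3 x)) (h : a2 x ∈ D.fc x) : a2 x = D.p5 x ∨ a2 x = D.p6 x := by
  have e := m.v2 x hx
  rcases h with h | h | h | h | h | h | h | h
  · exact absurd h (m.n2 x hx)
  · exact absurd h (ne1 o hx)
  · exfalso
    have h1 : a2 (D.p1 x) = D.p3 x := by
      have := m.c2 x hx
      rw [h, D.a0_p2] at this
      exact this
    have h2 := m.v2 _ (m.fcS hx (D.fc1 x))
    rw [h1] at h2
    rw [h, m.v21 hx] at e
    exact hv (e.symm.trans h2.symm)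
  · exfalso
    rw [h] at e
    exact hv e.symm
  · exfalso
    rw [h, m.v43 hx] at e
    exact hv e.symm
  · exact Or.inl h
  · exact Or.inr h
  · exact absurd h (deg1 m o hx)

theorem a2a0 (m : Mp D S a2 v) (hx : x ∈ S) : a2 (D.p1 x) = D.a0 (a2 x) := m.c2 x hx

theorem out1 (m : Mp D S a2 v) {y : Ω} (hy : y ∈ S) (h : a2 y ∉ D.fc x) :
    a2 (D.p1 y) ∉ D.fc x := by
  rw [a2a0 m hy, D.mem_fc_a0]
  exact h

/-- a side at `v` glued inside the face -/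
theorem glued [Finite Ω] (m : Mp D S a2 v) (o : Ori D S a2 v T) (hx : x ∈ S)
    (hv : v x ≠ v (D.p3 x)) (h : a2 x ∈ D.fc x) : TD1 D a2 x ∨ TD2 D a2 x := by
  have f := m.fcS hx
  have s1 := f (D.fc1 x)
  have s3 := f (D.fc3 x)
  have s4 := f (D.fc4 x)
  have s7 := f (D.fc7 x)
  have l7 := m.v7 hx
  have l2 := m.v21 hx
  have l4 := m.v43 hx
  have l5 := m.v56 hx
  have hv7 : v (D.p7 x) ≠ v (D.p3 (D.p7 x)) := by
    rw [D.p3_p7, l7, l4]; exact hv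
  have hv3 : v (D.p3 x) ≠ v (D.p3 (D.p3 x)) := by
    rw [D.p3_p3]; exact hv.symm
  have hv4 : v (D.p4 x) ≠ v (D.p3 (D.p4 x)) := by
    rw [D.p3_p4, l4, l7]; exact hv.symm
  have q7 := part m o s7 hv7
  have q3 := part m o s3 hv3
  have q4 := part m o s4 hv4
  simp only [D.fc_p7, D.p5_p7, D.p6_p7] at q7
  simp only [D.fc_p3, D.p5_p3, D.p6_p3] at q3
  simp only [D.fc_p4, D.p5_p4, D.p6_p4] at q4
  rcases part m o hx hv h with h | h
  · -- opposite sides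
    right
    have h1 : a2 (D.p1 x) = D.p4 x := by rw [a2a0 m hx, h, D.a0_p5]
    have g3 : a2 (D.p3 x) ∉ D.fc x := by
      intro hh
      rcases q3 hh with e | e
      · have e' := m.v2 _ s3
        rw [e, ← l5, ← h, m.v2 x hx] at e'
        exact hv e'
      · exact D.ne3_0 x (m.inj s3 hx (e.trans h.symm))
    have g7 : a2 (D.p7 x) ∉ D.fc x := by
      intro hh
      rcases q7 hh with e | e
      · have e' := m.v2 _ s7
        rw [e, l2, ← m.v2 _ s1, h1, l4, l7] at e'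
        exact hv e'.symm
      · have e' := m.e2 _ s7
        rw [e, h1] at e'
        exact D.ne4_7 x e'
    have g2 : a2 (D.p2 x) ∉ D.fc x := by
      have := out1 m s3 g3
      rwa [D.p1_p3] at this
    have g6 : a2 (D.p6 x) ∉ D.fc x := by
      have := out1 m s7 g7
      rwa [D.p1_p7] at this
    exact ⟨h, h1, g2, g3, g6, g7⟩
  · left
    have h1 : a2 (D.p1 x) = D.p7 x := by rw [a2a0 m hx, h, D.a0_p6]
    have g3 : a2 (D.p3 x) ∉ D.fc x := by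
      intro hh
      rcases q3 hh with e | e
      · exact D.ne3_0 x (m.inj s3 hx (e.trans h.symm))
      · have e' := m.v2 _ s3
        rw [e, l5, ← h, m.v2 x hx] at e'
        exact hv e'
    have g4 : a2 (D.p4 x) ∉ D.fc x := by
      intro hh
      rcases q4 hh with e | e
      · have e' := m.e2 _ s4
        rw [e, h1] at e'
        exact D.ne7_4 x e'
      · have e' := m.v2 _ s4
        rw [e, l2, ← m.v2 _ s1, h1, l7, l4] at e'
        exact hv e'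
    have g2 : a2 (D.p2 x) ∉ D.fc x := by
      have := out1 m s3 g3
      rwa [D.p1_p3] at this
    have g5 : a2 (D.p5 x) ∉ D.fc x := by
      have := out1 m s4 g4
      rwa [D.p1_p4] at this
    exact ⟨h, h1, g2, g3, g4, g5⟩

/-- three flags of `T` with one label in a face of type N -/
theorem three [Finite Ω] (m : Mp D S a2 v) (o : Ori D S a2 v T) (hx : x ∈ S) (tn : TN D a2 x)
    {q1 q2 q3 : Ω} (f1 : q1 ∈ D.fc x) (f2 : q2 ∈ D.fc x) (f3 : q3 ∈ D.fc x)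
    (t1 : q1 ∈ T) (t2 : q2 ∈ T) (t3 : q3 ∈ T) (l2 : v q2 = v q1) (l3 : v q3 = v q1)
    (n12 : q1 ≠ q2) (n13 : q1 ≠ q3) (n23 : q2 ≠ q3) : False := by
  have f := m.fcS hx
  have o1 := tn q1 f1
  have o2 := tn q2 f2
  have ne : ∀ {a b : Ω}, a ∈ D.fc x → b ∉ D.fc x → a ≠ b := by
    rintro a b ha hb rfl
    exact hb ha
  exact five o (f f1) (f f2) (f f3) (m.s2 _ (f f1)) (m.s2 _ (f f2)) t1 t2 t3
    ((o.t2 _ (f f1)).2 t1) ((o.t2 _ (f f2)).2 t2) l2 l3 (m.v2 _ (f f1))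
    ((m.v2 _ (f f2)).trans l2) n12 n13 (ne f1 o1) (ne f1 o2) n23 (ne f2 o1) (ne f2 o2)
    (ne f3 o1) (ne f3 o2) (fun h => n12 (m.inj (f f1) (f f2) h))

/-- cases of the orientation of the four sides -/
theorem sides {X P2 P4 P6 : Prop} (c1 : ¬ (X ∧ ¬ P6)) (c2 : ¬ (¬ P2 ∧ P4))
    (c3 : ¬ (X ∧ P2 ∧ P4 ∧ P6)) (c4 : ¬ (¬ P6 ∧ ¬ P4 ∧ ¬ P2 ∧ ¬ X)) (d1 : ¬ (¬ X ∧ P2)) :
    ¬ P4 ∧ P6 := by
  by_cases hX : X
  · have h6 : P6 := by
      by_contra h
      exact c1 ⟨hX, h⟩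
    refine ⟨fun h4 => ?_, h6⟩
    have h2 : P2 := by
      by_contra h
      exact c2 ⟨h, h4⟩
    exact c3 ⟨hX, h2, h4, h6⟩
  · have h2 : ¬ P2 := fun h => d1 ⟨hX, h⟩
    have h4 : ¬ P4 := fun h => c2 ⟨h2, h⟩
    refine ⟨h4, ?_⟩
    by_contra h
    exact c4 ⟨h, h4, h2, hX⟩

end KQ_FI

open KQ_FI in
theorem t_FI : S_FI := by
  intro Ω V _ D S a2 v T x m o hx hv
  have f := m.fcS hx
  have s1 := f (D.fc1 x)
  have s2 := f (D.fc2 x)
  have s3 := f (D.fc3 x)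
  have s4 := f (D.fc4 x)
  have s5 := f (D.fc5 x)
  have s6 := f (D.fc6 x)
  have s7 := f (D.fc7 x)
  have l7 := m.v7 hx
  have l2 := m.v21 hx
  have l4 := m.v43 hx
  have l5 := m.v56 hx
  have hv7 : v (D.p7 x) ≠ v (D.p3 (D.p7 x)) := by
    rw [D.p3_p7, l7, l4]; exact hv
  have hv3 : v (D.p3 x) ≠ v (D.p3 (D.p3 x)) := by
    rw [D.p3_p3]; exact hv.symm
  have hv4 : v (D.p4 x) ≠ v (D.p3 (D.p4 x)) := by
    rw [D.p3_p4, l4, l7]; exact hv.symm
  by_cases tn : TN D a2 x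
  · have tn1 : TN D a2 (D.p1 x) := by unfold TN; rw [D.fc_p1]; exact tn
    have tn3 : TN D a2 (D.p3 x) := by unfold TN; rw [D.fc_p3]; exact tn
    have tn6 : TN D a2 (D.p6 x) := by unfold TN; rw [D.fc_p6]; exact tn
    have tn7 : TN D a2 (D.p7 x) := by unfold TN; rw [D.fc_p7]; exact tn
    -- orientation of the sides
    have T1 : D.p1 x ∈ T ↔ x ∉ T := o.t0 x hx
    have T3 : D.p3 x ∈ T ↔ D.p2 x ∉ T := by
      have := o.t0 _ s2
      rwa [D.a0_p2] at this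
    have T5 : D.p5 x ∈ T ↔ D.p4 x ∉ T := by
      have := o.t0 _ s4
      rwa [D.a0_p4] at this
    have T7 : D.p7 x ∈ T ↔ D.p6 x ∉ T := by
      have := o.t0 _ s6
      rwa [D.a0_p6] at this
    by_cases c1 : x ∈ T ∧ D.p7 x ∈ T
    · exact ⟨x, hx, hv, Or.inr (Or.inr ⟨tn, Or.inl c1⟩)⟩
    by_cases c2 : D.p3 x ∈ T ∧ D.p4 x ∈ T
    · refine ⟨D.p3 x, s3, hv3, Or.inr (Or.inr ⟨tn3, Or.inl ?_⟩)⟩
      unfold Src
      rw [D.p7_p3]
      exact c2
    by_cases c3 : x ∈ T ∧ D.p2 x ∈ T ∧ D.p4 x ∈ T ∧ D.p6 x ∈ T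
    · exact ⟨x, hx, hv, Or.inr (Or.inr ⟨tn, Or.inr (Or.inl c3)⟩)⟩
    by_cases c4 : D.p7 x ∈ T ∧ D.p5 x ∈ T ∧ D.p3 x ∈ T ∧ D.p1 x ∈ T
    · refine ⟨D.p7 x, s7, hv7, Or.inr (Or.inr ⟨tn7, Or.inr (Or.inl ?_)⟩)⟩
      unfold Cyc
      rw [D.p2_p7, D.p4_p7, D.p6_p7]
      exact c4
    have c5 : ¬ (D.p1 x ∈ T ∧ D.p2 x ∈ T) → D.p5 x ∈ T ∧ D.p6 x ∈ T := by
      intro d1
      rw [T7] at c1
      rw [T3] at c2
      rw [T1, T3, T5, T7] at c4
      rw [T1] at d1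
      rw [T5]
      exact sides c1 c2 c3 c4 d1
    by_cases lab : v (D.p1 x) = v (D.p6 x)
    · -- `a = b`
      have lb2 : v (D.p2 x) = v (D.p1 x) := l2
      have lb6 : v (D.p6 x) = v (D.p1 x) := lab.symm
      have lb5 : v (D.p5 x) = v (D.p1 x) := l5.trans lab.symm
      by_cases d1 : D.p1 x ∈ T ∧ D.p2 x ∈ T
      · by_cases d5 : D.p5 x ∈ T
        · exact (three m o hx tn (D.fc1 x) (D.fc2 x) (D.fc5 x) d1.1 d1.2 d5 lb2 lb5
            (D.ne1_2 x) (D.ne1_5 x) (D.ne2_5 x)).elim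
        by_cases d6 : D.p6 x ∈ T
        · exact (three m o hx tn (D.fc1 x) (D.fc2 x) (D.fc6 x) d1.1 d1.2 d6 lb2 lb6
            (D.ne1_2 x) (D.ne1_6 x) (D.ne2_6 x)).elim
        refine ⟨x, hx, hv, Or.inr (Or.inr ⟨tn, Or.inr (Or.inr ?_)⟩)⟩
        exact ⟨lab, d1.1, d1.2, T7.2 d6, Classical.not_not.1 (fun h => d5 (T5.2 h))⟩
      · have d2 := c5 d1
        by_cases d5 : D.p1 x ∈ T
        · exact (three m o hx tn (D.fc1 x) (D.fc5 x) (D.fc6 x) d5 d2.1 d2.2 lb5 lb6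
            (D.ne1_5 x) (D.ne1_6 x) (D.ne5_6 x)).elim
        by_cases d6 : D.p2 x ∈ T
        · exact (three m o hx tn (D.fc2 x) (D.fc5 x) (D.fc6 x) d6 d2.1 d2.2 (lb5.trans lb2.symm)
            (lb6.trans lb2.symm) (D.ne2_5 x) (D.ne2_6 x) (D.ne5_6 x)).elim
        refine ⟨D.p7 x, s7, hv7, Or.inr (Or.inr ⟨tn7, Or.inr (Or.inr ?_)⟩)⟩
        unfold Spc
        rw [D.p1_p7, D.p6_p7, D.p2_p7, D.p7_p7, D.p4_p7]
        exact ⟨lab.symm, d2.2, d2.1, Classical.not_not.1 (fun h => d5 (T1.2 h)), T3.2 d6⟩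
    · by_cases d1 : D.p1 x ∈ T ∧ D.p2 x ∈ T
      · refine ⟨D.p1 x, s1, ?_, Or.inr (Or.inr ⟨tn1, Or.inl ?_⟩)⟩
        · rw [D.p3_p1]; exact lab
        · unfold Src
          rw [D.p7_p1]
          exact d1
      · refine ⟨D.p6 x, s6, ?_, Or.inr (Or.inr ⟨tn6, Or.inl ?_⟩)⟩
        · rw [D.p3_p6]; exact fun h => lab h.symm
        · unfold Src
          rw [D.p7_p6]
          exact ⟨(c5 d1).2, (c5 d1).1⟩
  · -- some side is glued inside the face
    have hz : a2 x ∈ D.fc x ∨ a2 (D.p3 x) ∈ D.fc x ∨ a2 (D.p4 x) ∈ D.fc x ∨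
        a2 (D.p7 x) ∈ D.fc x := by
      by_contra hc
      push Not at hc
      obtain ⟨h0, h3, h4, h7⟩ := hc
      apply tn
      have g1 := out1 m hx h0
      have g2 : a2 (D.p2 x) ∉ D.fc x := by
        have := out1 m s3 h3
        rwa [D.p1_p3] at this
      have g5 : a2 (D.p5 x) ∉ D.fc x := by
        have := out1 m s4 h4
        rwa [D.p1_p4] at this
      have g6 : a2 (D.p6 x) ∉ D.fc x := by
        have := out1 m s7 h7
        rwa [D.p1_p7] at this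
      intro z hz
      rcases hz with rfl | rfl | rfl | rfl | rfl | rfl | rfl | rfl <;> assumption
    have fin : ∀ y ∈ S, v y ≠ v (D.p3 y) → a2 y ∈ D.fc y →
        ∃ y ∈ S, v y ≠ v (D.p3 y) ∧ (TD1 D a2 y ∨ TD2 D a2 y ∨
          (TN D a2 y ∧ (Src D y T ∨ Cyc D y T ∨ Spc D v y T))) := by
      intro y hy hvy hg
      rcases glued m o hy hvy hg with h | h
      · exact ⟨y, hy, hvy, Or.inl h⟩
      · exact ⟨y, hy, hvy, Or.inr (Or.inl h)⟩
    rcases hz with h | h | h | h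
    · exact fin x hx hv h
    · exact fin _ s3 hv3 (by rw [D.fc_p3]; exact h)
    · exact fin _ s4 hv4 (by rw [D.fc_p4]; exact h)
    · exact fin _ s7 hv7 (by rw [D.fc_p7]; exact h)

end KQ
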