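import Pool.Agent.KQ.St

/-!
# LA1: lift, type D1, no free corner at the merged vertex
-/

set_option autoImplicit false

namespace KQ

namespace KQ_LA

variable {Ω V : Type}

/-- the new set -/
def nA (D : Oct Ω) (a2 : Ω → Ω) (x : Ω) (A : Set Ω) : Set Ω :=
  {y | (y ∈ A ∧ y ≠ a2 (D.p5 x)) ∨ y = a2 (D.p4 x) ∨ y = D.p5 x ∨ y = D.p1 x}

variable {D : Oct Ω} {S : Set Ω} {a2 : Ω → Ω} {v : Ω → V} {x : Ω} {A : Set Ω}

/-- facts used in the proof -/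
structure Fx (D : Oct Ω) (S : Set Ω) (a2 : Ω → Ω) (v : Ω → V) (x : Ω) (A : Set Ω) : Prop where
  m : Mp D S a2 v
  hx : x ∈ S
  hv : v x ≠ v (D.p3 x)
  h : TD1 D a2 x
  act : Act D (S \ D.fc x) (ca D a2 x) (cv D v x) A
  z : cnt (S \ D.fc x) v (D.F A) (v x) = 0
  b : a2 (D.p5 x) ∈ A

namespace Fx

theorem bc (f : Fx D S a2 v x A) : D.a0 (a2 (D.p5 x)) = a2 (D.p4 x) := by
  rw [← f.m.c2 _ (f.m.fcS f.hx (D.fc5 x)), D.a0_p5]

theorem cb (f : Fx D S a2 v x A) : D.a0 (a2 (D.p4 x)) = a2 (D.p5 x) := by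
  rw [← f.bc, D.e0]

theorem bS (f : Fx D S a2 v x A) : a2 (D.p5 x) ∈ S \ D.fc x :=
  ⟨f.m.s2 _ (f.m.fcS f.hx (D.fc5 x)), f.h.2.2.2.2.2⟩

theorem cS (f : Fx D S a2 v x A) : a2 (D.p4 x) ∈ S \ D.fc x :=
  ⟨f.m.s2 _ (f.m.fcS f.hx (D.fc4 x)), f.h.2.2.2.2.1⟩

theorem b1S (f : Fx D S a2 v x A) : D.a1 (a2 (D.p5 x)) ∈ S \ D.fc x := out_a1 f.m.s1 f.bS

theorem c1S (f : Fx D S a2 v x A) : D.a1 (a2 (D.p4 x)) ∈ S \ D.fc x := out_a1 f.m.s1 f.cS

theorem Afc (f : Fx D S a2 v x A) {y : Ω} (hy : y ∈ D.fc x) : y ∉ A := fun h => (f.act.sub h).2 hy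

theorem b1A (f : Fx D S a2 v x A) : D.a1 (a2 (D.p5 x)) ∉ A := f.act.na1 _ f.b

theorem cA (f : Fx D S a2 v x A) : a2 (D.p4 x) ∉ A := by
  have := f.act.u0 _ f.b
  rwa [f.bc] at this

theorem c1A (f : Fx D S a2 v x A) : D.a1 (a2 (D.p4 x)) ∉ A := by
  have := f.act.u2 f.b
  rwa [f.bc] at this

theorem b01A (f : Fx D S a2 v x A) : D.a0 (D.a1 (a2 (D.p5 x))) ∉ A := f.act.u1 _ f.b

theorem c01A (f : Fx D S a2 v x A) : D.a0 (D.a1 (a2 (D.p4 x))) ∉ A := by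
  have := f.act.u3 _ f.b
  rwa [f.bc] at this

theorem bnec (f : Fx D S a2 v x A) : a2 (D.p5 x) ≠ a2 (D.p4 x) := by
  intro h
  have := D.n0 (a2 (D.p4 x))
  rw [f.cb] at this
  exact this h

theorem bne1 (f : Fx D S a2 v x A) : a2 (D.p5 x) ≠ D.a1 (a2 (D.p4 x)) := by
  intro h
  have h1 := D.n01 (a2 (D.p4 x))
  rw [f.cb] at h1
  exact h1 h

theorem b1nec (f : Fx D S a2 v x A) : D.a1 (a2 (D.p5 x)) ≠ a2 (D.p4 x) := by
  intro h
  have h1 := D.n01 (a2 (D.p5 x))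
  rw [f.bc] at h1
  exact h1 h.symm

/-- the four special flags are not in the face -/
theorem not_fc {y z : Ω} (hy : y ∈ S \ D.fc x) (hz : z ∈ D.fc x) : y ≠ z := by
  rintro rfl
  exact hy.2 hz

theorem mem_out (_ : Fx D S a2 v x A) {y : Ω} (hy : y ∉ D.fc x) :
    y ∈ nA D a2 x A ↔ (y ∈ A ∧ y ≠ a2 (D.p5 x)) ∨ y = a2 (D.p4 x) := by
  constructor
  · rintro (h | h | h | h)
    · exact Or.inl h
    · exact Or.inr h
    · exact absurd (by rw [h]; simp) hy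
    · exact absurd (by rw [h]; simp) hy
  · rintro (h | h)
    · exact Or.inl h
    · exact Or.inr (Or.inl h)

theorem mem_in (f : Fx D S a2 v x A) {y : Ω} (hy : y ∈ D.fc x) :
    y ∈ nA D a2 x A ↔ y = D.p5 x ∨ y = D.p1 x := by
  constructor
  · rintro (h | h | h | h)
    · exact absurd h.1 (f.Afc hy)
    · exact absurd (h ▸ hy) f.cS.2
    · exact Or.inl h
    · exact Or.inr h
  · rintro (h | h)
    · exact Or.inr (Or.inr (Or.inl h))
    · exact Or.inr (Or.inr (Or.inr h))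

theorem n0' (f : Fx D S a2 v x A) : x ∉ nA D a2 x A := by
  rw [f.mem_in (D.fc0 x)]; simp
theorem n1' (f : Fx D S a2 v x A) : D.p1 x ∈ nA D a2 x A := by
  rw [f.mem_in (D.fc1 x)]; simp
theorem n2' (f : Fx D S a2 v x A) : D.p2 x ∉ nA D a2 x A := by
  rw [f.mem_in (D.fc2 x)]; simp
theorem n3' (f : Fx D S a2 v x A) : D.p3 x ∉ nA D a2 x A := by
  rw [f.mem_in (D.fc3 x)]; simp
theorem n4' (f : Fx D S a2 v x A) : D.p4 x ∉ nA D a2 x A := by
  rw [f.mem_in (D.fc4 x)]; simp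
theorem n5' (f : Fx D S a2 v x A) : D.p5 x ∈ nA D a2 x A := by
  rw [f.mem_in (D.fc5 x)]; simp
theorem n6' (f : Fx D S a2 v x A) : D.p6 x ∉ nA D a2 x A := by
  rw [f.mem_in (D.fc6 x)]; simp
theorem n7' (f : Fx D S a2 v x A) : D.p7 x ∉ nA D a2 x A := by
  rw [f.mem_in (D.fc7 x)]; simp

theorem nb (f : Fx D S a2 v x A) : a2 (D.p5 x) ∉ nA D a2 x A := by
  rw [f.mem_out f.bS.2]
  rintro (h | h)
  · exact h.2 rfl
  · exact f.bnec h

theorem nb1 (f : Fx D S a2 v x A) : D.a1 (a2 (D.p5 x)) ∉ nA D a2 x A := by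
  rw [f.mem_out f.b1S.2]
  rintro (h | h)
  · exact f.b1A h.1
  · exact f.b1nec h

theorem yc (f : Fx D S a2 v x A) : a2 (D.p4 x) ∈ nA D a2 x A := by
  rw [f.mem_out f.cS.2]
  exact Or.inr rfl

theorem nc1 (f : Fx D S a2 v x A) : D.a1 (a2 (D.p4 x)) ∉ nA D a2 x A := by
  rw [f.mem_out f.c1S.2]
  rintro (h | h)
  · exact f.c1A h.1
  · exact D.n1 _ h

/-! ### labels -/

theorem l6 (f : Fx D S a2 v x A) : v (D.p6 x) = v x := by
  have := f.m.v2 x f.hx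
  rwa [f.h.1] at this
theorem l7 (f : Fx D S a2 v x A) : v (D.p7 x) = v x := f.m.v7 f.hx
theorem l1 (f : Fx D S a2 v x A) : v (D.p1 x) = v x := by
  have := f.m.v2 _ (f.m.fcS f.hx (D.fc1 x))
  rw [f.h.2.1] at this
  rw [← this, f.l7]
theorem l2 (f : Fx D S a2 v x A) : v (D.p2 x) = v x := by rw [f.m.v21 f.hx, f.l1]
theorem l5 (f : Fx D S a2 v x A) : v (D.p5 x) = v x := by rw [f.m.v56 f.hx, f.l6]
theorem l4 (f : Fx D S a2 v x A) : v (D.p4 x) = v (D.p3 x) := f.m.v43 f.hx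
theorem lb (f : Fx D S a2 v x A) : v (a2 (D.p5 x)) = v x := by
  rw [f.m.v2 _ (f.m.fcS f.hx (D.fc5 x)), f.l5]
theorem lb1 (f : Fx D S a2 v x A) : v (D.a1 (a2 (D.p5 x))) = v x := by
  rw [f.m.v1 _ f.bS.1, f.lb]
theorem lc (f : Fx D S a2 v x A) : v (a2 (D.p4 x)) = v (D.p3 x) := by
  rw [f.m.v2 _ (f.m.fcS f.hx (D.fc4 x)), f.l4]
theorem lc1 (f : Fx D S a2 v x A) : v (D.a1 (a2 (D.p4 x))) = v (D.p3 x) := by
  rw [f.m.v1 _ f.cS.1, f.lc]

/-! ### free corners -/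

theorem Fb (f : Fx D S a2 v x A) : D.F (nA D a2 x A) (a2 (D.p5 x)) := ⟨f.nb, f.nb1⟩
theorem Fb1 (f : Fx D S a2 v x A) : D.F (nA D a2 x A) (D.a1 (a2 (D.p5 x))) :=
  (D.F_a1 _ _).2 f.Fb
theorem Fx0 (f : Fx D S a2 v x A) : D.F (nA D a2 x A) x := ⟨f.n0', f.n7'⟩
theorem Fx3 (f : Fx D S a2 v x A) : D.F (nA D a2 x A) (D.p3 x) :=
  ⟨f.n3', by rw [D.a1_p3]; exact f.n4'⟩
theorem oFc (f : Fx D S a2 v x A) : D.F A (a2 (D.p4 x)) := ⟨f.cA, f.c1A⟩

/-- old free corners without the corner `C2` are new free corners -/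
theorem F_new (f : Fx D S a2 v x A) {y : Ω} (hy : y ∈ S \ D.fc x) (h : D.F A y)
    (h1 : y ≠ a2 (D.p4 x)) (h2 : y ≠ D.a1 (a2 (D.p4 x))) : D.F (nA D a2 x A) y := by
  constructor
  · rw [f.mem_out hy.2]
    rintro (h3 | h3)
    · exact h.1 h3.1
    · exact h1 h3
  · rw [f.mem_out (out_a1 f.m.s1 hy).2]
    rintro (h3 | h3)
    · exact h.2 h3.1
    · apply h2
      rw [← h3, D.e1]

theorem F_old (f : Fx D S a2 v x A) {y : Ω} (hy : y ∈ S \ D.fc x) (h : D.F (nA D a2 x A) y)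
    (h1 : y ≠ a2 (D.p5 x)) (h2 : y ≠ D.a1 (a2 (D.p5 x))) : D.F A y := by
  constructor
  · intro h3
    exact h.1 ((f.mem_out hy.2).2 (Or.inl ⟨h3, h1⟩))
  · intro h3
    apply h.2
    rw [f.mem_out (out_a1 f.m.s1 hy).2]
    refine Or.inl ⟨h3, ?_⟩
    intro h4
    apply h2
    rw [← h4, D.e1]

theorem F_ne_c (f : Fx D S a2 v x A) {y : Ω} (h : D.F (nA D a2 x A) y) : y ≠ a2 (D.p4 x) := by
  rintro rfl
  exact h.1 f.yc

theorem F_ne_c1 (f : Fx D S a2 v x A) {y : Ω} (h : D.F (nA D a2 x A) y) :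
    y ≠ D.a1 (a2 (D.p4 x)) := by
  rintro rfl
  apply h.2
  rw [D.e1]
  exact f.yc

/-- the free corners of the face -/
theorem F_in (f : Fx D S a2 v x A) {y : Ω} (hy : y ∈ D.fc x) (h : D.F (nA D a2 x A) y) :
    y = x ∨ y = D.p7 x ∨ y = D.p3 x ∨ y = D.p4 x := by
  rcases hy with rfl | rfl | rfl | rfl | rfl | rfl | rfl | rfl
  · exact Or.inl rfl
  · exact absurd f.n1' h.1
  · exact absurd f.n1' (by have := h.2; rwa [D.a1_p2] at this)
  · exact Or.inr (Or.inr (Or.inl rfl))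
  · exact Or.inr (Or.inr (Or.inr rfl))
  · exact absurd f.n5' h.1
  · exact absurd f.n5' (by have := h.2; rwa [D.a1_p6] at this)
  · exact Or.inr (Or.inl rfl)

/-- no old free corner has label `v x` -/
theorem F_lab [Finite Ω] (f : Fx D S a2 v x A) {y : Ω} (hy : y ∈ S \ D.fc x) (h : D.F A y) :
    v y ≠ v x := by
  intro h1
  have h2 := f.z
  unfold cnt at h2
  rw [Set.ncard_eq_zero (Set.toFinite _)] at h2
  have : y ∈ ({y | y ∈ S \ D.fc x ∧ v y = v x ∧ D.F A y} : Set Ω) := ⟨hy, h1, h⟩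
  rw [h2] at this
  exact this

end Fx

theorem sub' (f : Fx D S a2 v x A) : nA D a2 x A ⊆ S := by
  rintro y (h | h | h | h)
  · exact (f.act.sub h.1).1
  · rw [h]; exact f.cS.1
  · rw [h]; exact f.m.fcS f.hx (D.fc5 x)
  · rw [h]; exact f.m.fcS f.hx (D.fc1 x)

theorem na1' (f : Fx D S a2 v x A) : ∀ y ∈ nA D a2 x A, D.a1 y ∉ nA D a2 x A := by
  rintro y (h | h | h | h)
  · have hy := f.act.sub h.1
    rw [f.mem_out (out_a1 f.m.s1 hy).2]
    rintro (h3 | h3)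
    · exact f.act.na1 _ h.1 h3.1
    · apply f.c1A
      rw [← h3, D.e1]; exact h.1
  · rw [h]; exact f.nc1
  · rw [h, D.a1_p5]; exact f.n6'
  · rw [h, D.a1_p1]; exact f.n2'

theorem na2' (f : Fx D S a2 v x A) : ∀ y ∈ nA D a2 x A, a2 y ∉ nA D a2 x A := by
  rintro y (h | h | h | h)
  · have hy := f.act.sub h.1
    rintro (h3 | h3 | h3 | h3)
    · have h4 := (f.act.sub h3.1).2
      have h5 := ca_out D a2 x h4
      apply f.act.na2 _ h.1
      rw [h5]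
      exact h3.1
    · have := f.m.inj hy.1 (f.m.fcS f.hx (D.fc4 x)) h3
      exact hy.2 (by rw [this]; simp)
    · apply h.2
      rw [← h3, f.m.e2 y hy.1]
    · apply hy.2
      have h4 := f.m.e2 y hy.1
      rw [← h4, h3, f.h.2.1]
      simp
  · rw [h, f.m.e2 _ (f.m.fcS f.hx (D.fc4 x))]; exact f.n4'
  · rw [h]; exact f.nb
  · rw [h, f.h.2.1]; exact f.n7'

theorem u0' (f : Fx D S a2 v x A) : ∀ y ∈ nA D a2 x A, D.a0 y ∉ nA D a2 x A := by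
  rintro y (h | h | h | h)
  · have hy := f.act.sub h.1
    rw [f.mem_out (out_a0 f.m.s0 hy).2]
    rintro (h3 | h3)
    · exact f.act.u0 _ h.1 h3.1
    · apply h.2
      rw [← f.cb, ← h3, D.e0]
  · rw [h, f.cb]; exact f.nb
  · rw [h, D.a0_p5]; exact f.n4'
  · rw [h, D.a0_p1]; exact f.n0'

theorem u1' (f : Fx D S a2 v x A) : ∀ y ∈ nA D a2 x A, D.a0 (D.a1 y) ∉ nA D a2 x A := by
  rintro y (h | h | h | h)
  · have hy := f.act.sub h.1
    rw [f.mem_out (out_a0 f.m.s0 (out_a1 f.m.s1 hy)).2]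
    rintro (h3 | h3)
    · exact f.act.u1 _ h.1 h3.1
    · apply f.b1A
      rw [← f.cb, ← h3, D.e0, D.e1]
      exact h.1
  · rw [h, f.mem_out (out_a0 f.m.s0 f.c1S).2]
    rintro (h3 | h3)
    · exact f.c01A h3.1
    · apply D.n01 (a2 (D.p4 x))
      have := congrArg D.a0 h3
      rw [D.e0] at this
      exact this.symm
  · rw [h, D.a1_p5, D.a0_p6]; exact f.n7'
  · rw [h, D.a1_p1, D.a0_p2]; exact f.n3'

theorem u3' (f : Fx D S a2 v x A) :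
    ∀ y ∈ nA D a2 x A, D.a0 (D.a1 (D.a0 y)) ∉ nA D a2 x A := by
  rintro y (h | h | h | h)
  · have hy := f.act.sub h.1
    rw [f.mem_out (out_a0 f.m.s0 (out_a1 f.m.s1 (out_a0 f.m.s0 hy))).2]
    rintro (h3 | h3)
    · exact f.act.u3 _ h.1 h3.1
    · apply f.b01A
      rw [← f.cb, ← h3, D.e0, D.e1, D.e0]
      exact h.1
  · rw [h, f.cb, f.mem_out (out_a0 f.m.s0 f.b1S).2]
    rintro (h3 | h3)
    · exact f.b01A h3.1
    · rw [← f.bc] at h3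
      have := congrArg D.a0 h3
      rw [D.e0, D.e0] at this
      exact D.n1 _ this
  · rw [h, D.a0_p5, D.a1_p4, D.a0_p3]; exact f.n2'
  · rw [h, D.a0_p1, D.a1_x, D.a0_p7]; exact f.n6'

theorem ex' (f : Fx D S a2 v x A) : ∀ y ∈ S, y ∈ nA D a2 x A ∨ D.a1 y ∈ nA D a2 x A ∨
    D.a0 y ∈ nA D a2 x A ∨ D.a0 (D.a1 y) ∈ nA D a2 x A := by
  intro y hy
  by_cases hf : y ∈ D.fc x
  · have h1 := f.n1'
    have h5 := f.n5'
    rcases hf with rfl | rfl | rfl | rfl | rfl | rfl | rfl | rfl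
    · right; right; left; exact h1
    · left; exact h1
    · right; left; rw [D.a1_p2]; exact h1
    · right; right; right; rw [D.a1_p3, D.a0_p4]; exact h5
    · right; right; left; rw [D.a0_p4]; exact h5
    · left; exact h5
    · right; left; rw [D.a1_p6]; exact h5
    · right; right; right; rw [D.a1_p7]; exact h1
  · have hy' : y ∈ S \ D.fc x := ⟨hy, hf⟩
    have key : ∀ w, w ∈ A → w ∈ nA D a2 x A ∨ D.a0 w ∈ nA D a2 x A := by
      intro w hw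
      by_cases hb : w = a2 (D.p5 x)
      · right; rw [hb, f.bc]; exact f.yc
      · left; exact Or.inl ⟨hw, hb⟩
    rcases f.act.ex y hy' with h | h | h | h
    · rcases key _ h with h' | h'
      · exact Or.inl h'
      · exact Or.inr (Or.inr (Or.inl h'))
    · rcases key _ h with h' | h'
      · exact Or.inr (Or.inl h')
      · exact Or.inr (Or.inr (Or.inr h'))
    · rcases key _ h with h' | h'
      · exact Or.inr (Or.inr (Or.inl h'))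
      · rw [D.e0] at h'
        exact Or.inl h'
    · rcases key _ h with h' | h'
      · exact Or.inr (Or.inr (Or.inr h'))
      · rw [D.e0] at h'
        exact Or.inr (Or.inl h')

theorem cnt_eq [Finite Ω] (f : Fx D S a2 v x A) (u : V) :
    (cnt S v (D.F (nA D a2 x A)) u : ℤ) = cnt (S \ D.fc x) v (D.F A) u + 4 * ind (v x = u) := by
  have h := cnt4 D (f.m.fcS f.hx) v (D.F (nA D a2 x A)) (D.F A) f.bS f.b1S f.cS f.c1S
    (fun h => D.n1 _ h.symm) f.bnec f.bne1 f.b1nec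
    (fun h => f.bnec (by have := congrArg D.a1 h; rwa [D.e1, D.e1] at this))
    (fun h => D.n1 _ h.symm)
    (fun y hy h1 h2 h3 h4 => ⟨fun h => f.F_old hy h h1 h2, fun h => f.F_new hy h h3 h4⟩) u
  have p1 : ¬ D.F (nA D a2 x A) (D.p1 x) := fun h => h.1 f.n1'
  have p2 : ¬ D.F (nA D a2 x A) (D.p2 x) := fun h => h.2 (by rw [D.a1_p2]; exact f.n1')
  have p4 : D.F (nA D a2 x A) (D.p4 x) := ⟨f.n4', by rw [D.a1_p4]; exact f.n3'⟩
  have p5 : ¬ D.F (nA D a2 x A) (D.p5 x) := fun h => h.1 f.n5'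
  have p6 : ¬ D.F (nA D a2 x A) (D.p6 x) := fun h => h.2 (by rw [D.a1_p6]; exact f.n5')
  have p7 : D.F (nA D a2 x A) (D.p7 x) := ⟨f.n7', by rw [D.a1_p7]; exact f.n0'⟩
  have q1 : ¬ D.F A (a2 (D.p5 x)) := fun h => h.1 f.b
  have q2 : ¬ D.F A (D.a1 (a2 (D.p5 x))) := fun h => h.2 (by rw [D.e1]; exact f.b)
  have q3 : ¬ D.F (nA D a2 x A) (a2 (D.p4 x)) := fun h => h.1 f.yc
  have q4 : ¬ D.F (nA D a2 x A) (D.a1 (a2 (D.p4 x))) := fun h => h.2 (by rw [D.e1]; exact f.yc)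
  have q5 : D.F A (D.a1 (a2 (D.p4 x))) := (D.F_a1 _ _).2 f.oFc
  unfold fs at h
  rw [ind_pos f.Fx0, ind_neg p1, ind_neg p2, ind_pos f.Fx3, ind_pos p4, ind_neg p5, ind_neg p6,
    ind_pos p7, ind_pos f.Fb, ind_neg q1, ind_pos f.Fb1, ind_neg q2, ind_neg q3, ind_pos f.oFc,
    ind_neg q4, ind_pos q5, f.lb, f.lb1, f.lc, f.lc1, f.l4, f.l7] at h
  rw [h]
  ring

theorem deg' [Finite Ω] (f : Fx D S a2 v x A) :
    ∀ y ∈ S, cnt S v (D.F (nA D a2 x A)) (v y) = 4 := by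
  intro y hy
  have h := cnt_eq f (v y)
  have hm := cnt_merge (D := D) (S \ D.fc x) (D.F A) f.hv
  have hd := f.act.deg _ f.bS
  rw [cv_v f.lb, hm, f.z] at hd
  by_cases h1 : v y = v x
  · rw [h1, f.z, ind_pos rfl] at h
    rw [h1]
    omega
  · rw [ind_neg (fun e => h1 e.symm)] at h
    by_cases h2 : v y = v (D.p3 x)
    · rw [h2] at h ⊢
      omega
    · have hf : y ∉ D.fc x := by
        intro hf
        rcases hf with rfl | rfl | rfl | rfl | rfl | rfl | rfl | rfl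
        · exact h1 rfl
        · exact h1 f.l1
        · exact h1 f.l2
        · exact h2 rfl
        · exact h2 f.l4
        · exact h1 f.l5
        · exact h1 f.l6
        · exact h1 f.l7
      have h3 := f.act.deg y ⟨hy, hf⟩
      rw [cv_o h2, cnt_other _ _ h1 h2] at h3
      omega

theorem ham' [Finite Ω] (f : Fx D S a2 v x A) (g : Ω → Prop)
    (H1 : ∀ y ∈ S, ∀ z ∈ S, D.F (nA D a2 x A) y → D.F (nA D a2 x A) z → v y = v z → g y → g z)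
    (H2 : ∀ y ∈ S, ∀ z ∈ S, D.F (nA D a2 x A) y → D.F (nA D a2 x A) z → z ∈ D.fc y →
      g y → g z) :
    ∀ y ∈ S, ∀ z ∈ S, D.F (nA D a2 x A) y → D.F (nA D a2 x A) z → g y → g z := by
  have H1' : ∀ y ∈ S, ∀ z ∈ S, D.F (nA D a2 x A) y → D.F (nA D a2 x A) z → v y = v z →
      (g y ↔ g z) := fun y hy z hz a b c => ⟨H1 y hy z hz a b c, H1 z hz y hy b a c.symm⟩
  have H2' : ∀ y ∈ S, ∀ z ∈ S, D.F (nA D a2 x A) y → D.F (nA D a2 x A) z → z ∈ D.fc y →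
      (g y ↔ g z) :=
    fun y hy z hz a b c => ⟨H2 y hy z hz a b c, H2 z hz y hy b a (D.fc_symm c)⟩
  have hbx : g (a2 (D.p5 x)) ↔ g x := H1' _ f.bS.1 _ f.hx f.Fb f.Fx0 f.lb
  have h3S := f.m.fcS f.hx (D.fc3 x)
  have hx3 : g x ↔ g (D.p3 x) := H2' _ f.hx _ h3S f.Fx0 f.Fx3 (D.fc3 x)
  have hb3 := hbx.trans hx3
  classical
  set g' : Ω → Prop := fun z => if z = a2 (D.p4 x) ∨ z = D.a1 (a2 (D.p4 x)) then
    g (a2 (D.p5 x)) else g z with hg'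
  have gc : ∀ z, (z = a2 (D.p4 x) ∨ z = D.a1 (a2 (D.p4 x))) → (g' z ↔ g (a2 (D.p5 x))) := by
    intro z hz
    simp only [hg']
    rw [if_pos hz]
  have go : ∀ z, ¬ (z = a2 (D.p4 x) ∨ z = D.a1 (a2 (D.p4 x))) → (g' z ↔ g z) := by
    intro z hz
    simp only [hg']
    rw [if_neg hz]
  have Fn : ∀ z ∈ S \ D.fc x, D.F A z → ¬ (z = a2 (D.p4 x) ∨ z = D.a1 (a2 (D.p4 x))) →
      D.F (nA D a2 x A) z := by
    intro z hz h1 h2
    push Not at h2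
    exact f.F_new hz h1 h2.1 h2.2
  have lc' : ∀ z, (z = a2 (D.p4 x) ∨ z = D.a1 (a2 (D.p4 x))) → v z = v (D.p3 x) := by
    rintro z (rfl | rfl)
    · exact f.lc
    · exact f.lc1
  have fc' : ∀ z, (z = a2 (D.p4 x) ∨ z = D.a1 (a2 (D.p4 x))) → a2 (D.p5 x) ∈ D.fc z := by
    have h0 : a2 (D.p5 x) ∈ D.fc (a2 (D.p4 x)) := by
      have := D.fc1 (a2 (D.p4 x))
      have h1 : D.p1 (a2 (D.p4 x)) = a2 (D.p5 x) := f.cb
      rwa [h1] at this
    rintro z (rfl | rfl)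
    · exact h0
    · rw [D.fc_a1]; exact h0
  -- the label step for flags which are not special and the special ones
  have s1 : ∀ y ∈ S \ D.fc x, ∀ z ∈ S \ D.fc x, D.F A y → D.F A z →
      (y = a2 (D.p4 x) ∨ y = D.a1 (a2 (D.p4 x))) → ¬ (z = a2 (D.p4 x) ∨ z = D.a1 (a2 (D.p4 x))) →
      v y = v z → (g' y ↔ g' z) := by
    intro y hy z hz h1 h2 h3 h4 h5
    rw [gc y h3, go z h4, hb3]
    exact H1' _ h3S _ hz.1 f.Fx3 (Fn z hz h2 h4) (by rw [← h5, lc' y h3])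
  have s2 : ∀ y ∈ S \ D.fc x, ∀ z ∈ S \ D.fc x, D.F A y → D.F A z →
      (y = a2 (D.p4 x) ∨ y = D.a1 (a2 (D.p4 x))) → ¬ (z = a2 (D.p4 x) ∨ z = D.a1 (a2 (D.p4 x))) →
      z ∈ D.fc y → (g' y ↔ g' z) := by
    intro y hy z hz h1 h2 h3 h4 h5
    rw [gc y h3, go z h4]
    refine H2' _ f.bS.1 _ hz.1 f.Fb (Fn z hz h2 h4) ?_
    rw [D.fc_eq (fc' y h3)]
    exact h5
  have K := f.act.ham g'
    (by
      intro y hy z hz h1 h2 h3
      have hvy := f.F_lab hy h1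
      have hvz := f.F_lab hz h2
      have hvv : v y = v z := by
        rcases (cv_iff y z).1 h3 with h | ⟨h | h, h' | h'⟩
        · exact h
        · exact absurd h hvy
        · exact absurd h hvy
        · exact absurd h' hvz
        · rw [h, h']
      by_cases c1 : (y = a2 (D.p4 x) ∨ y = D.a1 (a2 (D.p4 x)))
      · by_cases c2 : (z = a2 (D.p4 x) ∨ z = D.a1 (a2 (D.p4 x)))
        · rw [gc y c1, gc z c2]; exact id
        · exact (s1 y hy z hz h1 h2 c1 c2 hvv).1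
      · by_cases c2 : (z = a2 (D.p4 x) ∨ z = D.a1 (a2 (D.p4 x)))
        · exact (s1 z hz y hy h2 h1 c2 c1 hvv.symm).2
        · rw [go y c1, go z c2]
          exact H1 y hy.1 z hz.1 (Fn y hy h1 c1) (Fn z hz h2 c2) hvv)
    (by
      intro y hy z hz h1 h2 h3
      by_cases c1 : (y = a2 (D.p4 x) ∨ y = D.a1 (a2 (D.p4 x)))
      · by_cases c2 : (z = a2 (D.p4 x) ∨ z = D.a1 (a2 (D.p4 x)))
        · rw [gc y c1, gc z c2]; exact id
        · exact (s2 y hy z hz h1 h2 c1 c2 h3).1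
      · by_cases c2 : (z = a2 (D.p4 x) ∨ z = D.a1 (a2 (D.p4 x)))
        · exact (s2 z hz y hy h2 h1 c2 c1 (D.fc_symm h3)).2
        · rw [go y c1, go z c2]
          exact H2 y hy.1 z hz.1 (Fn y hy h1 c1) (Fn z hz h2 c2) h3)
  -- every new free corner is connected to `B2`
  have fin : ∀ w ∈ S, D.F (nA D a2 x A) w → (g w ↔ g (a2 (D.p5 x))) := by
    intro w hw h1
    by_cases hf : w ∈ D.fc x
    · rw [hbx]
      exact (H2' _ f.hx _ hw f.Fx0 h1 hf).symm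
    · have hw' : w ∈ S \ D.fc x := ⟨hw, hf⟩
      by_cases e1 : w = a2 (D.p5 x)
      · rw [e1]
      by_cases e2 : w = D.a1 (a2 (D.p5 x))
      · exact H1' _ hw _ f.bS.1 h1 f.Fb (by rw [e2, f.lb1, f.lb])
      have h2 := f.F_old hw' h1 e1 e2
      have c1 : ¬ (w = a2 (D.p4 x) ∨ w = D.a1 (a2 (D.p4 x))) := by
        rintro (h | h)
        · exact f.F_ne_c h1 h
        · exact f.F_ne_c1 h1 h
      have k : g' w ↔ g' (a2 (D.p4 x)) :=
        ⟨K w hw' _ f.cS h2 f.oFc, K _ f.cS w hw' f.oFc h2⟩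
      rwa [go w c1, gc _ (Or.inl rfl)] at k
  intro y hy z hz h1 h2 h3
  exact (fin z hz h2).2 ((fin y hy h1).1 h3)

end KQ_LA

theorem t_LA1 : S_LA1 := by
  intro Ω V _ D S a2 v A x m hx hv h act z b
  have f : KQ_LA.Fx D S a2 v x A := ⟨m, hx, hv, h, act, z, b⟩
  exact ⟨KQ_LA.nA D a2 x A, KQ_LA.sub' f, KQ_LA.na1' f, KQ_LA.na2' f, KQ_LA.u0' f, KQ_LA.u1' f,
    KQ_LA.u3' f, KQ_LA.ex' f, KQ_LA.deg' f, KQ_LA.ham' f⟩

end KQ
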