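import Pool.Agent.KQ.St

/-!
# LB1: lift for a face of type D1, no free corner at `c`

The new structure is `(A - {C}) + {a0 C, p5 x, p1 x}` with `C = a2 (p3 x)`.
-/

set_option autoImplicit false

namespace KQ

namespace KQ_LB

variable {Ω V : Type} {D : Oct Ω} {S : Set Ω} {a2 : Ω → Ω} {v : Ω → V} {x : Ω}

/-- the new structure -/
def NA (D : Oct Ω) (A : Set Ω) (C x : Ω) : Set Ω :=
  {y | (y ∈ A ∧ y ≠ C) ∨ y = D.a0 C ∨ y = D.p5 x ∨ y = D.p1 x}

theorem mem_NA {A : Set Ω} {C y : Ω} : y ∈ NA D A C x ↔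
    ((y ∈ A ∧ y ≠ C) ∨ y = D.a0 C ∨ y = D.p5 x ∨ y = D.p1 x) := Iff.rfl

/-- outside the face -/
theorem out {A : Set Ω} {C y : Ω} (hy : y ∉ D.fc x) :
    y ∈ NA D A C x ↔ ((y ∈ A ∧ y ≠ C) ∨ y = D.a0 C) := by
  rw [mem_NA]
  constructor
  · rintro (h | h | h | h)
    · exact Or.inl h
    · exact Or.inr h
    · exact absurd (by rw [h]; simp) hy
    · exact absurd (by rw [h]; simp) hy
  · rintro (h | h)
    · exact Or.inl h
    · exact Or.inr (Or.inl h)

/-- in the face -/
theorem inn {A : Set Ω} {C y : Ω} (hA : ∀ z ∈ A, z ∉ D.fc x) (hC : C ∉ D.fc x)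
    (hy : y ∈ D.fc x) : y ∈ NA D A C x ↔ (y = D.p5 x ∨ y = D.p1 x) := by
  rw [mem_NA]
  constructor
  · rintro (h | h | h)
    · exact absurd hy (hA y h.1)
    · rw [h, D.mem_fc_a0] at hy
      exact absurd hy hC
    · exact h
  · intro h
    exact Or.inr (Or.inr h)

/-- a map in the faces which sends the old structure outside itself -/
theorem stepf {A : Set Ω} {C : Ω} (hA : ∀ z ∈ A, z ∉ D.fc x) (hC : C ∉ D.fc x) (f : Ω → Ω)
    (hfc : ∀ y, f y ∈ D.fc x ↔ y ∈ D.fc x) (h1 : ∀ y ∈ A, f y ∉ A)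
    (h2 : ∀ y ∈ A, y ≠ C → f y ≠ D.a0 C) (h3 : f (D.a0 C) ∈ A → f (D.a0 C) = C)
    (h4 : f (D.a0 C) ≠ D.a0 C) (h5 : f (D.p5 x) ≠ D.p5 x) (h6 : f (D.p5 x) ≠ D.p1 x)
    (h7 : f (D.p1 x) ≠ D.p5 x) (h8 : f (D.p1 x) ≠ D.p1 x) :
    ∀ y ∈ NA D A C x, f y ∉ NA D A C x := by
  intro y hy
  by_cases hf : y ∈ D.fc x
  · rw [inn hA hC ((hfc y).2 hf)]
    rcases (inn hA hC hf).1 hy with rfl | rfl
    · rintro (h | h)
      · exact h5 h
      · exact h6 h
    · rintro (h | h)
      · exact h7 h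
      · exact h8 h
  · have hf' : f y ∉ D.fc x := fun h => hf ((hfc y).1 h)
    rw [out hf']
    rcases (out hf).1 hy with ⟨a, b⟩ | rfl
    · rintro (⟨h, _⟩ | h)
      · exact h1 y a h
      · exact h2 y a b h
    · rintro (⟨h, h'⟩ | h)
      · exact h' (h3 h)
      · exact h4 h

/-- free corners outside the face -/
theorem F_iff {A : Set Ω} {C y : Ω} (hy : y ∉ D.fc x) (n1 : y ≠ C) (n2 : y ≠ D.a1 C)
    (n3 : y ≠ D.a0 C) (n4 : y ≠ D.a1 (D.a0 C)) :
    D.F (NA D A C x) y ↔ D.F A y := by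
  have hy' : D.a1 y ∉ D.fc x := fun h => hy ((D.mem_fc_a1).1 h)
  unfold Oct.F
  rw [out hy, out hy']
  have k1 : D.a1 y ≠ C := by
    intro h
    exact n2 (by rw [← h, D.e1])
  have k2 : D.a1 y ≠ D.a0 C := by
    intro h
    exact n4 (by rw [← h, D.e1])
  constructor
  · rintro ⟨a, b⟩
    exact ⟨fun h => a (Or.inl ⟨h, n1⟩), fun h => b (Or.inl ⟨h, k1⟩)⟩
  · rintro ⟨a, b⟩
    refine ⟨?_, ?_⟩
    · rintro (h | h)
      · exact a h.1
      · exact n3 h
    · rintro (h | h)
      · exact b h.1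
      · exact k2 h

/-- free corners in the face -/
theorem F_in {A : Set Ω} {C : Ω} (hA : ∀ z ∈ A, z ∉ D.fc x) (hC : C ∉ D.fc x) :
    (D.F (NA D A C x) x ∧ D.F (NA D A C x) (D.p7 x) ∧ D.F (NA D A C x) (D.p3 x) ∧
      D.F (NA D A C x) (D.p4 x)) ∧
    (¬ D.F (NA D A C x) (D.p1 x) ∧ ¬ D.F (NA D A C x) (D.p2 x) ∧
      ¬ D.F (NA D A C x) (D.p5 x) ∧ ¬ D.F (NA D A C x) (D.p6 x)) := by
  have i1 : D.p1 x ∈ NA D A C x := (inn hA hC (D.fc1 x)).2 (Or.inr rfl)
  have i5 : D.p5 x ∈ NA D A C x := (inn hA hC (D.fc5 x)).2 (Or.inl rfl)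
  have j0 : x ∉ NA D A C x := by rw [inn hA hC (D.fc0 x)]; simp
  have j3 : D.p3 x ∉ NA D A C x := by rw [inn hA hC (D.fc3 x)]; simp
  have j4 : D.p4 x ∉ NA D A C x := by rw [inn hA hC (D.fc4 x)]; simp
  have j7 : D.p7 x ∉ NA D A C x := by rw [inn hA hC (D.fc7 x)]; simp
  refine ⟨⟨⟨j0, j7⟩, ⟨j7, ?_⟩, ⟨j3, ?_⟩, ⟨j4, ?_⟩⟩, ?_, ?_, ?_, ?_⟩
  · rw [D.a1_p7]; exact j0
  · rw [D.a1_p3]; exact j4
  · rw [D.a1_p4]; exact j3
  · exact fun h => h.1 i1
  · intro h
    have := h.2
    rw [D.a1_p2] at this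
    exact this i1
  · exact fun h => h.1 i5
  · intro h
    have := h.2
    rw [D.a1_p6] at this
    exact this i5

end KQ_LB

open KQ_LB in
theorem t_LB1 : S_LB1 := by
  intro Ω V _ D S a2 v A x m hx hv h hA h0 hCA
  have hf := m.fcS hx
  obtain ⟨t1, t2, t3, t4, t5, t6⟩ := h
  have he2 := m.e2f hx
  have b1 := hf (D.fc1 x)
  have b2 := hf (D.fc2 x)
  have b3 := hf (D.fc3 x)
  have b5 := hf (D.fc5 x)
  have hAf : ∀ z ∈ A, z ∉ D.fc x := fun z hz => (hA.sub hz).2
  -- labels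
  have l7 : v (D.p7 x) = v x := m.v7 hx
  have l1 : v (D.p1 x) = v x := by rw [← m.v2 _ b1, t2]; exact l7
  have l2 : v (D.p2 x) = v x := by rw [m.v21 hx]; exact l1
  have l6 : v (D.p6 x) = v x := by rw [← t1]; exact m.v2 x hx
  have l5 : v (D.p5 x) = v x := by rw [m.v56 hx]; exact l6
  have l4 : v (D.p4 x) = v (D.p3 x) := m.v43 hx
  -- the flags `C`, `a0 C`
  have hcaC : ca D a2 x (a2 (D.p3 x)) = a2 (D.p5 x) :=
    ca_D1_3 D ⟨t1, t2, t3, t4, t5, t6⟩ he2
  have hA2 : a2 (D.p2 x) = D.a0 (a2 (D.p3 x)) := by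
    rw [← m.c2 _ b3, D.a0_p3]
  have lC : v (a2 (D.p3 x)) = v (D.p3 x) := m.v2 _ b3
  have lA : v (a2 (D.p2 x)) = v x := (m.v2 _ b2).trans l2
  have mC : a2 (D.p3 x) ∈ S \ D.fc x := ⟨m.s2 _ b3, t4⟩
  have e2C : a2 (a2 (D.p3 x)) = D.p3 x := m.e2 _ b3
  have e2A : a2 (a2 (D.p2 x)) = D.p2 x := m.e2 _ b2
  have e2p5 : a2 (a2 (D.p5 x)) = D.p5 x := m.e2 _ b5
  generalize hCdef : a2 (D.p3 x) = C at hCA hcaC hA2 lC mC e2C t4
  rw [hA2] at lA e2A t3
  have mA : D.a0 C ∈ S \ D.fc x := out_a0 m.s0 mC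
  have mC' : D.a1 C ∈ S \ D.fc x := out_a1 m.s1 mC
  have mA' : D.a1 (D.a0 C) ∈ S \ D.fc x := out_a1 m.s1 mA
  have lC' : v (D.a1 C) = v (D.p3 x) := (m.v1 _ mC.1).trans lC
  have lA' : v (D.a1 (D.a0 C)) = v x := (m.v1 _ mA.1).trans lA
  have hCf : C ∉ D.fc x := mC.2
  -- values of `A` near `C`
  have q1 : D.a0 C ∉ A := hA.u0 _ hCA
  have q7 : D.a1 C ∉ A := hA.na1 _ hCA
  have q2 : D.a1 (D.a0 C) ∉ A := hA.u2 hCA
  have q6 : D.a0 (D.a1 C) ∉ A := hA.u1 _ hCA
  have q3 : D.a0 (D.a1 (D.a0 C)) ∉ A := hA.u3 _ hCA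
  have hB : a2 (D.p5 x) ∉ A := by
    rw [← hcaC]; exact hA.na2 _ hCA
  -- distinctness
  have n12 : C ≠ D.a1 C := fun h => D.n1 C h.symm
  have n13 : C ≠ D.a0 C := fun h => D.n0 C h.symm
  have n14 : C ≠ D.a1 (D.a0 C) := D.ne0_2 C
  have n23 : D.a1 C ≠ D.a0 C := fun h => D.n01 C h.symm
  have n24 : D.a1 C ≠ D.a1 (D.a0 C) := fun h => D.ne2_7 C h.symm
  have n34 : D.a0 C ≠ D.a1 (D.a0 C) := D.ne1_2 C
  -- free flags
  obtain ⟨⟨k0, k7, k3, k4⟩, k1, k2, k5, k6⟩ := F_in (D := D) (x := x) (A := A) (C := C) hAf hCf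
  have hAN : D.a0 C ∈ NA D A C x := Or.inr (Or.inl rfl)
  have hCN : C ∉ NA D A C x := by
    rw [out hCf]
    rintro (⟨_, h⟩ | h)
    · exact h rfl
    · exact n13 h
  have hC'N : D.a1 C ∉ NA D A C x := by
    rw [out mC'.2]
    rintro (⟨h, _⟩ | h)
    · exact q7 h
    · exact n23 h
  have fC : D.F (NA D A C x) C := ⟨hCN, hC'N⟩
  have fC' : D.F (NA D A C x) (D.a1 C) := (D.F_a1 C _).2 fC
  have fA : ¬ D.F (NA D A C x) (D.a0 C) := fun h => h.1 hAN
  have fA' : ¬ D.F (NA D A C x) (D.a1 (D.a0 C)) := fun h => fA ((D.F_a1 _ _).1 h)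
  have oC : ¬ D.F A C := fun h => h.1 hCA
  have oC' : ¬ D.F A (D.a1 C) := fun h => oC ((D.F_a1 _ _).1 h)
  have oA : D.F A (D.a0 C) := ⟨q1, q2⟩
  have oA' : D.F A (D.a1 (D.a0 C)) := (D.F_a1 _ _).2 oA
  have hFi : ∀ y ∈ S \ D.fc x, y ≠ C → y ≠ D.a1 C → y ≠ D.a0 C → y ≠ D.a1 (D.a0 C) →
      (D.F (NA D A C x) y ↔ D.F A y) := fun y hy a b c d => F_iff hy.2 a b c d
  -- no old free flag has the label `c`
  have hno : ∀ y ∈ S \ D.fc x, D.F A y → v y ≠ v (D.p3 x) := by
    intro y hy hF hu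
    have hfin : {y | y ∈ S \ D.fc x ∧ v y = v (D.p3 x) ∧ D.F A y}.Finite := Set.toFinite _
    have h3 := (Set.ncard_eq_zero hfin).1 h0
    have h4 : y ∈ {y | y ∈ S \ D.fc x ∧ v y = v (D.p3 x) ∧ D.F A y} := ⟨hy, hu, hF⟩
    rw [h3] at h4
    exact h4
  have hcnt : ∀ u, (cnt S v (D.F (NA D A C x)) u : ℤ) =
      cnt (S \ D.fc x) v (D.F A) u + 4 * ind (v (D.p3 x) = u) := by
    intro u
    rw [cnt4 D hf v (D.F (NA D A C x)) (D.F A) mC mC' mA mA' n12 n13 n14 n23 n24 n34 hFi u]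
    unfold fs
    rw [ind_pos k0, ind_pos k7, ind_pos k3, ind_pos k4, ind_neg k1, ind_neg k2, ind_neg k5,
      ind_neg k6, ind_pos fC, ind_pos fC', ind_neg fA, ind_neg fA', ind_neg oC, ind_neg oC',
      ind_pos oA, ind_pos oA', l1, l2, l4, l5, l6, l7, lC, lC', lA, lA']
    ring
  refine ⟨NA D A C x, ?_⟩
  refine ⟨?_, ?_, ?_, ?_, ?_, ?_, ?_, ?_, ?_⟩
  · -- sub
    rintro y (hy | rfl | rfl | rfl)
    · exact (hA.sub hy.1).1
    · exact mA.1
    · exact b5
    · exact b1
  · -- na1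
    apply stepf hAf hCf D.a1
    · exact fun y => D.mem_fc_a1
    · exact hA.na1
    · intro y hy _ h
      apply q2
      rw [← h, D.e1]
      exact hy
    · intro h
      exact absurd h q2
    · exact fun h => n34 h.symm
    · simp
    · simp
    · simp
    · simp
  · -- na2
    intro y hy
    rcases hy with ⟨hy, hyC⟩ | rfl | rfl | rfl
    · have hyS := hA.sub hy
      rintro (⟨h, _⟩ | h | h | h)
      · have h1 : a2 y ∉ D.fc x := hAf _ h
        have h2 := hA.na2 y hy
        rw [ca_out D a2 x h1] at h2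
        exact h2 h
      · apply hyS.2
        have h1 : a2 y = a2 (D.p2 x) := by rw [h, hA2]
        rw [m.inj hyS.1 b2 h1]
        simp
      · apply hB
        rw [← h, m.e2 y hyS.1]
        exact hy
      · apply hyS.2
        have h1 : y = a2 (D.p1 x) := by rw [← h, m.e2 y hyS.1]
        rw [h1, t2]
        simp
    · rw [e2A, inn hAf hCf (D.fc2 x)]
      simp
    · rw [out t6]
      rintro (⟨h, _⟩ | h)
      · exact hB h
      · have h1 : a2 (D.p5 x) = a2 (D.p2 x) := by rw [h, hA2]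
        exact D.ne5_2 x (m.inj b5 b2 h1)
    · rw [t2, inn hAf hCf (D.fc7 x)]
      simp
  · -- u0
    apply stepf hAf hCf D.a0
    · exact fun y => D.mem_fc_a0
    · exact hA.u0
    · intro y hy hyC h
      apply hyC
      rw [← D.e0 y, h, D.e0]
    · intro _
      exact D.e0 C
    · rw [D.e0]
      exact n13
    · simp
    · simp
    · simp
    · simp
  · -- u1
    apply stepf hAf hCf (fun y => D.a0 (D.a1 y))
    · intro y
      show D.a0 (D.a1 y) ∈ D.fc x ↔ y ∈ D.fc x
      rw [D.mem_fc_a0, D.mem_fc_a1]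
    · exact hA.u1
    · intro y hy _ h
      apply q7
      have h1 : D.a1 y = C := by
        rw [← D.e0 (D.a1 y), h, D.e0]
      rw [← h1, D.e1]
      exact hy
    · intro h
      exact absurd h q3
    · exact D.ne3_1 C
    · simp
    · simp
    · simp
    · simp
  · -- u3
    apply stepf hAf hCf (fun y => D.a0 (D.a1 (D.a0 y)))
    · intro y
      show D.a0 (D.a1 (D.a0 y)) ∈ D.fc x ↔ y ∈ D.fc x
      rw [D.mem_fc_a0, D.mem_fc_a1, D.mem_fc_a0]
    · exact hA.u3
    · intro y hy _ h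
      apply q6
      have h1 : D.a1 (D.a0 y) = C := by
        rw [← D.e0 (D.a1 (D.a0 y)), h, D.e0]
      rw [← h1, D.e1, D.e0]
      exact hy
    · intro h
      exfalso
      apply q6
      have h1 : D.a0 (D.a1 (D.a0 (D.a0 C))) = D.a0 (D.a1 C) := by rw [D.e0]
      rw [← h1]
      exact h
    · show D.a0 (D.a1 (D.a0 (D.a0 C))) ≠ D.a0 C
      rw [D.e0]
      exact D.ne6_1 C
    · simp
    · simp
    · show D.a0 (D.a1 (D.a0 (D.p1 x))) ≠ D.p5 x
      rw [D.a0_p1]
      exact D.ne6_5 x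
    · show D.a0 (D.a1 (D.a0 (D.p1 x))) ≠ D.p1 x
      rw [D.a0_p1]
      exact D.ne6_1 x
  · -- ex
    intro y hy
    by_cases hyf : y ∈ D.fc x
    · have i1 : D.p1 x ∈ NA D A C x := (inn hAf hCf (D.fc1 x)).2 (Or.inr rfl)
      have i5 : D.p5 x ∈ NA D A C x := (inn hAf hCf (D.fc5 x)).2 (Or.inl rfl)
      rcases hyf with rfl | rfl | rfl | rfl | rfl | rfl | rfl | rfl
      · right; right; left; exact i1
      · left; exact i1
      · right; left; rw [D.a1_p2]; exact i1
      · right; right; right; rw [D.a1_p3, D.a0_p4]; exact i5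
      · right; right; left; rw [D.a0_p4]; exact i5
      · left; exact i5
      · right; left; rw [D.a1_p6]; exact i5
      · right; right; right; rw [D.a1_p7, D.a0_x]; exact i1
    · rcases hA.ex y ⟨hy, hyf⟩ with h | h | h | h
      · by_cases hc : y = C
        · right; right; left; rw [hc]; exact hAN
        · left; exact Or.inl ⟨h, hc⟩
      · by_cases hc : D.a1 y = C
        · right; right; right; rw [hc]; exact hAN
        · right; left; exact Or.inl ⟨h, hc⟩
      · by_cases hc : D.a0 y = C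
        · left
          have : y = D.a0 C := by rw [← hc, D.e0]
          rw [this]; exact hAN
        · right; right; left; exact Or.inl ⟨h, hc⟩
      · by_cases hc : D.a0 (D.a1 y) = C
        · right; left
          have : D.a1 y = D.a0 C := by rw [← hc, D.e0]
          rw [this]; exact hAN
        · right; right; right; exact Or.inl ⟨h, hc⟩
  · -- deg
    intro y hy
    have hc := hcnt (v y)
    have hmerge := cnt_merge (D := D) (v := v) (x := x) (S \ D.fc x) (D.F A) hv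
    have hd := hA.deg _ mA
    rw [cv_v lA, hmerge, h0] at hd
    by_cases hyc : v y = v (D.p3 x)
    · rw [hyc, ind_pos rfl, h0] at hc
      rw [hyc]
      have : (cnt S v (D.F (NA D A C x)) (v (D.p3 x)) : ℤ) = 4 := by rw [hc]; norm_num
      exact_mod_cast this
    · rw [ind_neg (fun h => hyc h.symm)] at hc
      have hc' : cnt S v (D.F (NA D A C x)) (v y) = cnt (S \ D.fc x) v (D.F A) (v y) := by
        have : (cnt S v (D.F (NA D A C x)) (v y) : ℤ) = (cnt (S \ D.fc x) v (D.F A) (v y) : ℤ) := by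
          rw [hc]; ring
        exact_mod_cast this
      rw [hc']
      by_cases hyx : v y = v x
      · rw [hyx]
        exact hd
      · have hyf : y ∉ D.fc x := by
          rintro (h | h | h | h | h | h | h | h)
          · exact hyx (by rw [h])
          · exact hyx (by rw [h]; exact l1)
          · exact hyx (by rw [h]; exact l2)
          · exact hyc (by rw [h])
          · exact hyc (by rw [h]; exact l4)
          · exact hyx (by rw [h]; exact l5)
          · exact hyx (by rw [h]; exact l6)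
          · exact hyx (by rw [h]; exact l7)
        have hd' := hA.deg y ⟨hy, hyf⟩
        rw [cv_o hyc, cnt_other _ _ hyx hyc] at hd'
        exact hd'
  · -- ham
    intro g h1 h2
    classical
    have b4 := hf (D.fc4 x)
    have b7 := hf (D.fc7 x)
    -- all new free flags with label `c` or `v` and all of the face of `C` have the value `g C`
    have gc : ∀ y ∈ S, D.F (NA D A C x) y → v y = v (D.p3 x) → (g y ↔ g C) := by
      intro y hy hF hl
      exact ⟨h1 y hy C mC.1 hF fC (hl.trans lC.symm), h1 C mC.1 y hy fC hF (lC.trans hl.symm)⟩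
    have gx : g x ↔ g C := by
      have e := gc _ b3 k3 rfl
      exact ⟨fun h => e.1 (h2 x hx _ b3 k0 k3 (D.fc3 x) h),
        fun h => h2 _ b3 x hx k3 k0 (by simp) (e.2 h)⟩
    have gv : ∀ y ∈ S, D.F (NA D A C x) y → v y = v x → (g y ↔ g C) := by
      intro y hy hF hl
      exact ⟨fun h => gx.1 (h1 y hy x hx hF k0 hl h),
        fun h => h1 x hx y hy k0 hF hl.symm (gx.2 h)⟩
    have gf : ∀ y ∈ S, D.F (NA D A C x) y → y ∈ D.fc C → (g y ↔ g C) := by
      intro y hy hF hl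
      exact ⟨h2 y hy C mC.1 hF fC (D.fc_symm hl), h2 C mC.1 y hy fC hF hl⟩
    -- old free flags
    have hold : ∀ y ∈ S \ D.fc x, D.F A y → ¬ (y = D.a0 C ∨ y = D.a1 (D.a0 C)) →
        D.F (NA D A C x) y := by
      intro y hy hF hn
      refine (hFi y hy ?_ ?_ (fun h => hn (Or.inl h)) (fun h => hn (Or.inr h))).2 hF
      · intro h
        rw [h] at hF
        exact oC hF
      · intro h
        rw [h] at hF
        exact oC' hF
    -- the old function
    have hg' : ∃ g' : Ω → Prop, (∀ y, (y = D.a0 C ∨ y = D.a1 (D.a0 C)) → (g' y ↔ g C)) ∧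
        (∀ y, ¬ (y = D.a0 C ∨ y = D.a1 (D.a0 C)) → (g' y ↔ g y)) := by
      refine ⟨fun y => ((y = D.a0 C ∨ y = D.a1 (D.a0 C)) ∧ g C) ∨
        (¬ (y = D.a0 C ∨ y = D.a1 (D.a0 C)) ∧ g y), ?_, ?_⟩
      · intro y hy
        constructor
        · rintro (h | h)
          · exact h.2
          · exact absurd hy h.1
        · intro h
          exact Or.inl ⟨hy, h⟩
      · intro y hy
        constructor
        · rintro (h | h)
          · exact absurd h.1 hy
          · exact h.2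
        · intro h
          exact Or.inr ⟨hy, h⟩
    obtain ⟨g', ga, gb⟩ := hg'
    have hG : ∀ y ∈ S \ D.fc x, D.F A y → (v y = v x ∨ y ∈ D.fc C) → (g' y ↔ g C) := by
      intro y hy hF hl
      by_cases hc : y = D.a0 C ∨ y = D.a1 (D.a0 C)
      · exact ga y hc
      · rw [gb y hc]
        rcases hl with hl | hl
        · exact gv y hy.1 (hold y hy hF hc) hl
        · exact gf y hy.1 (hold y hy hF hc) hl
    have hmain := hA.ham g' ?_ ?_
    · -- conclusion
      have hall : ∀ y ∈ S, D.F (NA D A C x) y → (g y ↔ g C) := by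
        intro y hy hF
        by_cases hyf : y ∈ D.fc x
        · rcases hyf with rfl | rfl | rfl | rfl | rfl | rfl | rfl | rfl
          · exact gx
          · exact absurd hF k1
          · exact absurd hF k2
          · exact gc _ hy hF rfl
          · exact gc _ hy hF l4
          · exact absurd hF k5
          · exact absurd hF k6
          · exact gv _ hy hF l7
        · by_cases hc1 : y = C
          · rw [hc1]
          by_cases hc2 : y = D.a1 C
          · rw [hc2]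
            exact gc _ mC'.1 fC' lC'
          have hc : ¬ (y = D.a0 C ∨ y = D.a1 (D.a0 C)) := by
            rintro (h | h)
            · rw [h] at hF
              exact fA hF
            · rw [h] at hF
              exact fA' hF
          have hFo : D.F A y :=
            (hFi y ⟨hy, hyf⟩ hc1 hc2 (fun h => hc (Or.inl h)) (fun h => hc (Or.inr h))).1 hF
          have r1 := hmain y ⟨hy, hyf⟩ _ mA hFo oA
          have r2 := hmain _ mA y ⟨hy, hyf⟩ oA hFo
          have r3 := ga (D.a0 C) (Or.inl rfl)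
          rw [gb y hc, r3] at r1
          rw [gb y hc, r3] at r2
          exact ⟨r1, r2⟩
      intro y hy z hz hFy hFz hgy
      exact (hall z hz hFz).2 ((hall y hy hFy).1 hgy)
    · -- same label
      intro y hy z hz hFy hFz hl hgy
      have hl' : v y = v z := by
        rcases (cv_iff y z).1 hl with h | ⟨h | h, h' | h'⟩
        · exact h
        · rw [h, h']
        · exact absurd h' (hno z hz hFz)
        · exact absurd h (hno y hy hFy)
        · exact absurd h (hno y hy hFy)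
      by_cases hyx : v y = v x
      · exact (hG z hz hFz (Or.inl (hl'.symm.trans hyx))).2 ((hG y hy hFy (Or.inl hyx)).1 hgy)
      · have cy : ¬ (y = D.a0 C ∨ y = D.a1 (D.a0 C)) := by
          rintro (h | h)
          · exact hyx (by rw [h]; exact lA)
          · exact hyx (by rw [h]; exact lA')
        have cz : ¬ (z = D.a0 C ∨ z = D.a1 (D.a0 C)) := by
          rintro (h | h)
          · exact hyx (by rw [hl', h]; exact lA)
          · exact hyx (by rw [hl', h]; exact lA')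
        rw [gb z cz]
        rw [gb y cy] at hgy
        exact h1 y hy.1 z hz.1 (hold y hy hFy cy) (hold z hz hFz cz) hl' hgy
    · -- same face
      intro y hy z hz hFy hFz hl hgy
      by_cases hyC : y ∈ D.fc C
      · have hzC : z ∈ D.fc C := D.fc_trans hyC hl
        exact (hG z hz hFz (Or.inr hzC)).2 ((hG y hy hFy (Or.inr hyC)).1 hgy)
      · have hzC : z ∉ D.fc C := fun h => hyC (D.fc_trans h (D.fc_symm hl))
        have cy : ¬ (y = D.a0 C ∨ y = D.a1 (D.a0 C)) := by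
          rintro (h | h)
          · exact hyC (by rw [h]; exact D.fc1 C)
          · exact hyC (by rw [h]; exact D.fc2 C)
        have cz : ¬ (z = D.a0 C ∨ z = D.a1 (D.a0 C)) := by
          rintro (h | h)
          · exact hzC (by rw [h]; exact D.fc1 C)
          · exact hzC (by rw [h]; exact D.fc2 C)
        rw [gb z cz]
        rw [gb y cy] at hgy
        exact h2 y hy.1 z hz.1 (hold y hy hFy cy) (hold z hz hFz cz) hl hgy

end KQ
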