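import Pool.Agent.KQ.St

/-!
# LI: lift, one free corner on each side
-/

set_option autoImplicit false

namespace KQ

namespace KQ_LI

variable {Ω V : Type} {D : Oct Ω} {S : Set Ω} {a2 : Ω → Ω} {v : Ω → V} {x : Ω} {A : Set Ω}

/-- the lifted set -/
def B (D : Oct Ω) (A : Set Ω) (x : Ω) : Set Ω := {y | y ∈ A ∨ y = D.p1 x ∨ y = D.p5 x}

theorem out {y : Ω} (hy : y ∉ D.fc x) : y ∈ B D A x ↔ y ∈ A := by
  constructor
  · rintro (h | h | h)
    · exact h
    · exact absurd (h ▸ D.fc1 x) hy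
    · exact absurd (h ▸ D.fc5 x) hy
  · intro h
    exact Or.inl h

theorem inn (hA : ∀ z ∈ D.fc x, z ∉ A) {z : Ω} (hz : z ∈ D.fc x) :
    z ∈ B D A x ↔ (z = D.p1 x ∨ z = D.p5 x) := by
  constructor
  · rintro (h | h)
    · exact absurd h (hA z hz)
    · exact h
  · intro h
    exact Or.inr h

theorem Fout {y : Ω} (hy : y ∉ D.fc x) : D.F (B D A x) y ↔ D.F A y := by
  unfold Oct.F
  rw [out hy, out (fun h => hy (D.mem_fc_a1.1 h))]

theorem nin (hA : ∀ z ∈ D.fc x, z ∉ A) {z : Ω} (hz : z ∈ D.fc x) (h1 : z ≠ D.p1 x)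
    (h5 : z ≠ D.p5 x) : z ∉ B D A x := by
  rw [inn hA hz]
  rintro (h | h)
  · exact h1 h
  · exact h5 h

theorem F0 (hA : ∀ z ∈ D.fc x, z ∉ A) : D.F (B D A x) x := by
  refine ⟨nin hA (by simp) (by simp) (by simp), ?_⟩
  rw [D.a1_x]
  exact nin hA (by simp) (by simp) (by simp)

theorem F7 (hA : ∀ z ∈ D.fc x, z ∉ A) : D.F (B D A x) (D.p7 x) := (D.F_p7 x _).2 (F0 hA)

theorem F3 (hA : ∀ z ∈ D.fc x, z ∉ A) : D.F (B D A x) (D.p3 x) := by
  refine ⟨nin hA (by simp) (by simp) (by simp), ?_⟩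
  rw [D.a1_p3]
  exact nin hA (by simp) (by simp) (by simp)

theorem F4 (hA : ∀ z ∈ D.fc x, z ∉ A) : D.F (B D A x) (D.p4 x) := by
  refine ⟨nin hA (by simp) (by simp) (by simp), ?_⟩
  rw [D.a1_p4]
  exact nin hA (by simp) (by simp) (by simp)

theorem F1 : ¬ D.F (B D A x) (D.p1 x) := fun h => h.1 (Or.inr (Or.inl rfl))

theorem F5 : ¬ D.F (B D A x) (D.p5 x) := fun h => h.1 (Or.inr (Or.inr rfl))

theorem F2 : ¬ D.F (B D A x) (D.p2 x) := by
  intro h
  have := h.2
  rw [D.a1_p2] at this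
  exact this (Or.inr (Or.inl rfl))

theorem F6 : ¬ D.F (B D A x) (D.p6 x) := by
  intro h
  have := h.2
  rw [D.a1_p6] at this
  exact this (Or.inr (Or.inr rfl))

theorem fsB (m : Mp D S a2 v) (hx : x ∈ S) (hA : ∀ z ∈ D.fc x, z ∉ A) (u : V) :
    fs D v (D.F (B D A x)) u x = 2 * ind (v x = u) + 2 * ind (v (D.p3 x) = u) := by
  unfold fs
  rw [ind_pos (F0 hA), ind_neg F1, ind_neg F2, ind_pos (F3 hA), ind_pos (F4 hA), ind_neg F5,
    ind_neg F6, ind_pos (F7 hA), m.v7 hx, m.v43 hx]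
  ring

end KQ_LI

open KQ_LI in
theorem t_LI : S_LI := by
  intro Ω V _ D S a2 v A x m hx hv hlab h h2 h2' hp1 hp5 hne
  have hf := m.fcS hx
  have hA : ∀ z ∈ D.fc x, z ∉ A := fun z hz h' => (h.sub h').2 hz
  have hA0 : ∀ y ∈ A, y ∉ D.fc x := fun y hy => (h.sub hy).2
  have s1 := hf (D.fc1 x)
  have s5 := hf (D.fc5 x)
  have c : ∀ y ∈ S, v y = v x ∨ v y = v (D.p3 x) ∨ ∃ w ∈ S \ D.fc x, v w = v y := by
    intro y hy
    by_cases hy' : y ∈ D.fc x
    · rcases hlab y hy' with h' | h' | h'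
      · exact Or.inl h'
      · exact Or.inr (Or.inl h')
      · exact Or.inr (Or.inr ⟨a2 y, ⟨m.s2 y hy, h'⟩, m.v2 y hy⟩)
    · exact Or.inr (Or.inr ⟨y, ⟨hy, hy'⟩, rfl⟩)
  refine ⟨B D A x, ?_, ?_, ?_, ?_, ?_, ?_, ?_, ?_, ?_⟩
  · rintro y (hy | rfl | rfl)
    · exact (h.sub hy).1
    · exact s1
    · exact s5
  · rintro y (hy | rfl | rfl)
    · rw [out (fun k => hA0 y hy (D.mem_fc_a1.1 k))]
      exact h.na1 y hy
    · rw [D.a1_p1]
      exact nin hA (by simp) (by simp) (by simp)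
    · rw [D.a1_p5]
      exact nin hA (by simp) (by simp) (by simp)
  · rintro y (hy | rfl | rfl)
    · by_cases k : a2 y ∈ D.fc x
      · apply nin hA k
        · intro e
          apply hp1
          rw [← e, m.e2 y (h.sub hy).1]
          exact hy
        · intro e
          apply hp5
          rw [← e, m.e2 y (h.sub hy).1]
          exact hy
      · rw [out k, ← ca_out D a2 x k]
        exact h.na2 y hy
    · rintro (k | k | k)
      · exact hp1 k
      · exact m.n2 _ s1 k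
      · exact hne k
    · rintro (k | k | k)
      · exact hp5 k
      · apply hne
        rw [← k]
        exact m.e2 _ s5
      · exact m.n2 _ s5 k
  · rintro y (hy | rfl | rfl)
    · rw [out (fun k => hA0 y hy (D.mem_fc_a0.1 k))]
      exact h.u0 y hy
    · rw [D.a0_p1]
      exact nin hA (by simp) (by simp) (by simp)
    · rw [D.a0_p5]
      exact nin hA (by simp) (by simp) (by simp)
  · rintro y (hy | rfl | rfl)
    · rw [out (fun k => hA0 y hy (D.mem_fc_a1.1 (D.mem_fc_a0.1 k)))]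
      exact h.u1 y hy
    · rw [D.a1_p1, D.a0_p2]
      exact nin hA (by simp) (by simp) (by simp)
    · rw [D.a1_p5, D.a0_p6]
      exact nin hA (by simp) (by simp) (by simp)
  · rintro y (hy | rfl | rfl)
    · rw [out (fun k => hA0 y hy (D.mem_fc_a0.1 (D.mem_fc_a1.1 (D.mem_fc_a0.1 k))))]
      exact h.u3 y hy
    · rw [D.a0_p1, D.a1_x, D.a0_p7]
      exact nin hA (by simp) (by simp) (by simp)
    · rw [D.a0_p5, D.a1_p4, D.a0_p3]
      exact nin hA (by simp) (by simp) (by simp)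
  · intro y hy
    by_cases hy' : y ∈ D.fc x
    · rcases hy' with rfl | rfl | rfl | rfl | rfl | rfl | rfl | rfl
      · right; right; left
        rw [D.a0_x]
        exact Or.inr (Or.inl rfl)
      · left
        exact Or.inr (Or.inl rfl)
      · right; left
        rw [D.a1_p2]
        exact Or.inr (Or.inl rfl)
      · right; right; right
        rw [D.a1_p3, D.a0_p4]
        exact Or.inr (Or.inr rfl)
      · right; right; left
        rw [D.a0_p4]
        exact Or.inr (Or.inr rfl)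
      · left
        exact Or.inr (Or.inr rfl)
      · right; left
        rw [D.a1_p6]
        exact Or.inr (Or.inr rfl)
      · right; right; right
        rw [D.a1_p7, D.a0_x]
        exact Or.inr (Or.inl rfl)
    · rcases h.ex y ⟨hy, hy'⟩ with k | k | k | k
      · exact Or.inl (Or.inl k)
      · exact Or.inr (Or.inl (Or.inl k))
      · exact Or.inr (Or.inr (Or.inl (Or.inl k)))
      · exact Or.inr (Or.inr (Or.inr (Or.inl k)))
  · intro y hy
    have e := cnt0 D hf v (D.F (B D A x)) (D.F A) (fun z hz => Fout hz.2) (v y)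
    rw [fsB m hx hA] at e
    by_cases k1 : v y = v x
    · rw [k1] at e ⊢
      rw [h2, ind_pos rfl, ind_neg (fun k => hv k.symm)] at e
      push_cast at e
      omega
    by_cases k2 : v y = v (D.p3 x)
    · rw [k2] at e ⊢
      rw [h2', ind_pos rfl, ind_neg hv] at e
      push_cast at e
      omega
    rcases c y hy with k | k | ⟨w, hw, k⟩
    · exact absurd k k1
    · exact absurd k k2
    · have e2 := h.deg w hw
      rw [cv_o (by rw [k]; exact k2), k, cnt_other _ _ k1 k2] at e2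
      rw [e2, ind_neg (fun k => k1 k.symm), ind_neg (fun k => k2 k.symm)] at e
      push_cast at e
      omega
  · intro g g1 g2
    have s3 := hf (D.fc3 x)
    have key : ∀ y ∈ S, D.F (B D A x) y → (v y = v x ∨ v y = v (D.p3 x)) → (g y ↔ g x) := by
      intro y hy hF hl
      have q : g (D.p3 x) ↔ g x :=
        ⟨g2 _ s3 _ hx (F3 hA) (F0 hA) (by rw [D.fc_p3]; exact D.fc0 x),
          g2 _ hx _ s3 (F0 hA) (F3 hA) (D.fc3 x)⟩
      rcases hl with hl | hl
      · exact ⟨g1 _ hy _ hx hF (F0 hA) hl, g1 _ hx _ hy (F0 hA) hF hl.symm⟩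
      · rw [← q]
        exact ⟨g1 _ hy _ s3 hF (F3 hA) hl, g1 _ s3 _ hy (F3 hA) hF hl.symm⟩
    have st : ∀ y ∈ S \ D.fc x, ∀ z ∈ S \ D.fc x, D.F A y → D.F A z → g y → g z := by
      apply h.ham g
      · intro y hy z hz hFy hFz hl hg
        have hFy' := (Fout (A := A) hy.2).2 hFy
        have hFz' := (Fout (A := A) hz.2).2 hFz
        rcases (cv_iff y z).1 hl with k | ⟨k, k'⟩
        · exact g1 _ hy.1 _ hz.1 hFy' hFz' k hg
        · exact (key z hz.1 hFz' k').2 ((key y hy.1 hFy' k).1 hg)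
      · intro y hy z hz hFy hFz hl hg
        exact g2 _ hy.1 _ hz.1 ((Fout (A := A) hy.2).2 hFy) ((Fout (A := A) hz.2).2 hFz) hl hg
    obtain ⟨y0, hy0, hl0, hF0⟩ : ∃ y0, y0 ∈ S \ D.fc x ∧ v y0 = v x ∧ D.F A y0 := by
      by_contra hcon
      have : ({y | y ∈ S \ D.fc x ∧ v y = v x ∧ D.F A y} : Set Ω) = ∅ := by
        ext z
        simp only [Set.mem_setOf_eq, Set.mem_empty_iff_false, iff_false]
        intro hz
        exact hcon ⟨z, hz⟩
      unfold cnt at h2
      rw [this, Set.ncard_empty] at h2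
      omega
    have al : ∀ y ∈ S, D.F (B D A x) y → (g y ↔ g x) := by
      intro y hy hF
      by_cases hy' : y ∈ D.fc x
      · apply key y hy hF
        rcases hy' with rfl | rfl | rfl | rfl | rfl | rfl | rfl | rfl
        · exact Or.inl rfl
        · exact absurd hF F1
        · exact absurd hF F2
        · exact Or.inr rfl
        · exact Or.inr (m.v43 hx)
        · exact absurd hF F5
        · exact absurd hF F6
        · exact Or.inl (m.v7 hx)
      · have hFA := (Fout (A := A) hy').1 hF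
        have k0 := key y0 hy0.1 ((Fout (A := A) hy0.2).2 hF0) (Or.inl hl0)
        rw [← k0]
        exact ⟨st y ⟨hy, hy'⟩ y0 hy0 hFA hF0, st y0 hy0 y ⟨hy, hy'⟩ hF0 hFA⟩
    intro y hy z hz hFy hFz hg
    exact (al z hz hFz).2 ((al y hy hFy).1 hg)

end KQ
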