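import Pool.Agent.KQ.St

/-!
# LN: lift of the `A`-structure, face of type N, no free corner at `v`
-/

set_option autoImplicit false

namespace KQ

namespace KQ_LN

theorem main (Ω V : Type) [Finite Ω] (D : Oct Ω) (S : Set Ω) (a2 : Ω → Ω) (v : Ω → V)
    (A : Set Ω) (x : Ω) (m : Mp D S a2 v) (hx : x ∈ S) (hv : v x ≠ v (D.p3 x)) (tn : TN D a2 x)
    (h : Act D (S \ D.fc x) (ca D a2 x) (cv D v x) A)
    (h0 : cnt (S \ D.fc x) v (D.F A) (v x) = 0) (hA : a2 x ∈ A) : ∃ A', Act D S a2 v A' := by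
  have fS := m.fcS hx
  have e2 := m.e2f hx
  obtain ⟨V1, hV1⟩ : ∃ V1, V1 = a2 x := ⟨_, rfl⟩
  obtain ⟨A1, hA1⟩ : ∃ A1, A1 = a2 (D.p1 x) := ⟨_, rfl⟩
  rw [← hV1] at hA
  have eA : D.a0 V1 = A1 := by rw [hV1, hA1]; exact (m.c2 x hx).symm
  have eV : D.a0 A1 = V1 := by rw [← eA, D.e0]
  have sV1 : V1 ∈ S \ D.fc x := by rw [hV1]; exact ⟨m.s2 x hx, tn x (D.fc0 x)⟩
  have sA1 : A1 ∈ S \ D.fc x := by rw [← eA]; exact out_a0 m.s0 sV1
  have sV1' : D.a1 V1 ∈ S \ D.fc x := out_a1 m.s1 sV1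
  have sA1' : D.a1 A1 ∈ S \ D.fc x := out_a1 m.s1 sA1
  -- labels
  have lV1 : v V1 = v x := by rw [hV1]; exact m.v2 x hx
  have lV1' : v (D.a1 V1) = v x := by rw [m.v1 V1 sV1.1, lV1]
  have lA1 : v A1 = v (D.p1 x) := by rw [hA1]; exact m.v2 _ (fS (D.fc1 x))
  have lA1' : v (D.a1 A1) = v (D.p1 x) := by rw [m.v1 A1 sA1.1, lA1]
  -- flags which are not in `A`
  have aV1' : D.a1 V1 ∉ A := h.na1 _ hA
  have aA1 : A1 ∉ A := by rw [← eA]; exact h.u0 _ hA
  have aA1' : D.a1 A1 ∉ A := by rw [← eA]; exact h.u2 hA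
  have aO1 : D.a0 (D.a1 V1) ∉ A := h.u1 _ hA
  have aO2 : D.a0 (D.a1 A1) ∉ A := by rw [← eA]; exact h.u3 _ hA
  have aC1 : a2 (D.p3 x) ∉ A := by
    have := h.na2 _ hA
    rw [hV1, ca_N D tn (D.fc0 x) (e2 _ (D.fc0 x)), kp0] at this
    exact this
  -- count zero
  have c0 : ∀ y ∈ S \ D.fc x, v y = v x → ¬ D.F A y := by
    intro y hy hl hf
    have hz : ({y | y ∈ S \ D.fc x ∧ v y = v x ∧ D.F A y} : Set Ω).ncard = 0 := h0
    rw [Set.ncard_eq_zero (Set.toFinite _)] at hz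
    have hm : y ∈ ({y | y ∈ S \ D.fc x ∧ v y = v x ∧ D.F A y} : Set Ω) := ⟨hy, hl, hf⟩
    rw [hz] at hm
    exact hm
  have aB1 : a2 (D.p6 x) ∉ A := by
    have s7 : D.p7 x ∈ S := fS (D.fc7 x)
    have sV2 : a2 (D.p7 x) ∈ S \ D.fc x := ⟨m.s2 _ s7, tn _ (D.fc7 x)⟩
    have lV2 : v (a2 (D.p7 x)) = v x := by rw [m.v2 _ s7, m.v7 hx]
    have eB : a2 (D.p6 x) = D.a0 (a2 (D.p7 x)) := by
      rw [← m.c2 _ s7, D.a0_p7]
    rw [eB]
    have nf := c0 _ sV2 lV2
    rcases h.four sV2 with q | q | q | q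
    · exact q.2.2.1
    · exact q.2.2.1
    · exact absurd ⟨q.1, q.2.1⟩ nf
    · exact absurd ⟨q.1, q.2.1⟩ nf
  -- distinct flags
  have n1 : V1 ≠ D.a1 V1 := fun e => D.n1 V1 e.symm
  have n2 : V1 ≠ A1 := fun e => D.n0 V1 (eA.trans e.symm)
  have n4 : D.a1 V1 ≠ A1 := fun e => D.n01 V1 (eA.trans e.symm)
  have n3 : V1 ≠ D.a1 A1 := by
    intro e
    have e' := congrArg D.a1 e
    rw [D.e1] at e'
    exact n4 e'
  have n5 : D.a1 V1 ≠ D.a1 A1 := by
    intro e
    have e' := congrArg D.a1 e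
    rw [D.e1, D.e1] at e'
    exact n2 e'
  have n6 : A1 ≠ D.a1 A1 := fun e => D.n1 A1 e.symm
  -- the new set
  obtain ⟨A', hA'⟩ : ∃ A' : Set Ω, ∀ y, y ∈ A' ↔
      ((y ∈ A ∧ y ≠ V1) ∨ y = A1 ∨ y = D.p6 x ∨ y = D.p3 x) :=
    ⟨{y | (y ∈ A ∧ y ≠ V1) ∨ y = A1 ∨ y = D.p6 x ∨ y = D.p3 x}, fun _ => Iff.rfl⟩
  have io : ∀ y ∈ S \ D.fc x, (y ∈ A' ↔ ((y ∈ A ∧ y ≠ V1) ∨ y = A1)) := by
    intro y hy
    rw [hA' y]
    constructor
    · rintro (q | q | q | q)
      · exact Or.inl q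
      · exact Or.inr q
      · exact absurd (by rw [q]; exact D.fc6 x) hy.2
      · exact absurd (by rw [q]; exact D.fc3 x) hy.2
    · rintro (q | q)
      · exact Or.inl q
      · exact Or.inr (Or.inl q)
  have ii : ∀ y ∈ D.fc x, (y ∈ A' ↔ (y = D.p6 x ∨ y = D.p3 x)) := by
    intro y hy
    rw [hA' y]
    constructor
    · rintro (q | q | q | q)
      · exact absurd hy (h.sub q.1).2
      · exact absurd hy (by rw [q]; exact sA1.2)
      · exact Or.inl q
      · exact Or.inr q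
    · rintro (q | q)
      · exact Or.inr (Or.inr (Or.inl q))
      · exact Or.inr (Or.inr (Or.inr q))
  have i0 : x ∉ A' := by rw [ii _ (D.fc0 x)]; simp
  have i1 : D.p1 x ∉ A' := by rw [ii _ (D.fc1 x)]; simp
  have i2 : D.p2 x ∉ A' := by rw [ii _ (D.fc2 x)]; simp
  have i3 : D.p3 x ∈ A' := by rw [ii _ (D.fc3 x)]; simp
  have i4 : D.p4 x ∉ A' := by rw [ii _ (D.fc4 x)]; simp
  have i5 : D.p5 x ∉ A' := by rw [ii _ (D.fc5 x)]; simp
  have i6 : D.p6 x ∈ A' := by rw [ii _ (D.fc6 x)]; simp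
  have i7 : D.p7 x ∉ A' := by rw [ii _ (D.fc7 x)]; simp
  have iA1 : A1 ∈ A' := (hA' _).2 (Or.inr (Or.inl rfl))
  have iV1 : V1 ∉ A' := by
    rw [io _ sV1]
    rintro (q | q)
    · exact q.2 rfl
    · exact n2 q
  -- a flag of `A` outside `V1` stays
  have keep : ∀ y, y ∈ A → y ≠ V1 → y ∈ A' := fun y q q' => (hA' y).2 (Or.inl ⟨q, q'⟩)
  -- a flag which is not in `A` and not `A1` is not in `A'`
  have kout : ∀ y ∈ S \ D.fc x, y ∉ A → y ≠ A1 → y ∉ A' := by
    intro y hy q q'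
    rw [io y hy]
    rintro (r | r)
    · exact q r.1
    · exact q' r
  have o0 : ∀ {y : Ω}, y ∈ S \ D.fc x → D.a0 y ∈ S \ D.fc x := fun hy => out_a0 m.s0 hy
  have o1 : ∀ {y : Ω}, y ∈ S \ D.fc x → D.a1 y ∈ S \ D.fc x := fun hy => out_a1 m.s1 hy
  -- free corners
  have fV1 : D.F A' V1 := ⟨iV1, kout _ sV1' aV1' n4⟩
  have fV1' : D.F A' (D.a1 V1) := (D.F_a1 V1 A').2 fV1
  have fA1 : D.F A A1 := ⟨aA1, aA1'⟩
  have fA1' : D.F A (D.a1 A1) := (D.F_a1 A1 A).2 fA1
  have gA1 : ¬ D.F A' A1 := fun q => q.1 iA1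
  have gA1' : ¬ D.F A' (D.a1 A1) := fun q => gA1 ((D.F_a1 A1 A').1 q)
  have gV1 : ¬ D.F A V1 := fun q => q.1 hA
  have gV1' : ¬ D.F A (D.a1 V1) := fun q => gV1 ((D.F_a1 V1 A).1 q)
  have f0 : D.F A' x := ⟨i0, i7⟩
  have f7 : D.F A' (D.p7 x) := (D.F_p7 x A').2 f0
  have f1 : D.F A' (D.p1 x) := ⟨i1, by rw [D.a1_p1]; exact i2⟩
  have f2 : D.F A' (D.p2 x) := ⟨i2, by rw [D.a1_p2]; exact i1⟩
  have f3 : ¬ D.F A' (D.p3 x) := fun q => q.1 i3
  have f4 : ¬ D.F A' (D.p4 x) := fun q => q.2 (by rw [D.a1_p4]; exact i3)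
  have f5 : ¬ D.F A' (D.p5 x) := fun q => q.2 (by rw [D.a1_p5]; exact i6)
  have f6 : ¬ D.F A' (D.p6 x) := fun q => q.1 i6
  have fo : ∀ y ∈ S \ D.fc x, y ≠ V1 → y ≠ D.a1 V1 → y ≠ A1 → y ≠ D.a1 A1 →
      (D.F A' y ↔ D.F A y) := by
    intro y hy q1 q2 q3 q4
    have q2' : D.a1 y ≠ V1 := fun e => q2 (by rw [← e, D.e1])
    have q4' : D.a1 y ≠ A1 := fun e => q4 (by rw [← e, D.e1])
    unfold Oct.F
    rw [io y hy, io _ (o1 hy)]
    constructor
    · rintro ⟨r1, r2⟩
      exact ⟨fun r => r1 (Or.inl ⟨r, q1⟩), fun r => r2 (Or.inl ⟨r, q2'⟩)⟩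
    · rintro ⟨r1, r2⟩
      constructor
      · rintro (r | r)
        · exact r1 r.1
        · exact q3 r
      · rintro (r | r)
        · exact r2 r.1
        · exact q4' r
  -- the fields
  have hsub : A' ⊆ S := by
    intro y hy
    rcases (hA' y).1 hy with q | q | q | q
    · exact (h.sub q.1).1
    · rw [q]; exact sA1.1
    · rw [q]; exact fS (D.fc6 x)
    · rw [q]; exact fS (D.fc3 x)
  have hna1 : ∀ y ∈ A', D.a1 y ∉ A' := by
    intro y hy
    rcases (hA' y).1 hy with q | q | q | q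
    · apply kout _ (o1 (h.sub q.1)) (h.na1 _ q.1)
      intro e
      apply aA1'
      rw [← e, D.e1]
      exact q.1
    · rw [q]
      exact kout _ sA1' aA1' n6.symm
    · rw [q, D.a1_p6]; exact i5
    · rw [q, D.a1_p3]; exact i4
  have hna2 : ∀ y ∈ A', a2 y ∉ A' := by
    intro y hy
    rcases (hA' y).1 hy with q | q | q | q
    · have sy := h.sub q.1
      rcases m.outer hx sy with ⟨w1, w2, w3⟩ | ⟨z, hz, w1, w2⟩
      · apply kout _ w2
        · rw [← w3]; exact h.na2 _ q.1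
        · intro e
          rw [hA1] at e
          have := m.inj sy.1 (fS (D.fc1 x)) e
          apply sy.2
          rw [this]
          exact D.fc1 x
      · rw [w2, ii z hz]
        rintro (r | r)
        · apply aB1
          rw [← r, ← w1]
          exact q.1
        · apply aC1
          rw [← r, ← w1]
          exact q.1
    · rw [q, hA1, e2 _ (D.fc1 x)]; exact i1
    · rw [q]
      apply kout _ ⟨m.s2 _ (fS (D.fc6 x)), tn _ (D.fc6 x)⟩ aB1
      intro e
      rw [hA1] at e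
      exact (D.ne6_1 x) (m.inj (fS (D.fc6 x)) (fS (D.fc1 x)) e)
    · rw [q]
      apply kout _ ⟨m.s2 _ (fS (D.fc3 x)), tn _ (D.fc3 x)⟩ aC1
      intro e
      rw [hA1] at e
      exact (D.ne3_1 x) (m.inj (fS (D.fc3 x)) (fS (D.fc1 x)) e)
  have hu0 : ∀ y ∈ A', D.a0 y ∉ A' := by
    intro y hy
    rcases (hA' y).1 hy with q | q | q | q
    · apply kout _ (o0 (h.sub q.1)) (h.u0 _ q.1)
      intro e
      apply q.2
      rw [← eV, ← e, D.e0]
    · rw [q, eV]; exact iV1
    · rw [q, D.a0_p6]; exact i7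
    · rw [q, D.a0_p3]; exact i2
  have hu1 : ∀ y ∈ A', D.a0 (D.a1 y) ∉ A' := by
    intro y hy
    rcases (hA' y).1 hy with q | q | q | q
    · apply kout _ (o0 (o1 (h.sub q.1))) (h.u1 _ q.1)
      intro e
      apply aV1'
      rw [← eV, ← e, D.e0, D.e1]
      exact q.1
    · rw [q]
      apply kout _ (o0 sA1') aO2
      intro e
      apply n3
      rw [← eV, ← e, D.e0, e]
    · rw [q, D.a1_p6, D.a0_p5]; exact i4
    · rw [q, D.a1_p3, D.a0_p4]; exact i5
  have hu3 : ∀ y ∈ A', D.a0 (D.a1 (D.a0 y)) ∉ A' := by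
    intro y hy
    rcases (hA' y).1 hy with q | q | q | q
    · apply kout _ (o0 (o1 (o0 (h.sub q.1)))) (h.u3 _ q.1)
      intro e
      apply aO1
      rw [← eV, ← e, D.e0, D.e1, D.e0]
      exact q.1
    · rw [q, eV]
      apply kout _ (o0 sV1') aO1
      intro e
      have e' := congrArg D.a0 e
      rw [D.e0, eV] at e'
      exact n1 e'.symm
    · rw [q, D.a0_p6, D.a1_p7]; exact i1
    · rw [q, D.a0_p3, D.a1_p2, D.a0_p1]; exact i0
  have hex : ∀ y ∈ S, y ∈ A' ∨ D.a1 y ∈ A' ∨ D.a0 y ∈ A' ∨ D.a0 (D.a1 y) ∈ A' := by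
    intro y hy
    by_cases hf : y ∈ D.fc x
    · rcases hf with e | e | e | e | e | e | e | e
      · right; right; right; rw [e]; exact i6
      · right; right; right; rw [e, D.a1_p1, D.a0_p2]; exact i3
      · right; right; left; rw [e, D.a0_p2]; exact i3
      · left; rw [e]; exact i3
      · right; left; rw [e, D.a1_p4]; exact i3
      · right; left; rw [e, D.a1_p5]; exact i6
      · left; rw [e]; exact i6
      · right; right; left; rw [e, D.a0_p7]; exact i6
    · rcases h.ex y ⟨hy, hf⟩ with q | q | q | q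
      · by_cases e : y = V1
        · right; right; left; rw [e, eA]; exact iA1
        · left; exact keep _ q e
      · by_cases e : D.a1 y = V1
        · right; right; right; rw [e, eA]; exact iA1
        · right; left; exact keep _ q e
      · by_cases e : D.a0 y = V1
        · left
          have : y = A1 := by rw [← eA, ← e, D.e0]
          rw [this]; exact iA1
        · right; right; left; exact keep _ q e
      · by_cases e : D.a0 (D.a1 y) = V1
        · right; left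
          have : D.a1 y = A1 := by rw [← eA, ← e, D.e0]
          rw [this]; exact iA1
        · right; right; right; exact keep _ q e
  have hdeg : ∀ y ∈ S, cnt S v (D.F A') (v y) = 4 := by
    intro y hy
    obtain ⟨y', hy', e⟩ : ∃ y' ∈ S \ D.fc x, v y' = v y := by
      by_cases hf : y ∈ D.fc x
      · exact ⟨a2 y, ⟨m.s2 y hy, tn y hf⟩, m.v2 y hy⟩
      · exact ⟨y, ⟨hy, hf⟩, rfl⟩
    have c := cnt4 D fS v (D.F A') (D.F A) sV1 sV1' sA1 sA1' n1 n2 n3 n4 n5 n6 fo (v y)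
    unfold fs at c
    rw [lV1, lV1', lA1, lA1', m.v7 hx, m.v21 hx, ind_pos fV1, ind_pos fV1', ind_neg gV1,
      ind_neg gV1', ind_neg gA1, ind_neg gA1', ind_pos fA1, ind_pos fA1', ind_pos f0, ind_pos f1,
      ind_pos f2, ind_neg f3, ind_neg f4, ind_neg f5, ind_neg f6, ind_pos f7] at c
    have c' : (cnt S v (D.F A') (v y) : ℤ)
        = cnt (S \ D.fc x) v (D.F A) (v y) + 4 * ind (v x = v y) := by
      rw [c]; ring
    by_cases h1 : v x = v y
    · rw [ind_pos h1, ← h1, h0] at c'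
      rw [← h1]
      omega
    · rw [ind_neg h1] at c'
      have c4 : cnt (S \ D.fc x) v (D.F A) (v y) = 4 := by
        by_cases h2 : v (D.p3 x) = v y
        · have q := h.deg V1 sV1
          rw [cv_v lV1, cnt_merge _ _ hv, h0, h2] at q
          omega
        · have q := h.deg y' hy'
          rw [cv_o (by rw [e]; exact fun r => h2 r.symm), e,
            cnt_other _ _ (fun r => h1 r.symm) (fun r => h2 r.symm)] at q
          exact q
      rw [c4] at c'
      omega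
  have hham : ∀ g : Ω → Prop,
      (∀ y ∈ S, ∀ z ∈ S, D.F A' y → D.F A' z → v y = v z → g y → g z) →
      (∀ y ∈ S, ∀ z ∈ S, D.F A' y → D.F A' z → z ∈ D.fc y → g y → g z) →
      ∀ y ∈ S, ∀ z ∈ S, D.F A' y → D.F A' z → g y → g z := by
    intro g g1 g2
    have s0 : x ∈ S := hx
    have s1 : D.p1 x ∈ S := fS (D.fc1 x)
    have s2 : D.p2 x ∈ S := fS (D.fc2 x)
    have s7 : D.p7 x ∈ S := fS (D.fc7 x)
    -- the new flags
    have k0 : g (D.p1 x) ↔ g x :=
      ⟨g2 _ s1 _ s0 f1 f0 (by simp), g2 _ s0 _ s1 f0 f1 (by simp)⟩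
    have k2 : g (D.p1 x) ↔ g (D.p2 x) :=
      ⟨g2 _ s1 _ s2 f1 f2 (by simp), g2 _ s2 _ s1 f2 f1 (by simp)⟩
    have k7 : g (D.p1 x) ↔ g (D.p7 x) :=
      ⟨g2 _ s1 _ s7 f1 f7 (by simp), g2 _ s7 _ s1 f7 f1 (by simp)⟩
    have kV : g (D.p1 x) ↔ g V1 :=
      k0.trans ⟨g1 _ s0 _ sV1.1 f0 fV1 lV1.symm, g1 _ sV1.1 _ s0 fV1 f0 lV1⟩
    have kV' : g (D.p1 x) ↔ g (D.a1 V1) :=
      k0.trans ⟨g1 _ s0 _ sV1'.1 f0 fV1' lV1'.symm, g1 _ sV1'.1 _ s0 fV1' f0 lV1'⟩
    -- the map from old to new free flags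
    obtain ⟨w, wA, wB, wC⟩ : ∃ w : Ω → Ω, w A1 = D.p1 x ∧ w (D.a1 A1) = D.p1 x ∧
        ∀ y, y ≠ A1 → y ≠ D.a1 A1 → w y = y := by
      classical
      refine ⟨fun y => if y = A1 ∨ y = D.a1 A1 then D.p1 x else y, ?_, ?_, ?_⟩
      · exact if_pos (Or.inl rfl)
      · exact if_pos (Or.inr rfl)
      · intro y q1 q2
        apply if_neg
        rintro (q | q)
        · exact q1 q
        · exact q2 q
    have wS : ∀ y ∈ S \ D.fc x, w y ∈ S := by
      intro y hy
      by_cases q1 : y = A1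
      · rw [q1, wA]; exact s1
      by_cases q2 : y = D.a1 A1
      · rw [q2, wB]; exact s1
      rw [wC y q1 q2]; exact hy.1
    have wv : ∀ y ∈ S \ D.fc x, v (w y) = v y := by
      intro y hy
      by_cases q1 : y = A1
      · rw [q1, wA, lA1]
      by_cases q2 : y = D.a1 A1
      · rw [q2, wB, lA1']
      rw [wC y q1 q2]
    have nV : ∀ y, D.F A y → y ≠ V1 := fun y q e => gV1 (e ▸ q)
    have nV' : ∀ y, D.F A y → y ≠ D.a1 V1 := fun y q e => gV1' (e ▸ q)
    have wF : ∀ y ∈ S \ D.fc x, D.F A y → D.F A' (w y) := by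
      intro y hy hf
      by_cases q1 : y = A1
      · rw [q1, wA]; exact f1
      by_cases q2 : y = D.a1 A1
      · rw [q2, wB]; exact f1
      rw [wC y q1 q2]
      exact (fo y hy (nV y hf) (nV' y hf) q1 q2).2 hf
    -- same label
    have r1 : ∀ y ∈ S \ D.fc x, ∀ z ∈ S \ D.fc x, D.F A y → D.F A z →
        cv D v x y = cv D v x z → g (w y) → g (w z) := by
      intro y hy z hz hfy hfz e
      have e' : v y = v z := by
        rcases (cv_iff y z).1 e with q | ⟨q1, q2⟩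
        · exact q
        · rcases q1 with q1 | q1
          · exact absurd hfy (c0 y hy q1)
          · rcases q2 with q2 | q2
            · exact absurd hfz (c0 z hz q2)
            · rw [q1, q2]
      exact g1 _ (wS y hy) _ (wS z hz) (wF y hy hfy) (wF z hz hfz) (by rw [wv y hy, wv z hz, e'])
    -- same face
    have fcA : D.fc A1 = D.fc V1 := by rw [← eA, D.fc_a0]
    have r2 : ∀ y ∈ S \ D.fc x, ∀ z ∈ S \ D.fc x, D.F A y → D.F A z →
        z ∈ D.fc y → g (w y) → g (w z) := by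
      intro y hy z hz hfy hfz e
      by_cases py : y = A1 ∨ y = D.a1 A1
      · have ey : w y = D.p1 x := by
          rcases py with q | q
          · rw [q, wA]
          · rw [q, wB]
        have fy : D.fc y = D.fc V1 := by
          rcases py with q | q
          · rw [q, fcA]
          · rw [q, D.fc_a1, fcA]
        by_cases pz : z = A1 ∨ z = D.a1 A1
        · have ez : w z = D.p1 x := by
            rcases pz with q | q
            · rw [q, wA]
            · rw [q, wB]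
          rw [ey, ez]
          exact fun q => q
        · have pz1 : z ≠ A1 := fun q => pz (Or.inl q)
          have pz2 : z ≠ D.a1 A1 := fun q => pz (Or.inr q)
          rw [ey, wC z pz1 pz2, kV]
          exact g2 _ sV1.1 _ hz.1 fV1 ((fo z hz (nV z hfz) (nV' z hfz) pz1 pz2).2 hfz)
            (by rw [← fy]; exact e)
      · have py1 : y ≠ A1 := fun q => py (Or.inl q)
        have py2 : y ≠ D.a1 A1 := fun q => py (Or.inr q)
        have fy := (fo y hy (nV y hfy) (nV' y hfy) py1 py2).2 hfy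
        by_cases pz : z = A1 ∨ z = D.a1 A1
        · have ez : w z = D.p1 x := by
            rcases pz with q | q
            · rw [q, wA]
            · rw [q, wB]
          have fz : D.fc z = D.fc V1 := by
            rcases pz with q | q
            · rw [q, fcA]
            · rw [q, D.fc_a1, fcA]
          rw [ez, wC y py1 py2, kV]
          apply g2 _ hy.1 _ sV1.1 fy fV1
          rw [← D.fc_eq e, fz]
          exact D.fc0 V1
        · have pz1 : z ≠ A1 := fun q => pz (Or.inl q)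
          have pz2 : z ≠ D.a1 A1 := fun q => pz (Or.inr q)
          rw [wC y py1 py2, wC z pz1 pz2]
          exact g2 _ hy.1 _ hz.1 fy ((fo z hz (nV z hfz) (nV' z hfz) pz1 pz2).2 hfz) e
    have r3 := h.ham (fun y => g (w y)) r1 r2
    -- every new free flag is equivalent to an old one
    have r4 : ∀ y ∈ S, D.F A' y → ∃ y0 ∈ S \ D.fc x, D.F A y0 ∧ (g y ↔ g (w y0)) := by
      intro y hy hf
      by_cases hc : y ∈ D.fc x
      · refine ⟨A1, sA1, fA1, ?_⟩
        rw [wA]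
        rcases hc with e | e | e | e | e | e | e | e
        · rw [e]; exact k0.symm
        · rw [e]
        · rw [e]; exact k2.symm
        · rw [e] at hf; exact absurd hf f3
        · rw [e] at hf; exact absurd hf f4
        · rw [e] at hf; exact absurd hf f5
        · rw [e] at hf; exact absurd hf f6
        · rw [e]; exact k7.symm
      · have sy : y ∈ S \ D.fc x := ⟨hy, hc⟩
        by_cases q1 : y = V1
        · refine ⟨A1, sA1, fA1, ?_⟩
          rw [wA, q1]; exact kV.symm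
        by_cases q2 : y = D.a1 V1
        · refine ⟨A1, sA1, fA1, ?_⟩
          rw [wA, q2]; exact kV'.symm
        have q3 : y ≠ A1 := by
          intro e
          rw [e] at hf
          exact gA1 hf
        have q4 : y ≠ D.a1 A1 := by
          intro e
          rw [e] at hf
          exact gA1' hf
        refine ⟨y, sy, (fo y sy q1 q2 q3 q4).1 hf, ?_⟩
        rw [wC y q3 q4]
    intro y hy z hz hfy hfz
    obtain ⟨y0, sy0, fy0, ey0⟩ := r4 y hy hfy
    obtain ⟨z0, sz0, fz0, ez0⟩ := r4 z hz hfz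
    rw [ey0, ez0]
    exact r3 y0 sy0 z0 sz0 fy0 fz0
  exact ⟨A', ⟨hsub, hna1, hna2, hu0, hu1, hu3, hex, hdeg, hham⟩⟩

end KQ_LN

/-- LN: lift, type N, no free corner at `v` -/
theorem t_LN : S_LN := by
  intro Ω V _ D S a2 v A x m hx hv tn h h0 hA
  exact KQ_LN.main Ω V D S a2 v A x m hx hv tn h h0 hA

end KQ
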