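import Pool.Agent.KQ.St

/-!
# Induction on the number of faces
-/

set_option autoImplicit false

namespace KQ

theorem t_MA (cn : S_CN) (c1 : S_C1) (c2 : S_C2) (os : S_OS) (oc : S_OC) (op : S_OP) (o1 : S_O1)
    (o2 : S_O2) (xn : S_XN) (x1 : S_X1) (x2 : S_X2) (fi : S_FI) (ba : S_BA) : S_MA := by
  intro Ω V _ D
  have key : ∀ n : ℕ, ∀ (S : Set Ω) (a2 : Ω → Ω) (v : Ω → V) (T : Set Ω), S.ncard = n →
      Mp D S a2 v → Ori D S a2 v T → ∃ A, Act D S a2 v A := by
    intro n
    induction n using Nat.strong_induction_on with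
    | _ n ih =>
      intro S a2 v T hn m t
      by_cases hb : ∀ x ∈ S, v x = v (D.p3 x)
      · exact ba Ω V D S a2 v T m t hb
      push Not at hb
      obtain ⟨x0, hx0, hv0⟩ := hb
      obtain ⟨x, hx, hv, hty⟩ := fi Ω V D S a2 v T x0 m t hx0 hv0
      have hlt : (S \ D.fc x).ncard < n := by
        rw [← hn]
        apply Set.ncard_lt_ncard _ (Set.toFinite S)
        refine ⟨fun y hy => hy.1, fun h => ?_⟩
        exact (h hx).2 (D.fc0 x)
      rcases hty with h1 | h2 | ⟨hN, hor⟩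
      · obtain ⟨T', hT'⟩ := o1 Ω V D S a2 v T x m t hx hv h1
        exact x1 Ω V D S a2 v x m hx hv h1
          (ih _ hlt _ _ _ T' rfl (c1 Ω V D S a2 v x m hx hv h1) hT')
      · obtain ⟨T', hT'⟩ := o2 Ω V D S a2 v T x m t hx hv h2
        exact x2 Ω V D S a2 v x m hx hv h2
          (ih _ hlt _ _ _ T' rfl (c2 Ω V D S a2 v x m hx hv h2) hT')
      · have hT : ∃ T', Ori D (S \ D.fc x) (ca D a2 x) (cv D v x) T' := by
          rcases hor with h | h | h
          · exact os Ω V D S a2 v T x m t hx hv hN h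
          · exact oc Ω V D S a2 v T x m t hx hv hN h
          · exact op Ω V D S a2 v T x m t hx hv hN h
        obtain ⟨T', hT'⟩ := hT
        exact xn Ω V D S a2 v x m hx hv hN
          (ih _ hlt _ _ _ T' rfl (cn Ω V D S a2 v x m hx hv hN) hT')
  intro S a2 v T m t
  exact key _ S a2 v T rfl m t

end KQ
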