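import Pool.Agent.KQ.St

/-!
# O2: orientation of the contraction, type D2
-/

set_option autoImplicit false

namespace KQ

namespace KQ_O2

variable {Ω V : Type}

/-- the new orientation -/
def TT (D : Oct Ω) (a2 : Ω → Ω) (T : Set Ω) (x : Ω) : Set Ω :=
  {y | (y ∈ T ∧ y ≠ a2 (D.p2 x) ∧ y ≠ a2 (D.p7 x)) ∨ y = a2 (D.p3 x) ∨ y = a2 (D.p6 x)}

variable {D : Oct Ω} {S : Set Ω} {a2 : Ω → Ω} {v : Ω → V} {T : Set Ω} {x : Ω}

theorem TT_other {y : Ω} (n2 : y ≠ a2 (D.p2 x)) (n3 : y ≠ a2 (D.p3 x)) (n6 : y ≠ a2 (D.p6 x))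
    (n7 : y ≠ a2 (D.p7 x)) : y ∈ TT D a2 T x ↔ y ∈ T := by
  constructor
  · rintro (h | h | h)
    · exact h.1
    · exact absurd h n3
    · exact absurd h n6
  · intro h
    exact Or.inl ⟨h, n2, n7⟩

theorem ne_of (m : Mp D S a2 v) (hx : x ∈ S) {y z : Ω} (hy : y ∈ D.fc x) (hz : z ∈ D.fc x)
    (h : y ≠ z) : a2 y ≠ a2 z :=
  fun e => h (m.inj (m.fcS hx hy) (m.fcS hx hz) e)

end KQ_O2

open KQ_O2 in
theorem t_O2 : S_O2 := by
  intro Ω V _ D S a2 v T x m o hx hv h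
  classical
  have hf := m.fcS hx
  obtain ⟨h0, h1, h2, h3, h6, h7⟩ := id h
  have e0 := m.e2f hx
  have hc : ∀ z ∈ D.fc x, D.a0 (a2 z) = a2 (D.a0 z) := fun z hz => (m.c2 z (hf hz)).symm
  have mA : a2 (D.p2 x) ∈ S \ D.fc x := ⟨m.s2 _ (hf (D.fc2 x)), h2⟩
  have mC : a2 (D.p3 x) ∈ S \ D.fc x := ⟨m.s2 _ (hf (D.fc3 x)), h3⟩
  have mB : a2 (D.p6 x) ∈ S \ D.fc x := ⟨m.s2 _ (hf (D.fc6 x)), h6⟩
  have mV : a2 (D.p7 x) ∈ S \ D.fc x := ⟨m.s2 _ (hf (D.fc7 x)), h7⟩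
  have n23 : a2 (D.p2 x) ≠ a2 (D.p3 x) := ne_of m hx (D.fc2 x) (D.fc3 x) (D.ne2_3 x)
  have n26 : a2 (D.p2 x) ≠ a2 (D.p6 x) := ne_of m hx (D.fc2 x) (D.fc6 x) (D.ne2_6 x)
  have n27 : a2 (D.p2 x) ≠ a2 (D.p7 x) := ne_of m hx (D.fc2 x) (D.fc7 x) (D.ne2_7 x)
  have n36 : a2 (D.p3 x) ≠ a2 (D.p6 x) := ne_of m hx (D.fc3 x) (D.fc6 x) (D.ne3_6 x)
  have n37 : a2 (D.p3 x) ≠ a2 (D.p7 x) := ne_of m hx (D.fc3 x) (D.fc7 x) (D.ne3_7 x)
  have n67 : a2 (D.p6 x) ≠ a2 (D.p7 x) := ne_of m hx (D.fc6 x) (D.fc7 x) (D.ne6_7 x)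
  have tA : a2 (D.p2 x) ∉ TT D a2 T x := by
    rintro (a | a | a)
    · exact a.2.1 rfl
    · exact n23 a
    · exact n26 a
  have tV : a2 (D.p7 x) ∉ TT D a2 T x := by
    rintro (a | a | a)
    · exact a.2.2 rfl
    · exact n37 a.symm
    · exact n67 a.symm
  have tC : a2 (D.p3 x) ∈ TT D a2 T x := Or.inr (Or.inl rfl)
  have tB : a2 (D.p6 x) ∈ TT D a2 T x := Or.inr (Or.inr rfl)
  have a0A : D.a0 (a2 (D.p2 x)) = a2 (D.p3 x) := by rw [hc _ (D.fc2 x), D.a0_p2]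
  have a0C : D.a0 (a2 (D.p3 x)) = a2 (D.p2 x) := by rw [hc _ (D.fc3 x), D.a0_p3]
  have a0B : D.a0 (a2 (D.p6 x)) = a2 (D.p7 x) := by rw [hc _ (D.fc6 x), D.a0_p6]
  have a0V : D.a0 (a2 (D.p7 x)) = a2 (D.p6 x) := by rw [hc _ (D.fc7 x), D.a0_p7]
  refine ⟨TT D a2 T x, ?_, ?_, ?_⟩
  · -- t0
    intro y hy
    by_cases y2 : y = a2 (D.p2 x)
    · subst y2; rw [a0A]; exact ⟨fun _ => tA, fun _ => tC⟩
    by_cases y3 : y = a2 (D.p3 x)
    · subst y3; rw [a0C]; exact ⟨fun a => absurd a tA, fun a => absurd tC a⟩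
    by_cases y6 : y = a2 (D.p6 x)
    · subst y6; rw [a0B]; exact ⟨fun a => absurd a tV, fun a => absurd tB a⟩
    by_cases y7 : y = a2 (D.p7 x)
    · subst y7; rw [a0V]; exact ⟨fun _ => tV, fun _ => tB⟩
    rw [TT_other y2 y3 y6 y7, TT_other (y := D.a0 y), o.t0 y hy.1]
    · intro e; apply y3; rw [← D.e0 y, e, a0A]
    · intro e; apply y2; rw [← D.e0 y, e, a0C]
    · intro e; apply y7; rw [← D.e0 y, e, a0B]
    · intro e; apply y6; rw [← D.e0 y, e, a0V]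
  · -- t2
    intro y hy
    rcases m.outer hx hy with ⟨h8, -, h9⟩ | ⟨z, hz, h8, h9⟩
    · have q : ∀ z ∈ D.fc x, y ≠ a2 z := by
        intro z hz e
        apply h8
        rw [e, e0 z hz]; exact hz
      have q' : ∀ z ∈ D.fc x, a2 y ≠ a2 z := by
        intro z hz e
        exact hy.2 (by rw [m.inj hy.1 (hf hz) e]; exact hz)
      rw [h9, TT_other (q _ (D.fc2 x)) (q _ (D.fc3 x)) (q _ (D.fc6 x)) (q _ (D.fc7 x)),
        TT_other (q' _ (D.fc2 x)) (q' _ (D.fc3 x)) (q' _ (D.fc6 x)) (q' _ (D.fc7 x)),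
        o.t2 y hy.1]
    · subst h8
      rcases hz with rfl | rfl | rfl | rfl | rfl | rfl | rfl | rfl
      · exact absurd (by rw [h0]; simp) hy.2
      · exact absurd (by rw [h1]; simp) hy.2
      · rw [ca_D2_2 D h e0]; exact ⟨fun a => absurd a tV, fun a => absurd a tA⟩
      · rw [ca_D2_3 D h e0]; exact ⟨fun _ => tC, fun _ => tB⟩
      · exact absurd (by rw [← h1, e0 _ (D.fc1 _)]; simp) hy.2
      · exact absurd (by rw [← h0, e0 _ (D.fc0 _)]; simp) hy.2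
      · rw [ca_D2_6 D h e0]; exact ⟨fun _ => tB, fun _ => tC⟩
      · rw [ca_D2_7 D h e0]; exact ⟨fun a => absurd a tA, fun a => absurd a tV⟩
  · -- degrees
    have l7 := m.v7 hx
    have l21 := m.v21 hx
    have l43 := m.v43 hx
    have l56 := m.v56 hx
    have l5 : v (D.p5 x) = v x := by rw [← h0]; exact m.v2 x hx
    have l4 : v (D.p4 x) = v (D.p1 x) := by rw [← h1]; exact m.v2 _ (hf (D.fc1 x))
    have lx6 : v (D.p6 x) = v x := by rw [← l56, l5]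
    have lx1 : v (D.p1 x) = v (D.p3 x) := by rw [← l4, l43]
    have lA : v (a2 (D.p2 x)) = v (D.p3 x) := by rw [m.v2 _ (hf (D.fc2 x)), l21, lx1]
    have lC : v (a2 (D.p3 x)) = v (D.p3 x) := m.v2 _ (hf (D.fc3 x))
    have lB : v (a2 (D.p6 x)) = v x := by rw [m.v2 _ (hf (D.fc6 x)), lx6]
    have lV : v (a2 (D.p7 x)) = v x := by rw [m.v2 _ (hf (D.fc7 x)), l7]
    -- values of the orientation
    have i1 : ind (D.p1 x ∈ T) = 1 - ind (x ∈ T) := by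
      rw [← ind_not]; exact ind_congr (o.t0 x hx)
    have i3 : ind (D.p3 x ∈ T) = 1 - ind (D.p2 x ∈ T) := by
      rw [← ind_not]
      have := o.t0 _ (hf (D.fc2 x))
      rw [D.a0_p2] at this
      exact ind_congr this
    have i7 : ind (D.p7 x ∈ T) = 1 - ind (D.p6 x ∈ T) := by
      rw [← ind_not]
      have := o.t0 _ (hf (D.fc6 x))
      rw [D.a0_p6] at this
      exact ind_congr this
    have i5 : ind (D.p5 x ∈ T) = ind (x ∈ T) := by
      have := o.t2 x hx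
      rw [h0] at this
      exact ind_congr this
    have i4 : ind (D.p4 x ∈ T) = 1 - ind (x ∈ T) := by
      have := o.t2 _ (hf (D.fc1 x))
      rw [h1] at this
      rw [ind_congr this, i1]
    have iA : ind (a2 (D.p2 x) ∈ T) = ind (D.p2 x ∈ T) := ind_congr (o.t2 _ (hf (D.fc2 x)))
    have iC : ind (a2 (D.p3 x) ∈ T) = 1 - ind (D.p2 x ∈ T) := by
      rw [← i3]; exact ind_congr (o.t2 _ (hf (D.fc3 x)))
    have iB : ind (a2 (D.p6 x) ∈ T) = ind (D.p6 x ∈ T) := ind_congr (o.t2 _ (hf (D.fc6 x)))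
    have iV : ind (a2 (D.p7 x) ∈ T) = 1 - ind (D.p6 x ∈ T) := by
      rw [← i7]; exact ind_congr (o.t2 _ (hf (D.fc7 x)))
    have key := cnt4 D hf v (fun y => y ∈ T) (fun y => y ∈ TT D a2 T x) mA mC mB mV n23 n26 n27
      n36 n37 n67 (fun y _ b2 b3 b6 b7 => (TT_other b2 b3 b6 b7).symm)
    have key2 : ∀ u, (cnt S v (fun y => y ∈ T) u : ℤ) =
        cnt (S \ D.fc x) v (fun y => y ∈ TT D a2 T x) u +
          ind (v x = u) * (2 * ind (x ∈ T) + 1) + ind (v (D.p3 x) = u) * (3 - 2 * ind (x ∈ T)) := by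
      intro u
      rw [key u]
      unfold fs
      simp only [l7, l21, l43, l56, lx6, lx1, lA, lC, lB, lV, i1, i3, i7, i5, i4, iA, iC, iB, iV,
        ind_neg tA, ind_neg tV, ind_pos tC, ind_pos tB]
      ring
    have kv := key2 (v x)
    have kc := key2 (v (D.p3 x))
    have z1 : ind (v x = v x) = 1 := ind_pos rfl
    have z2 : ind (v (D.p3 x) = v (D.p3 x)) = 1 := ind_pos rfl
    have z3 : ind (v (D.p3 x) = v x) = 0 := ind_neg fun e => hv e.symm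
    have z4 : ind (v x = v (D.p3 x)) = 0 := ind_neg hv
    rw [o.deg x hx, z1, z3] at kv
    rw [o.deg _ (hf (D.fc3 x)), z2, z4] at kc
    intro y hy
    by_cases hy1 : v y = v x ∨ v y = v (D.p3 x)
    · rw [(cv_eq_v hv).2 hy1, cnt_merge _ _ hv]
      push_cast at kv kc
      omega
    · push Not at hy1
      rw [cv_o hy1.2, cnt_other _ _ hy1.1 hy1.2]
      have ku := key2 (v y)
      have z5 : ind (v x = v y) = 0 := ind_neg fun e => hy1.1 e.symm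
      have z6 : ind (v (D.p3 x) = v y) = 0 := ind_neg fun e => hy1.2 e.symm
      rw [o.deg y hy.1, z5, z6] at ku
      push_cast at ku
      omega

end KQ
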