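import Pool.Agent.KQ.St

/-!
# OC: orientation of the contraction of a face of type N, directed cycle

The four outer flags `a2 x`, `a2 (p4 x)`, `a2 (p1 x)`, `a2 (p5 x)` are flipped.
-/

set_option autoImplicit false

namespace KQ

namespace KQ_OC

variable {Ω V : Type}

/-- the four exceptional flags -/
def E (D : Oct Ω) (a2 : Ω → Ω) (x : Ω) : Set Ω :=
  {y | y = a2 x ∨ y = a2 (D.p4 x) ∨ y = a2 (D.p1 x) ∨ y = a2 (D.p5 x)}

/-- the new orientation: `T` flipped on `E` -/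
def T' (D : Oct Ω) (a2 : Ω → Ω) (x : Ω) (T : Set Ω) : Set Ω :=
  {y | (y ∈ T ∧ y ∉ E D a2 x) ∨ (y ∉ T ∧ y ∈ E D a2 x)}

variable {D : Oct Ω} {S : Set Ω} {a2 : Ω → Ω} {v : Ω → V} {x : Ω} {T : Set Ω}

theorem E_a0 (m : Mp D S a2 v) (hx : x ∈ S) {y : Ω} (h : y ∈ E D a2 x) : D.a0 y ∈ E D a2 x := by
  have hf := m.fcS hx
  rcases h with rfl | rfl | rfl | rfl
  · rw [← m.c2 _ hx]
    exact Or.inr (Or.inr (Or.inl rfl))
  · rw [← m.c2 _ (hf (D.fc4 x)), D.a0_p4]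
    exact Or.inr (Or.inr (Or.inr rfl))
  · rw [← m.c2 _ (hf (D.fc1 x)), D.a0_p1]
    exact Or.inl rfl
  · rw [← m.c2 _ (hf (D.fc5 x)), D.a0_p5]
    exact Or.inr (Or.inl rfl)

theorem E_a0_iff (m : Mp D S a2 v) (hx : x ∈ S) (y : Ω) :
    D.a0 y ∈ E D a2 x ↔ y ∈ E D a2 x := by
  constructor
  · intro h
    have := E_a0 m hx h
    rwa [D.e0] at this
  · exact E_a0 m hx

theorem E_a2 (m : Mp D S a2 v) (hx : x ∈ S) {z : Ω} (hz : z ∈ D.fc x) :
    a2 z ∈ E D a2 x ↔ (z = x ∨ z = D.p4 x ∨ z = D.p1 x ∨ z = D.p5 x) := by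
  have hf := m.fcS hx
  constructor
  · rintro (h | h | h | h)
    · exact Or.inl (m.inj (hf hz) hx h)
    · exact Or.inr (Or.inl (m.inj (hf hz) (hf (D.fc4 x)) h))
    · exact Or.inr (Or.inr (Or.inl (m.inj (hf hz) (hf (D.fc1 x)) h)))
    · exact Or.inr (Or.inr (Or.inr (m.inj (hf hz) (hf (D.fc5 x)) h)))
  · rintro (h | h | h | h)
    · exact Or.inl (by rw [h])
    · exact Or.inr (Or.inl (by rw [h]))
    · exact Or.inr (Or.inr (Or.inl (by rw [h])))
    · exact Or.inr (Or.inr (Or.inr (by rw [h])))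

/-- membership of the outer flags in the new orientation -/
theorem T'_a2 (m : Mp D S a2 v) (o : Ori D S a2 v T) (hx : x ∈ S) {z : Ω} (hz : z ∈ D.fc x) :
    a2 z ∈ T' D a2 x T ↔ ((z ∈ T ∧ ¬ (z = x ∨ z = D.p4 x ∨ z = D.p1 x ∨ z = D.p5 x)) ∨
      (z ∉ T ∧ (z = x ∨ z = D.p4 x ∨ z = D.p1 x ∨ z = D.p5 x))) := by
  have h := o.t2 z (m.fcS hx hz)
  have h' := E_a2 m hx hz
  unfold T'
  simp only [Set.mem_setOf_eq]
  rw [h, h']

end KQ_OC

open KQ_OC in
/-- OC -/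
theorem t_OC : S_OC := by
  intro Ω V _ D S a2 v T x m o hx hv hN hs
  obtain ⟨h0, h2, h4, h6⟩ := hs
  have hf := m.fcS hx
  have h1 : D.p1 x ∉ T := fun h => (o.t0 x hx).1 h h0
  have h3 : D.p3 x ∉ T := by
    intro h
    have := (o.t0 _ (hf (D.fc2 x))).1 (by rw [D.a0_p2]; exact h)
    exact this h2
  have h5 : D.p5 x ∉ T := by
    intro h
    have := (o.t0 _ (hf (D.fc4 x))).1 (by rw [D.a0_p4]; exact h)
    exact this h4
  have h7 : D.p7 x ∉ T := by
    intro h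
    have := (o.t0 _ (hf (D.fc6 x))).1 (by rw [D.a0_p6]; exact h)
    exact this h6
  -- the values of the new orientation
  have k0 : a2 x ∉ T' D a2 x T := by
    rw [T'_a2 m o hx (D.fc0 x)]; simp [h0]
  have k1 : a2 (D.p1 x) ∈ T' D a2 x T := by
    rw [T'_a2 m o hx (D.fc1 x)]; simp [h1]
  have k2 : a2 (D.p2 x) ∈ T' D a2 x T := by
    rw [T'_a2 m o hx (D.fc2 x)]; simp [h2]
  have k3 : a2 (D.p3 x) ∉ T' D a2 x T := by
    rw [T'_a2 m o hx (D.fc3 x)]; simp [h3]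
  have k4 : a2 (D.p4 x) ∉ T' D a2 x T := by
    rw [T'_a2 m o hx (D.fc4 x)]; simp [h4]
  have k5 : a2 (D.p5 x) ∈ T' D a2 x T := by
    rw [T'_a2 m o hx (D.fc5 x)]; simp [h5]
  have k6 : a2 (D.p6 x) ∈ T' D a2 x T := by
    rw [T'_a2 m o hx (D.fc6 x)]; simp [h6]
  have k7 : a2 (D.p7 x) ∉ T' D a2 x T := by
    rw [T'_a2 m o hx (D.fc7 x)]; simp [h7]
  have hout : ∀ z ∈ D.fc x, a2 z ∈ S \ D.fc x := fun z hz => ⟨m.s2 z (hf hz), hN z hz⟩
  -- counting
  have hc : ∀ u : V, (cnt S v (fun y => y ∈ T) u : ℤ) =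
      cnt (S \ D.fc x) v (fun y => y ∈ T' D a2 x T) u + 2 * ind (v x = u)
        + 2 * ind (v (D.p3 x) = u) := by
    intro u
    have hh := cnt4 D hf v (fun y => y ∈ T) (fun y => y ∈ T' D a2 x T)
      (hout _ (D.fc0 x)) (hout _ (D.fc4 x)) (hout _ (D.fc1 x)) (hout _ (D.fc5 x))
      (fun h => D.ne0_4 x (m.inj hx (hf (D.fc4 x)) h))
      (fun h => D.ne0_1 x (m.inj hx (hf (D.fc1 x)) h))
      (fun h => D.ne0_5 x (m.inj hx (hf (D.fc5 x)) h))
      (fun h => D.ne4_1 x (m.inj (hf (D.fc4 x)) (hf (D.fc1 x)) h))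
      (fun h => D.ne4_5 x (m.inj (hf (D.fc4 x)) (hf (D.fc5 x)) h))
      (fun h => D.ne1_5 x (m.inj (hf (D.fc1 x)) (hf (D.fc5 x)) h))
      (by
        intro y hy n1 n2 n3 n4
        have hE : y ∉ E D a2 x := by
          rintro (h | h | h | h)
          · exact n1 h
          · exact n2 h
          · exact n3 h
          · exact n4 h
        unfold T'
        simp only [Set.mem_setOf_eq]
        tauto) u
    rw [hh]
    unfold fs
    simp only [m.v2 _ hx, m.v2 _ (hf (D.fc4 x)), m.v2 _ (hf (D.fc1 x)),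
      m.v2 _ (hf (D.fc5 x)), m.v7 hx, m.v21 hx, m.v43 hx, m.v56 hx]
    have q4 : a2 (D.p4 x) ∈ T := (o.t2 _ (hf (D.fc4 x))).2 h4
    have q0 : a2 x ∈ T := (o.t2 _ hx).2 h0
    have q5 : a2 (D.p5 x) ∉ T := fun h => h5 ((o.t2 _ (hf (D.fc5 x))).1 h)
    have q1 : a2 (D.p1 x) ∉ T := fun h => h1 ((o.t2 _ (hf (D.fc1 x))).1 h)
    rw [ind_pos h0, ind_neg h1, ind_pos h2, ind_neg h3, ind_pos h4, ind_neg h5, ind_pos h6,
      ind_neg h7, ind_neg k4, ind_neg k0, ind_pos k5, ind_pos k1, ind_pos q4, ind_pos q0,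
      ind_neg q5, ind_neg q1]
    ring
  refine ⟨T' D a2 x T, ?_, ?_, ?_⟩
  · intro y hy
    have e0 := E_a0_iff m hx y
    have t0 := o.t0 y hy.1
    unfold T'
    simp only [Set.mem_setOf_eq]
    rw [e0, t0]
    tauto
  · intro y hy
    rcases m.outer hx hy with ⟨a, b, c⟩ | ⟨z, hz, rfl, _⟩
    · rw [c]
      have n1 : y ∉ E D a2 x := by
        rintro (h | h | h | h)
        · apply a; rw [h, m.e2f hx _ (D.fc0 x)]; simp
        · apply a; rw [h, m.e2f hx _ (D.fc4 x)]; simp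
        · apply a; rw [h, m.e2f hx _ (D.fc1 x)]; simp
        · apply a; rw [h, m.e2f hx _ (D.fc5 x)]; simp
      have n2 : a2 y ∉ E D a2 x := by
        rintro (h | h | h | h)
        · apply hy.2; rw [m.inj hy.1 hx h]; simp
        · apply hy.2; rw [m.inj hy.1 (hf (D.fc4 x)) h]; simp
        · apply hy.2; rw [m.inj hy.1 (hf (D.fc1 x)) h]; simp
        · apply hy.2; rw [m.inj hy.1 (hf (D.fc5 x)) h]; simp
      have t2 := o.t2 y hy.1
      unfold T'
      simp only [Set.mem_setOf_eq]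
      tauto
    · rw [ca_N D hN hz (m.e2f hx z hz)]
      rcases hz with rfl | rfl | rfl | rfl | rfl | rfl | rfl | rfl
      · rw [kp0]; exact iff_of_false k3 k0
      · rw [kp1]; exact iff_of_true k2 k1
      · rw [kp2]; exact iff_of_true k1 k2
      · rw [kp3]; exact iff_of_false k0 k3
      · rw [kp4]; exact iff_of_false k7 k4
      · rw [kp5]; exact iff_of_true k6 k5
      · rw [kp6]; exact iff_of_true k5 k6
      · rw [kp7]; exact iff_of_false k4 k7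
  · intro y hy
    by_cases hu : v y = v x ∨ v y = v (D.p3 x)
    · have e : cv D v x y = v x := (cv_eq_v hv).2 hu
      rw [e, cnt_merge _ _ hv]
      have a1 := hc (v x)
      have a2' := hc (v (D.p3 x))
      rw [o.deg x hx, ind_pos rfl, ind_neg (fun h => hv h.symm)] at a1
      rw [o.deg _ (hf (D.fc3 x)), ind_pos rfl, ind_neg hv] at a2'
      omega
    · have n1 : v y ≠ v x := fun h => hu (Or.inl h)
      have n2 : v y ≠ v (D.p3 x) := fun h => hu (Or.inr h)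
      rw [cv_o n2, cnt_other _ _ n1 n2]
      have a := hc (v y)
      rw [o.deg y hy.1, ind_neg (fun h => n1 h.symm), ind_neg (fun h => n2 h.symm)] at a
      omega

end KQ
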