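import Pool.Agent.KQ.St

/-!
# OS: orientation of the contraction, type N, source
-/

set_option autoImplicit false

namespace KQ

theorem t_OS : S_OS := by
  intro Ω V _ D S a2 v T x m t hx hv hN hs
  obtain ⟨hx0, hx7⟩ := hs
  have hfc := m.fcS hx
  have tk : ∀ z ∈ D.fc x, (a2 z ∈ T ↔ z ∈ T) := fun z hz => t.t2 z (hfc hz)
  have inj : ∀ z ∈ D.fc x, ∀ w ∈ D.fc x, z ≠ w → a2 z ≠ a2 w :=
    fun z hz w hw h h' => h (m.inj (hfc hz) (hfc hw) h')
  have out : ∀ z ∈ D.fc x, a2 z ∈ S \ D.fc x := fun z hz => ⟨m.s2 z (hfc hz), hN z hz⟩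
  have e22 : ∀ z ∈ D.fc x, a2 (a2 z) = z := m.e2f hx
  have hp1 : D.p1 x ∉ T := by
    have := t.t0 x hx
    rw [D.a0_x] at this
    intro h
    exact this.1 h hx0
  have hp6 : D.p6 x ∉ T := by
    have := t.t0 _ (hfc (D.fc7 x))
    rw [D.a0_p7] at this
    intro h
    exact this.1 h hx7
  have hp23 : D.p3 x ∈ T ↔ D.p2 x ∉ T := by
    have := t.t0 _ (hfc (D.fc2 x))
    rwa [D.a0_p2] at this
  have hp45 : D.p5 x ∈ T ↔ D.p4 x ∉ T := by
    have := t.t0 _ (hfc (D.fc4 x))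
    rwa [D.a0_p4] at this
  have n12 : a2 x ≠ a2 (D.p1 x) := inj _ (by simp) _ (by simp) (by simp)
  have n13 : a2 x ≠ a2 (D.p7 x) := inj _ (by simp) _ (by simp) (by simp)
  have n14 : a2 x ≠ a2 (D.p6 x) := inj _ (by simp) _ (by simp) (by simp)
  have n23 : a2 (D.p1 x) ≠ a2 (D.p7 x) := inj _ (by simp) _ (by simp) (by simp)
  have n24 : a2 (D.p1 x) ≠ a2 (D.p6 x) := inj _ (by simp) _ (by simp) (by simp)
  have n34 : a2 (D.p7 x) ≠ a2 (D.p6 x) := inj _ (by simp) _ (by simp) (by simp)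
  let T' : Set Ω := {y | (y = a2 x → D.p3 x ∈ T) ∧ (y = a2 (D.p1 x) → D.p2 x ∈ T) ∧
    (y = a2 (D.p7 x) → D.p4 x ∈ T) ∧ (y = a2 (D.p6 x) → D.p5 x ∈ T) ∧
    ((y ≠ a2 x ∧ y ≠ a2 (D.p1 x) ∧ y ≠ a2 (D.p7 x) ∧ y ≠ a2 (D.p6 x)) → y ∈ T)}
  have k1 : a2 x ∈ T' ↔ D.p3 x ∈ T := by
    constructor
    · intro h; exact h.1 rfl
    · intro h
      exact ⟨fun _ => h, fun h' => absurd h' n12, fun h' => absurd h' n13,
        fun h' => absurd h' n14, fun h' => absurd rfl h'.1⟩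
  have k2 : a2 (D.p1 x) ∈ T' ↔ D.p2 x ∈ T := by
    constructor
    · intro h; exact h.2.1 rfl
    · intro h
      exact ⟨fun h' => absurd h'.symm n12, fun _ => h, fun h' => absurd h' n23,
        fun h' => absurd h' n24, fun h' => absurd rfl h'.2.1⟩
  have k3 : a2 (D.p7 x) ∈ T' ↔ D.p4 x ∈ T := by
    constructor
    · intro h; exact h.2.2.1 rfl
    · intro h
      exact ⟨fun h' => absurd h'.symm n13, fun h' => absurd h'.symm n23, fun _ => h,
        fun h' => absurd h' n34, fun h' => absurd rfl h'.2.2.1⟩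
  have k4 : a2 (D.p6 x) ∈ T' ↔ D.p5 x ∈ T := by
    constructor
    · intro h; exact h.2.2.2.1 rfl
    · intro h
      exact ⟨fun h' => absurd h'.symm n14, fun h' => absurd h'.symm n24,
        fun h' => absurd h'.symm n34, fun _ => h, fun h' => absurd rfl h'.2.2.2⟩
  have ko : ∀ y, y ≠ a2 x → y ≠ a2 (D.p1 x) → y ≠ a2 (D.p7 x) → y ≠ a2 (D.p6 x) →
      (y ∈ T' ↔ y ∈ T) := by
    intro y h1 h2 h3 h4
    constructor
    · intro h; exact h.2.2.2.2 ⟨h1, h2, h3, h4⟩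
    · intro h
      exact ⟨fun h' => absurd h' h1, fun h' => absurd h' h2, fun h' => absurd h' h3,
        fun h' => absurd h' h4, fun _ => h⟩
  have kz : ∀ z ∈ D.fc x, z ≠ x → z ≠ D.p1 x → z ≠ D.p7 x → z ≠ D.p6 x →
      (a2 z ∈ T' ↔ z ∈ T) := by
    intro z hz h1 h2 h3 h4
    rw [ko _ (inj _ hz _ (by simp) h1) (inj _ hz _ (by simp) h2) (inj _ hz _ (by simp) h3)
      (inj _ hz _ (by simp) h4), tk z hz]
  have q2 : a2 (D.p2 x) ∈ T' ↔ D.p2 x ∈ T := kz _ (by simp) (by simp) (by simp) (by simp) (by simp)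
  have q3 : a2 (D.p3 x) ∈ T' ↔ D.p3 x ∈ T := kz _ (by simp) (by simp) (by simp) (by simp) (by simp)
  have q4 : a2 (D.p4 x) ∈ T' ↔ D.p4 x ∈ T := kz _ (by simp) (by simp) (by simp) (by simp) (by simp)
  have q5 : a2 (D.p5 x) ∈ T' ↔ D.p5 x ∈ T := kz _ (by simp) (by simp) (by simp) (by simp) (by simp)
  have a01 : D.a0 (a2 x) = a2 (D.p1 x) := (m.c2 x hx).symm
  have a76 : D.a0 (a2 (D.p7 x)) = a2 (D.p6 x) := by
    have := (m.c2 _ (hfc (D.fc7 x))).symm
    rwa [D.a0_p7] at this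
  have hb : ∀ y z : Ω, D.a0 y = z → y = D.a0 z := by
    intro y z h
    rw [← h, D.e0]
  refine ⟨T', ⟨?_, ?_, ?_⟩⟩
  · intro y hy
    by_cases h1 : y = a2 x
    · rw [h1, a01, k2, k1, hp23, not_not]
    by_cases h2 : y = a2 (D.p1 x)
    · rw [h2, ← a01, D.e0, k1, a01, k2, hp23]
    by_cases h3 : y = a2 (D.p7 x)
    · rw [h3, a76, k4, k3, hp45]
    by_cases h4 : y = a2 (D.p6 x)
    · rw [h4, ← a76, D.e0, k3, a76, k4, hp45, not_not]
    rw [ko y h1 h2 h3 h4, ko (D.a0 y), t.t0 y hy.1]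
    · intro h; exact h2 (by rw [hb _ _ h, a01])
    · intro h; exact h1 (by rw [hb _ _ h, ← a01, D.e0])
    · intro h; exact h4 (by rw [hb _ _ h, a76])
    · intro h; exact h3 (by rw [hb _ _ h, ← a76, D.e0])
  · intro y hy
    rcases m.outer hx hy with ⟨h1, h2, h3⟩ | ⟨z, hz, rfl, h2⟩
    · rw [h3]
      have g : ∀ z ∈ D.fc x, y ≠ a2 z := by
        intro z hz h
        apply h1
        rw [h, e22 z hz]
        exact hz
      have g' : ∀ z ∈ D.fc x, a2 y ≠ a2 z := by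
        intro z hz h
        exact hy.2 (by rw [m.inj hy.1 (hfc hz) h]; exact hz)
      rw [ko y (g _ (by simp)) (g _ (by simp)) (g _ (by simp)) (g _ (by simp)),
        ko (a2 y) (g' _ (by simp)) (g' _ (by simp)) (g' _ (by simp)) (g' _ (by simp)),
        t.t2 y hy.1]
    · rw [ca_N D hN hz h2]
      rcases hz with rfl | rfl | rfl | rfl | rfl | rfl | rfl | rfl
      · rw [kp0, q3, k1]
      · rw [kp1, q2, k2]
      · rw [kp2, q2, k2]
      · rw [kp3, q3, k1]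
      · rw [kp4, q4, k3]
      · rw [kp5, q5, k4]
      · rw [kp6, q5, k4]
      · rw [kp7, q4, k3]
  · -- counting
    have hcount : ∀ u : V, (cnt S v (fun y => y ∈ T) u : ℤ) =
        cnt (S \ D.fc x) v (fun y => y ∈ T') u +
          ind (v x = u) * (4 - ind (D.p3 x ∈ T) - ind (D.p4 x ∈ T)) +
          ind (v (D.p3 x) = u) * (ind (D.p3 x ∈ T) + ind (D.p4 x ∈ T)) := by
      intro u
      have h := cnt4 D hfc v (fun y => y ∈ T) (fun y => y ∈ T') (out _ (D.fc0 x))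
        (out _ (D.fc1 x)) (out _ (D.fc7 x)) (out _ (D.fc6 x)) n12 n13 n14 n23 n24 n34
        (fun y _ h1 h2 h3 h4 => (ko y h1 h2 h3 h4).symm) u
      rw [h]
      unfold fs
      have w0 : v (a2 x) = v x := m.v2 _ hx
      have w1 : v (a2 (D.p1 x)) = v (D.p1 x) := m.v2 _ (hfc (D.fc1 x))
      have w7 : v (a2 (D.p7 x)) = v x := by rw [m.v2 _ (hfc (D.fc7 x)), m.v7 hx]
      have w6 : v (a2 (D.p6 x)) = v (D.p6 x) := m.v2 _ (hfc (D.fc6 x))
      rw [w0, w1, w7, w6, m.v7 hx, m.v21 hx, m.v43 hx, m.v56 hx]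
      have i0 : ind (x ∈ T) = 1 := ind_pos hx0
      have i7 : ind (D.p7 x ∈ T) = 1 := ind_pos hx7
      have i1 : ind (D.p1 x ∈ T) = 0 := ind_neg hp1
      have i6 : ind (D.p6 x ∈ T) = 0 := ind_neg hp6
      have i2 : ind (D.p2 x ∈ T) = 1 - ind (D.p3 x ∈ T) := by
        rw [ind_congr hp23, ind_not]; ring
      have i5 : ind (D.p5 x ∈ T) = 1 - ind (D.p4 x ∈ T) := by
        rw [ind_congr hp45, ind_not]
      have j0 : ind (a2 x ∈ T) = 1 := ind_pos ((tk _ (by simp)).2 hx0)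
      have j1 : ind (a2 (D.p1 x) ∈ T) = 0 := ind_neg (fun h => hp1 ((tk _ (by simp)).1 h))
      have j7 : ind (a2 (D.p7 x) ∈ T) = 1 := ind_pos ((tk _ (by simp)).2 hx7)
      have j6 : ind (a2 (D.p6 x) ∈ T) = 0 := ind_neg (fun h => hp6 ((tk _ (by simp)).1 h))
      have l0 : ind (a2 x ∈ T') = ind (D.p3 x ∈ T) := ind_congr k1
      have l1 : ind (a2 (D.p1 x) ∈ T') = 1 - ind (D.p3 x ∈ T) := by rw [ind_congr k2, i2]
      have l7 : ind (a2 (D.p7 x) ∈ T') = ind (D.p4 x ∈ T) := ind_congr k3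
      have l6 : ind (a2 (D.p6 x) ∈ T') = 1 - ind (D.p4 x ∈ T) := by rw [ind_congr k4, i5]
      rw [i0, i7, i1, i6, i2, i5, j0, j1, j7, j6, l0, l1, l7, l6]
      ring
    intro y hy
    by_cases hc : v y = v x ∨ v y = v (D.p3 x)
    · rw [(cv_eq_v hv).2 hc, cnt_merge _ _ hv]
      have h1 := hcount (v x)
      have h2 := hcount (v (D.p3 x))
      rw [ind_pos rfl, ind_neg (Ne.symm hv), t.deg x hx] at h1
      rw [ind_pos rfl, ind_neg hv, t.deg _ (hfc (D.fc3 x))] at h2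
      push_cast at h1 h2
      have h3 : ((cnt (S \ D.fc x) v (fun y => y ∈ T') (v x) +
        cnt (S \ D.fc x) v (fun y => y ∈ T') (v (D.p3 x)) : ℕ) : ℤ) = (4 : ℕ) := by
        push_cast
        linarith
      exact_mod_cast h3
    · push Not at hc
      rw [cv_o hc.2, cnt_other _ _ hc.1 hc.2]
      have h1 := hcount (v y)
      rw [ind_neg (Ne.symm hc.1), ind_neg (Ne.symm hc.2), t.deg y hy.1] at h1
      have h3 : ((cnt (S \ D.fc x) v (fun y => y ∈ T') (v y) : ℕ) : ℤ) = (4 : ℕ) := by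
        linarith
      exact_mod_cast h3

end KQ
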