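import Pool.Agent.KQ.St

/-!
# X1: lift for a face of type D1
-/

set_option autoImplicit false

namespace KQ

namespace KQ_X1

variable {Ω V : Type} {D : Oct Ω} {S : Set Ω} {a2 : Ω → Ω} {v : Ω → V} {x : Ω}

/-- the pigeonhole on one side -/
theorem side [Finite Ω] (zE : S_ZE) (m : Mp D S a2 v) (hx : x ∈ S) {A : Set Ω}
    (hA : Act D (S \ D.fc x) (ca D a2 x) (cv D v x) A) {u : V} {z1 z2 : Ω}
    (h1 : z1 ∈ D.fc x) (o1 : a2 z1 ∉ D.fc x) (l1 : v z1 = u)
    (ho : ∀ z ∈ D.fc x, a2 z ∉ D.fc x → v z = u → z = z1 ∨ z = z2)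
    (h0 : cnt (S \ D.fc x) v (D.F A) u = 0) : a2 z1 ∈ A ∨ a2 z2 ∈ A := by
  have hf := m.fcS hx
  have m1 : a2 z1 ∈ S \ D.fc x := ⟨m.s2 _ (hf h1), o1⟩
  have e1 : v (a2 z1) = u := (m.v2 _ (hf h1)).trans l1
  refine zE Ω V D S a2 v A x u (a2 z1) (a2 z2) m hx hA m1 e1 ?_ h0
  intro y hy hu n1 n2
  rcases m.outer hx hy with ⟨q1, q2, q3⟩ | ⟨z, q1, q2, q3⟩
  · have hyo : a2 (a2 y) ∉ D.fc x := by
      rw [m.e2 y hy.1]
      exact hy.2
    refine ⟨?_, ?_, ?_, ?_⟩
    · rw [q3]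
      exact q2
    · rw [q3, m.v2 y hy.1]
      exact hu
    · rw [q3]
      intro h
      have := m.inj hy.1 (hf h1) h
      apply hy.2
      rw [this]
      exact h1
    · rw [q3, ca_out D a2 x hyo]
      exact m.e2 y hy.1
  · exfalso
    have h5 : v z = u := by
      rw [← m.v2 z (hf q1), ← q2]
      exact hu
    have h6 : a2 z ∉ D.fc x := by
      rw [← q2]
      exact hy.2
    rcases ho z q1 h6 h5 with h | h
    · exact n1 (by rw [q2, h])
    · exact n2 (by rw [q2, h])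

end KQ_X1

theorem t_X1 : S_EV → S_ZE → S_LI → S_LA1 → S_LB1 → S_X1 := by
  rintro eV zE lI lA lB Ω V _ D S a2 v x m hx hv h ⟨A, hA⟩
  have hf := m.fcS hx
  have hd := h
  obtain ⟨t1, t2, t3, t4, t5, t6⟩ := h
  have b1 := hf (D.fc1 x)
  have t7 : a2 (D.p6 x) = x := by rw [← t1]; exact m.e2 x hx
  have t8 : a2 (D.p7 x) = D.p1 x := by rw [← t2]; exact m.e2 _ b1
  have l7 : v (D.p7 x) = v x := m.v7 hx
  have l6 : v (D.p6 x) = v x := by rw [← t1]; exact m.v2 x hx
  have l5 : v (D.p5 x) = v x := by rw [m.v56 hx]; exact l6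
  have l4 : v (D.p4 x) = v (D.p3 x) := m.v43 hx
  have l1 : v (D.p1 x) = v x := by rw [← m.v2 _ b1, t2]; exact l7
  have l2 : v (D.p2 x) = v x := by rw [m.v21 hx]; exact l1
  -- the data at `p7 x`
  have hx7 : D.p7 x ∈ S := hf (D.fc7 x)
  have hv7 : v (D.p7 x) ≠ v (D.p3 (D.p7 x)) := by
    rw [l7, D.p3_p7, l4]
    exact hv
  have hA7 : Act D (S \ D.fc (D.p7 x)) (ca D a2 (D.p7 x)) (cv D v (D.p7 x)) A := by
    rw [D.fc_p7, ca_p7, m.cv_p7 hx]
    exact hA
  have hd7 : TD1 D a2 (D.p7 x) := by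
    refine ⟨?_, ?_, ?_, ?_, ?_, ?_⟩
    · rw [t8, D.p6_p7]
    · rw [D.p1_p7, t7, D.p7_p7]
    · rw [D.p2_p7, D.fc_p7]
      exact t6
    · rw [D.p3_p7, D.fc_p7]
      exact t5
    · rw [D.p4_p7, D.fc_p7]
      exact t4
    · rw [D.p5_p7, D.fc_p7]
      exact t3
  have hev := eV Ω V D S a2 v A x m hx hv
    ⟨a2 (D.p2 x), ⟨m.s2 _ (hf (D.fc2 x)), t3⟩, (m.v2 _ (hf (D.fc2 x))).trans l2⟩ hA
  rcases hev with ⟨h0, _⟩ | ⟨h2, h2'⟩ | ⟨_, h0⟩
  · have hz := KQ_X1.side (z1 := D.p5 x) (z2 := D.p2 x) zE m hx hA (D.fc5 x) t6 l5 ?_ h0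
    · rcases hz with h | h
      · exact lA Ω V D S a2 v A x m hx hv hd hA h0 h
      · refine lA Ω V D S a2 v A (D.p7 x) m hx7 hv7 hd7 hA7 ?_ ?_
        · rw [D.fc_p7, l7]
          exact h0
        · rw [D.p5_p7]
          exact h
    · rintro z (rfl | rfl | rfl | rfl | rfl | rfl | rfl | rfl) ho hl
      · exact absurd (by rw [t1]; simp) ho
      · exact absurd (by rw [t2]; simp) ho
      · exact Or.inr rfl
      · exact absurd hl.symm hv
      · exact absurd (hl.symm.trans l4) hv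
      · exact Or.inl rfl
      · exact absurd (by rw [t7]; simp) ho
      · exact absurd (by rw [t8]; simp) ho
  · by_cases hB : a2 (D.p5 x) ∈ A
    · by_cases hA2 : a2 (D.p2 x) ∈ A
      · exfalso
        have c1 : a2 (D.p3 x) = D.a0 (a2 (D.p2 x)) := by
          rw [← m.c2 _ (hf (D.fc2 x)), D.a0_p2]
        have c2 : a2 (D.p4 x) = D.a0 (a2 (D.p5 x)) := by
          rw [← m.c2 _ (hf (D.fc5 x)), D.a0_p5]
        have s3 : a2 (D.p3 x) ∈ S \ D.fc x := ⟨m.s2 _ (hf (D.fc3 x)), t4⟩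
        have s4 : a2 (D.p4 x) ∈ S \ D.fc x := ⟨m.s2 _ (hf (D.fc4 x)), t5⟩
        have f3 : D.F A (a2 (D.p3 x)) := by
          rw [c1]
          exact ⟨hA.u0 _ hA2, hA.u2 hA2⟩
        have f4 : D.F A (a2 (D.p4 x)) := by
          rw [c2]
          exact ⟨hA.u0 _ hB, hA.u2 hB⟩
        have e3 : v (a2 (D.p3 x)) = v (D.p3 x) := m.v2 _ (hf (D.fc3 x))
        have e4 : v (a2 (D.p4 x)) = v (D.p3 x) := (m.v2 _ (hf (D.fc4 x))).trans l4
        have hne : a2 (D.p4 x) ≠ a2 (D.p3 x) := by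
          intro h
          exact D.ne4_3 x (m.inj (hf (D.fc4 x)) (hf (D.fc3 x)) h)
        have key : a2 (D.p4 x) = D.a1 (a2 (D.p3 x)) := by
          by_contra hn
          have hsub : ({a2 (D.p3 x), D.a1 (a2 (D.p3 x)), a2 (D.p4 x)} : Set Ω) ⊆
              {y | y ∈ S \ D.fc x ∧ v y = v (D.p3 x) ∧ D.F A y} := by
            rintro y (rfl | rfl | rfl)
            · exact ⟨s3, e3, f3⟩
            · exact ⟨out_a1 m.s1 s3, (m.v1 _ s3.1).trans e3, (D.F_a1 _ A).mpr f3⟩
            · exact ⟨s4, e4, f4⟩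
          have h3 : ({a2 (D.p3 x), D.a1 (a2 (D.p3 x)), a2 (D.p4 x)} : Set Ω).ncard = 3 := by
            rw [Set.ncard_eq_three]
            exact ⟨_, _, _, (D.n1 _).symm, hne.symm, fun h => hn h.symm, rfl⟩
          have h4 := Set.ncard_le_ncard hsub (Set.toFinite _)
          rw [h3] at h4
          change 3 ≤ cnt (S \ D.fc x) v (D.F A) (v (D.p3 x)) at h4
          omega
        have h5 := hA.u3 _ hA2
        rw [← c1, ← key, c2, D.e0] at h5
        exact h5 hB
      · refine lI Ω V D S a2 v A (D.p7 x) m hx7 hv7 ?_ hA7 ?_ ?_ ?_ ?_ ?_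
        · rw [D.fc_p7, D.p3_p7, l7, l4]
          rintro z (rfl | rfl | rfl | rfl | rfl | rfl | rfl | rfl)
          · exact Or.inl rfl
          · exact Or.inl l1
          · exact Or.inl l2
          · exact Or.inr (Or.inl rfl)
          · exact Or.inr (Or.inl l4)
          · exact Or.inl l5
          · exact Or.inl l6
          · exact Or.inl l7
        · rw [D.fc_p7, l7]
          exact h2
        · rw [D.fc_p7, D.p3_p7, l4]
          exact h2'
        · rw [D.p1_p7, t7]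
          intro h
          exact (hA.sub h).2 (D.fc0 x)
        · rw [D.p5_p7]
          exact hA2
        · rw [D.p1_p7, t7, D.p5_p7]
          exact D.ne0_2 x
    · refine lI Ω V D S a2 v A x m hx hv ?_ hA h2 h2' ?_ hB ?_
      · rintro z (rfl | rfl | rfl | rfl | rfl | rfl | rfl | rfl)
        · exact Or.inl rfl
        · exact Or.inl l1
        · exact Or.inl l2
        · exact Or.inr (Or.inl rfl)
        · exact Or.inr (Or.inl l4)
        · exact Or.inl l5
        · exact Or.inl l6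
        · exact Or.inl l7
      · rw [t2]
        intro h
        exact (hA.sub h).2 (D.fc7 x)
      · rw [t2]
        exact D.ne7_5 x
  · have hz := KQ_X1.side (z1 := D.p3 x) (z2 := D.p4 x) zE m hx hA (D.fc3 x) t4 rfl ?_ h0
    · rcases hz with h | h
      · exact lB Ω V D S a2 v A x m hx hv hd hA h0 h
      · refine lB Ω V D S a2 v A (D.p7 x) m hx7 hv7 hd7 hA7 ?_ ?_
        · rw [D.fc_p7, D.p3_p7, l4]
          exact h0
        · rw [D.p3_p7]
          exact h
    · rintro z (rfl | rfl | rfl | rfl | rfl | rfl | rfl | rfl) ho hl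
      · exact absurd hl hv
      · exact absurd (l1.symm.trans hl) hv
      · exact absurd (l2.symm.trans hl) hv
      · exact Or.inl rfl
      · exact Or.inr rfl
      · exact absurd (l5.symm.trans hl) hv
      · exact absurd (l6.symm.trans hl) hv
      · exact absurd (l7.symm.trans hl) hv

end KQ
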