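import Pool.Agent.KQ.St

/-!
# XN: lift for a face of type N
-/

set_option autoImplicit false

namespace KQ

namespace KQ_XN

variable {Ω V : Type} {D : Oct Ω} {S : Set Ω} {a2 : Ω → Ω} {v : Ω → V} {x : Ω}

/-- pigeonhole for one side of the face -/
theorem side [Finite Ω] (zE : S_ZE) (m : Mp D S a2 v) (hx : x ∈ S) (hN : TN D a2 x) {A : Set Ω}
    (hA : Act D (S \ D.fc x) (ca D a2 x) (cv D v x) A) {u : V} {z1 z2 : Ω}
    (h1 : z1 ∈ D.fc x) (l1 : v z1 = u)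
    (ho : ∀ z ∈ D.fc x, v z = u → z = z1 ∨ z = z2 ∨ (v (kp D x z) = u ∧ kp D x z ≠ z1))
    (h0 : cnt (S \ D.fc x) v (D.F A) u = 0) : a2 z1 ∈ A ∨ a2 z2 ∈ A := by
  have hf := m.fcS hx
  have m1 : a2 z1 ∈ S \ D.fc x := ⟨m.s2 _ (hf h1), hN _ h1⟩
  have e1 : v (a2 z1) = u := (m.v2 _ (hf h1)).trans l1
  refine zE Ω V D S a2 v A x u (a2 z1) (a2 z2) m hx hA m1 e1 ?_ h0
  intro y hy hu n1 n2
  rcases m.outer hx hy with ⟨q1, q2, q3⟩ | ⟨z, q1, q2, q3⟩
  · have hyo : a2 (a2 y) ∉ D.fc x := by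
      rw [m.e2 y hy.1]
      exact hy.2
    refine ⟨?_, ?_, ?_, ?_⟩
    · rw [q3]
      exact q2
    · rw [q3, m.v2 y hy.1]
      exact hu
    · rw [q3]
      intro h
      have := m.inj hy.1 (hf h1) h
      apply hy.2
      rw [this]
      exact h1
    · rw [q3, ca_out D a2 x hyo]
      exact m.e2 y hy.1
  · have h5 : v z = u := by
      rw [← m.v2 z (hf q1), ← q2]
      exact hu
    have k1 := kp_mem D x q1
    have e : ca D a2 x y = a2 (kp D x z) := by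
      rw [q2]
      exact ca_N D hN q1 (m.e2 z (hf q1))
    rcases ho z q1 h5 with h | h | ⟨h, h'⟩
    · exact absurd (by rw [q2, h]) n1
    · exact absurd (by rw [q2, h]) n2
    · refine ⟨?_, ?_, ?_, ?_⟩
      · rw [e]
        exact ⟨m.s2 _ (hf k1), hN _ k1⟩
      · rw [e, m.v2 _ (hf k1)]
        exact h
      · rw [e]
        intro h6
        exact h' (m.inj (hf k1) (hf h1) h6)
      · rw [e, ca_N D hN k1 (m.e2 _ (hf k1)), kp_kp D x q1]
        exact q2.symm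

/-- two different flags `y`, `z` with the same label and `a0 y`, `a0 z` in `A` -/
theorem two [Finite Ω] {S' : Set Ω} {c2 : Ω → Ω} {W : Type} {w : Ω → W} {A : Set Ω}
    (hA : Act D S' c2 w A) (h1 : ∀ y ∈ S', D.a1 y ∈ S') (hv1 : ∀ y ∈ S', v (D.a1 y) = v y)
    {y z : Ω} {u : V} (hy : y ∈ S') (hz : z ∈ S') (ly : v y = u) (lz : v z = u) (hne : y ≠ z)
    (hc : cnt S' v (D.F A) u = 2) (ay : D.a0 y ∈ A) (az : D.a0 z ∈ A) : False := by
  have fy : D.F A y ∧ D.a0 (D.a1 y) ∉ A := by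
    rcases hA.four hy with ⟨a, b, c, d⟩ | ⟨a, b, c, d⟩ | ⟨a, b, c, d⟩ | ⟨a, b, c, d⟩
    · exact absurd ay c
    · exact absurd ay c
    · exact ⟨⟨a, b⟩, d⟩
    · exact absurd ay c
  have fz : D.F A z := by
    rcases hA.four hz with ⟨a, b, c, d⟩ | ⟨a, b, c, d⟩ | ⟨a, b, c, d⟩ | ⟨a, b, c, d⟩
    · exact absurd az c
    · exact absurd az c
    · exact ⟨a, b⟩
    · exact absurd az c
  have n2 : D.a1 y ≠ z := by
    intro h
    apply fy.2
    rw [h]
    exact az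
  have n1 : y ≠ D.a1 y := fun h => D.n1 y h.symm
  have hs : ({y, D.a1 y, z} : Set Ω) ⊆ {t | t ∈ S' ∧ v t = u ∧ D.F A t} := by
    rintro t (rfl | rfl | rfl)
    · exact ⟨hy, ly, fy.1⟩
    · exact ⟨h1 _ hy, (hv1 _ hy).trans ly, (D.F_a1 _ A).2 fy.1⟩
    · exact ⟨hz, lz, fz⟩
  have h3 : ({y, D.a1 y, z} : Set Ω).ncard = 3 := by
    rw [Set.ncard_insert_of_notMem (by simp [hne, n1]), Set.ncard_pair n2]
  have h4 := Set.ncard_le_ncard hs (Set.toFinite _)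
  unfold cnt at hc
  omega

/-- no free corner at `v` -/
theorem zero [Finite Ω] (zE : S_ZE) (lN : S_LN) (m : Mp D S a2 v) (hx : x ∈ S)
    (hv : v x ≠ v (D.p3 x)) (hN : TN D a2 x) {A : Set Ω}
    (hA : Act D (S \ D.fc x) (ca D a2 x) (cv D v x) A)
    (h0 : cnt (S \ D.fc x) v (D.F A) (v x) = 0) : ∃ A', Act D S a2 v A' := by
  have hf := m.fcS hx
  have l7 : v (D.p7 x) = v x := m.v7 hx
  have l4 : v (D.p4 x) = v (D.p3 x) := m.v43 hx
  have l21 : v (D.p2 x) = v (D.p1 x) := m.v21 hx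
  have l56 : v (D.p5 x) = v (D.p6 x) := m.v56 hx
  have h := side (z1 := x) (z2 := D.p7 x) zE m hx hN hA (D.fc0 x) rfl ?_ h0
  · rcases h with h | h
    · exact lN Ω V D S a2 v A x m hx hv hN hA h0 h
    · refine lN Ω V D S a2 v A (D.p7 x) m (hf (D.fc7 x)) ?_ ?_ ?_ ?_ h
      · rw [D.p3_p7, l7, l4]
        exact hv
      · intro z hz
        rw [D.fc_p7] at hz ⊢
        exact hN z hz
      · rw [D.fc_p7, ca_p7, m.cv_p7 hx]
        exact hA
      · rw [D.fc_p7, l7]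
        exact h0
  · rintro z (rfl | rfl | rfl | rfl | rfl | rfl | rfl | rfl) hl
    · exact Or.inl rfl
    · right; right
      rw [kp1]
      exact ⟨l21.trans hl, D.ne2_0 x⟩
    · right; right
      rw [kp2]
      exact ⟨l21.symm.trans hl, D.ne1_0 x⟩
    · exact absurd hl.symm hv
    · exact absurd (hl.symm.trans l4) hv
    · right; right
      rw [kp5]
      exact ⟨l56.symm.trans hl, D.ne6_0 x⟩
    · right; right
      rw [kp6]
      exact ⟨l56.trans hl, D.ne5_0 x⟩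
    · exact Or.inr (Or.inl rfl)

end KQ_XN

theorem t_XN : S_EV → S_ZE → S_LI → S_LN → S_XN := by
  rintro eV zE lI lN Ω V _ D S a2 v x m hx hv hN ⟨A, hA⟩
  have hf := m.fcS hx
  have hm : ∀ z ∈ D.fc x, a2 z ∈ S \ D.fc x := fun z hz => ⟨m.s2 _ (hf hz), hN z hz⟩
  have l7 : v (D.p7 x) = v x := m.v7 hx
  have l4 : v (D.p4 x) = v (D.p3 x) := m.v43 hx
  have hev := eV Ω V D S a2 v A x m hx hv ⟨a2 x, hm x (D.fc0 x), m.v2 _ hx⟩ hA
  rcases hev with ⟨h0, _⟩ | ⟨h2, h2'⟩ | ⟨_, h0⟩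
  · exact KQ_XN.zero zE lN m hx hv hN hA h0
  · by_cases c1 : a2 (D.p1 x) ∉ A ∧ a2 (D.p5 x) ∉ A
    · refine lI Ω V D S a2 v A x m hx hv (fun z hz => Or.inr (Or.inr (hN z hz))) hA h2 h2'
        c1.1 c1.2 ?_
      intro h
      apply hN _ (D.fc1 x)
      rw [h]
      simp
    by_cases c2 : a2 (D.p6 x) ∉ A ∧ a2 (D.p2 x) ∉ A
    · have e3 : D.p3 (D.p7 x) = D.p4 x := D.p3_p7 x
      refine lI Ω V D S a2 v A (D.p7 x) m (hf (D.fc7 x)) ?_ ?_ ?_ ?_ ?_ ?_ ?_ ?_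
      · rw [e3, l7, l4]
        exact hv
      · intro z hz
        rw [D.fc_p7] at hz ⊢
        exact Or.inr (Or.inr (hN z hz))
      · rw [D.fc_p7, ca_p7, m.cv_p7 hx]
        exact hA
      · rw [D.fc_p7, l7]
        exact h2
      · rw [D.fc_p7, e3, l4]
        exact h2'
      · rw [D.p1_p7]
        exact c2.1
      · rw [D.p5_p7]
        exact c2.2
      · rw [D.p1_p7, D.p5_p7]
        intro h
        apply hN _ (D.fc6 x)
        rw [h]
        simp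
    exfalso
    have k12 : ca D a2 x (a2 (D.p1 x)) = a2 (D.p2 x) := by
      rw [ca_N D hN (D.fc1 x) (m.e2 _ (hf (D.fc1 x))), kp1]
    have k65 : ca D a2 x (a2 (D.p6 x)) = a2 (D.p5 x) := by
      rw [ca_N D hN (D.fc6 x) (m.e2 _ (hf (D.fc6 x))), kp6]
    have s1 : ∀ y ∈ S \ D.fc x, D.a1 y ∈ S \ D.fc x := fun y hy => out_a1 m.s1 hy
    have sv : ∀ y ∈ S \ D.fc x, v (D.a1 y) = v y := fun y hy => m.v1 y hy.1
    have a01 : D.a0 (a2 x) = a2 (D.p1 x) := (m.c2 x hx).symm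
    have a07 : D.a0 (a2 (D.p7 x)) = a2 (D.p6 x) := by
      rw [← m.c2 _ (hf (D.fc7 x)), D.a0_p7]
    have a03 : D.a0 (a2 (D.p3 x)) = a2 (D.p2 x) := by
      rw [← m.c2 _ (hf (D.fc3 x)), D.a0_p3]
    have a04 : D.a0 (a2 (D.p4 x)) = a2 (D.p5 x) := by
      rw [← m.c2 _ (hf (D.fc4 x)), D.a0_p4]
    by_cases d1 : a2 (D.p1 x) ∈ A
    · have d2 : a2 (D.p2 x) ∉ A := by
        rw [← k12]
        exact hA.na2 _ d1
      have d6 : a2 (D.p6 x) ∈ A := by
        by_contra h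
        exact c2 ⟨h, d2⟩
      refine KQ_XN.two (v := v) (y := a2 x) (z := a2 (D.p7 x)) hA s1 sv (hm _ (D.fc0 x))
        (hm _ (D.fc7 x)) (m.v2 _ hx) ((m.v2 _ (hf (D.fc7 x))).trans l7) ?_ h2 ?_ ?_
      · intro h
        exact D.ne0_7 x (m.inj hx (hf (D.fc7 x)) h)
      · rw [a01]
        exact d1
      · rw [a07]
        exact d6
    · have d5 : a2 (D.p5 x) ∈ A := by
        by_contra h
        exact c1 ⟨d1, h⟩
      have d6 : a2 (D.p6 x) ∉ A := by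
        intro h
        apply hA.na2 _ h
        rw [k65]
        exact d5
      have d2 : a2 (D.p2 x) ∈ A := by
        by_contra h
        exact c2 ⟨d6, h⟩
      refine KQ_XN.two (v := v) (y := a2 (D.p3 x)) (z := a2 (D.p4 x)) hA s1 sv
        (hm _ (D.fc3 x)) (hm _ (D.fc4 x)) (m.v2 _ (hf (D.fc3 x)))
        ((m.v2 _ (hf (D.fc4 x))).trans l4) ?_ h2' ?_ ?_
      · intro h
        exact D.ne3_4 x (m.inj (hf (D.fc3 x)) (hf (D.fc4 x)) h)
      · rw [a03]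
        exact d2
      · rw [a04]
        exact d5
  · refine KQ_XN.zero (x := D.p3 x) (A := A) zE lN m (hf (D.fc3 x)) ?_ ?_ ?_ ?_
    · rw [D.p3_p3]
      exact hv.symm
    · intro z hz
      rw [D.fc_p3] at hz ⊢
      exact hN z hz
    · rw [D.fc_p3, ca_p3]
      exact hA.relabel (fun y _ z _ => (cv_p3 hv y z).symm)
    · rw [D.fc_p3]
      exact h0

end KQ
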