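import Pool.Agent.KQ.Core
import Pool.Agent.KQ.KQ_MA
import Pool.Agent.KQ.KQ_CN
import Pool.Agent.KQ.KQ_C1
import Pool.Agent.KQ.KQ_C2
import Pool.Agent.KQ.KQ_OS
import Pool.Agent.KQ.KQ_OC
import Pool.Agent.KQ.KQ_OP
import Pool.Agent.KQ.KQ_O1
import Pool.Agent.KQ.KQ_O2
import Pool.Agent.KQ.KQ_LI
import Pool.Agent.KQ.KQ_LN
import Pool.Agent.KQ.KQ_LA
import Pool.Agent.KQ.KQ_LB
import Pool.Agent.KQ.KQ_EZ
import Pool.Agent.KQ.KQ_XN
import Pool.Agent.KQ.KQ_X1
import Pool.Agent.KQ.KQ_X2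
import Pool.Agent.KQ.KQ_FI
import Pool.Agent.KQ.KQ_BA
import Pool.Agent.KR.Asm
import Pool.Agent.KR.KR_LA
import Pool.Agent.KR.KR_TC
import Pool.Agent.KQ.HallX
import Pool.Agent.KR.KR_HC
import Pool.Agent.KR.KR_CNT
import Pool.Agent.KR.KR_DM

/-!
# The whole theorem
-/

set_option autoImplicit false

namespace KQ

theorem final_MA : S_MA :=
  t_MA t_CN t_C1 t_C2 t_OS t_OC t_OP t_O1 t_O2 (t_XN t_EV t_ZE t_LI t_LN)
    (t_X1 t_EV t_ZE t_LI t_LA1 t_LB1) (t_X2 t_EV t_ZE t_LI) t_FI t_BA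

theorem final_core : KR.S_CORE := core final_MA

end KQ

namespace KR

/-- 4-connected graphs with a cellular embedding in a closed surface of Euler characteristic at
least `0` and an independent set of at least half of the vertices are Hamiltonian -/
theorem hamiltonian (W Ω : Type) [Fintype W] [DecidableEq W] [Finite Ω]
    (G : SimpleGraph W) (M : GMap G Ω) (I : Set W) (h4 : FourConn G) (hE : M.EulerNonneg)
    (hI : ∀ u ∈ I, ∀ v ∈ I, ¬ G.Adj u v) (hc : Nat.card W ≤ 2 * I.ncard) :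
    G.IsHamiltonian :=
  assemble t_LA (t_TC t_LA) t_HALLx t_HC t_CNT t_DM KQ.final_core W Ω G M I h4 hE hI hc

end KR
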