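import Pool.Agent.KQ.St

/-!
# X2: lift for a face of type D2
-/

set_option autoImplicit false

namespace KQ

namespace KQ_X2

variable {Ω V : Type} {D : Oct Ω} {S : Set Ω} {a2 : Ω → Ω} {v : Ω → V} {x : Ω}

/-- one side without free corners is impossible -/
theorem side [Finite Ω] (zE : S_ZE) (m : Mp D S a2 v) (hx : x ∈ S) {A : Set Ω}
    (hA : Act D (S \ D.fc x) (ca D a2 x) (cv D v x) A) {u : V} {z1 z2 : Ω}
    (h1 : z1 ∈ D.fc x) (h2 : z2 ∈ D.fc x) (o1 : a2 z1 ∉ D.fc x) (o2 : a2 z2 ∉ D.fc x)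
    (h12 : D.a0 z1 = z2) (l1 : v z1 = u) (l2 : v z2 = u)
    (ho : ∀ z ∈ D.fc x, a2 z ∉ D.fc x → v z = u → z = z1 ∨ z = z2)
    (h0 : cnt (S \ D.fc x) v (D.F A) u = 0) : False := by
  have hf := m.fcS hx
  have m1 : a2 z1 ∈ S \ D.fc x := ⟨m.s2 _ (hf h1), o1⟩
  have m2 : a2 z2 ∈ S \ D.fc x := ⟨m.s2 _ (hf h2), o2⟩
  have e1 : v (a2 z1) = u := (m.v2 _ (hf h1)).trans l1
  have e2 : v (a2 z2) = u := (m.v2 _ (hf h2)).trans l2
  have h21 : D.a0 z2 = z1 := by rw [← h12, D.e0]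
  have c1 : D.a0 (a2 z1) = a2 z2 := by rw [← m.c2 _ (hf h1), h12]
  have c2 : D.a0 (a2 z2) = a2 z1 := by rw [← m.c2 _ (hf h2), h21]
  have hn : ∀ y ∈ S \ D.fc x, v y = u → ¬ D.F A y := by
    intro y hy hu hF
    have hfin : {y | y ∈ S \ D.fc x ∧ v y = u ∧ D.F A y}.Finite := Set.toFinite _
    have h3 := (Set.ncard_eq_zero hfin).1 h0
    have h4 : y ∈ {y | y ∈ S \ D.fc x ∧ v y = u ∧ D.F A y} := ⟨hy, hu, hF⟩
    rw [h3] at h4
    exact h4
  have hz := zE Ω V D S a2 v A x u (a2 z1) (a2 z2) m hx hA m1 e1 ?_ h0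
  · rcases hz with h | h
    · apply hn _ m2 e2
      refine ⟨?_, ?_⟩
      · have := hA.u0 _ h
        rwa [c1] at this
      · have := hA.u2 h
        rwa [c1] at this
    · apply hn _ m1 e1
      refine ⟨?_, ?_⟩
      · have := hA.u0 _ h
        rwa [c2] at this
      · have := hA.u2 h
        rwa [c2] at this
  · intro y hy hu n1 n2
    rcases m.outer hx hy with ⟨q1, q2, q3⟩ | ⟨z, q1, q2, q3⟩
    · have hyo : a2 (a2 y) ∉ D.fc x := by
        rw [m.e2 y hy.1]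
        exact hy.2
      refine ⟨?_, ?_, ?_, ?_⟩
      · rw [q3]
        exact q2
      · rw [q3, m.v2 y hy.1]
        exact hu
      · rw [q3]
        intro h
        have := m.inj hy.1 (hf h1) h
        apply hy.2
        rw [this]
        exact h1
      · rw [q3, ca_out D a2 x hyo]
        exact m.e2 y hy.1
    · exfalso
      have h5 : v z = u := by
        rw [← m.v2 z (hf q1), ← q2]
        exact hu
      have h6 : a2 z ∉ D.fc x := by
        rw [← q2]
        exact hy.2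
      rcases ho z q1 h6 h5 with h | h
      · exact n1 (by rw [q2, h])
      · exact n2 (by rw [q2, h])

end KQ_X2

theorem t_X2 : S_EV → S_ZE → S_LI → S_X2 := by
  rintro eV zE lI Ω V _ D S a2 v x m hx hv h ⟨A, hA⟩
  have hf := m.fcS hx
  obtain ⟨t1, t2, t3, t4, t5, t6⟩ := h
  have b0 := hf (D.fc0 x)
  have b1 := hf (D.fc1 x)
  have t7 : a2 (D.p5 x) = x := by rw [← t1]; exact m.e2 x hx
  have t8 : a2 (D.p4 x) = D.p1 x := by rw [← t2]; exact m.e2 _ b1
  have l7 : v (D.p7 x) = v x := m.v7 hx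
  have l5 : v (D.p5 x) = v x := by rw [← t1]; exact m.v2 x hx
  have l6 : v (D.p6 x) = v x := by rw [← m.v56 hx]; exact l5
  have l4 : v (D.p4 x) = v (D.p3 x) := m.v43 hx
  have l1 : v (D.p1 x) = v (D.p3 x) := by rw [← m.v2 _ b1, t2]; exact l4
  have l2 : v (D.p2 x) = v (D.p3 x) := by rw [m.v21 hx]; exact l1
  have hev := eV Ω V D S a2 v A x m hx hv
    ⟨a2 (D.p7 x), ⟨m.s2 _ (hf (D.fc7 x)), t6⟩, (m.v2 _ (hf (D.fc7 x))).trans l7⟩ hA
  rcases hev with ⟨h0, _⟩ | ⟨h2, h2'⟩ | ⟨_, h0⟩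
  · exfalso
    refine KQ_X2.side zE m hx hA (D.fc7 x) (D.fc6 x) t6 t5 (D.a0_p7 x) l7 l6 ?_ h0
    rintro z (rfl | rfl | rfl | rfl | rfl | rfl | rfl | rfl) ho hl
    · exact absurd (by rw [t1]; simp) ho
    · exact absurd (by rw [t2]; simp) ho
    · exact absurd (hl.symm.trans l2) hv
    · exact absurd hl.symm hv
    · exact absurd (by rw [t8]; simp) ho
    · exact absurd (by rw [t7]; simp) ho
    · exact Or.inr rfl
    · exact Or.inl rfl
  · refine lI Ω V D S a2 v A x m hx hv ?_ hA h2 h2' ?_ ?_ ?_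
    · rintro z (rfl | rfl | rfl | rfl | rfl | rfl | rfl | rfl)
      · exact Or.inl rfl
      · exact Or.inr (Or.inl l1)
      · exact Or.inr (Or.inl l2)
      · exact Or.inr (Or.inl rfl)
      · exact Or.inr (Or.inl l4)
      · exact Or.inl l5
      · exact Or.inl l6
      · exact Or.inl l7
    · rw [t2]
      intro h
      exact (hA.sub h).2 (D.fc4 x)
    · rw [t7]
      intro h
      exact (hA.sub h).2 (D.fc0 x)
    · rw [t2]
      exact D.ne4_5 x
  · exfalso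
    refine KQ_X2.side zE m hx hA (D.fc3 x) (D.fc2 x) t4 t3 (D.a0_p3 x) rfl l2 ?_ h0
    rintro z (rfl | rfl | rfl | rfl | rfl | rfl | rfl | rfl) ho hl
    · exact absurd (by rw [t1]; simp) ho
    · exact absurd (by rw [t2]; simp) ho
    · exact Or.inr rfl
    · exact Or.inl rfl
    · exact absurd (by rw [t8]; simp) ho
    · exact absurd (by rw [t7]; simp) ho
    · exact absurd (l6.symm.trans hl) hv
    · exact absurd (l7.symm.trans hl) hv

end KQ
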