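import Pool.Agent.KQ.Basic

/-!
# Interface: the statements of the modules (project MP_b1567b_co, core: contraction of faces)
-/

set_option autoImplicit false

namespace KQ

/-- CN: contraction of a face of type N is a map -/
def S_CN : Prop := ∀ (Ω V : Type) [Finite Ω] (D : Oct Ω) (S : Set Ω) (a2 : Ω → Ω) (v : Ω → V) (x : Ω),
  Mp D S a2 v → x ∈ S → v x ≠ v (D.p3 x) → TN D a2 x →
  Mp D (S \ D.fc x) (ca D a2 x) (cv D v x)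

/-- C1: contraction of a face of type D1 is a map -/
def S_C1 : Prop := ∀ (Ω V : Type) [Finite Ω] (D : Oct Ω) (S : Set Ω) (a2 : Ω → Ω) (v : Ω → V) (x : Ω),
  Mp D S a2 v → x ∈ S → v x ≠ v (D.p3 x) → TD1 D a2 x →
  Mp D (S \ D.fc x) (ca D a2 x) (cv D v x)

/-- C2: contraction of a face of type D2 is a map -/
def S_C2 : Prop := ∀ (Ω V : Type) [Finite Ω] (D : Oct Ω) (S : Set Ω) (a2 : Ω → Ω) (v : Ω → V) (x : Ω),
  Mp D S a2 v → x ∈ S → v x ≠ v (D.p3 x) → TD2 D a2 x →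
  Mp D (S \ D.fc x) (ca D a2 x) (cv D v x)

/-- OS: orientation of the contraction, type N, source -/
def S_OS : Prop := ∀ (Ω V : Type) [Finite Ω] (D : Oct Ω) (S : Set Ω) (a2 : Ω → Ω) (v : Ω → V)
  (T : Set Ω) (x : Ω), Mp D S a2 v → Ori D S a2 v T → x ∈ S → v x ≠ v (D.p3 x) → TN D a2 x →
  Src D x T → ∃ T', Ori D (S \ D.fc x) (ca D a2 x) (cv D v x) T'

/-- OC: orientation of the contraction, type N, cycle -/
def S_OC : Prop := ∀ (Ω V : Type) [Finite Ω] (D : Oct Ω) (S : Set Ω) (a2 : Ω → Ω) (v : Ω → V)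
  (T : Set Ω) (x : Ω), Mp D S a2 v → Ori D S a2 v T → x ∈ S → v x ≠ v (D.p3 x) → TN D a2 x →
  Cyc D x T → ∃ T', Ori D (S \ D.fc x) (ca D a2 x) (cv D v x) T'

/-- OP: orientation of the contraction, type N, special case -/
def S_OP : Prop := ∀ (Ω V : Type) [Finite Ω] (D : Oct Ω) (S : Set Ω) (a2 : Ω → Ω) (v : Ω → V)
  (T : Set Ω) (x : Ω), Mp D S a2 v → Ori D S a2 v T → x ∈ S → v x ≠ v (D.p3 x) → TN D a2 x →
  Spc D v x T → ∃ T', Ori D (S \ D.fc x) (ca D a2 x) (cv D v x) T'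

/-- O1: orientation of the contraction, type D1 -/
def S_O1 : Prop := ∀ (Ω V : Type) [Finite Ω] (D : Oct Ω) (S : Set Ω) (a2 : Ω → Ω) (v : Ω → V)
  (T : Set Ω) (x : Ω), Mp D S a2 v → Ori D S a2 v T → x ∈ S → v x ≠ v (D.p3 x) → TD1 D a2 x →
  ∃ T', Ori D (S \ D.fc x) (ca D a2 x) (cv D v x) T'

/-- O2: orientation of the contraction, type D2 -/
def S_O2 : Prop := ∀ (Ω V : Type) [Finite Ω] (D : Oct Ω) (S : Set Ω) (a2 : Ω → Ω) (v : Ω → V)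
  (T : Set Ω) (x : Ω), Mp D S a2 v → Ori D S a2 v T → x ∈ S → v x ≠ v (D.p3 x) → TD2 D a2 x →
  ∃ T', Ori D (S \ D.fc x) (ca D a2 x) (cv D v x) T'

/-- LI: lift, one free corner on each side -/
def S_LI : Prop := ∀ (Ω V : Type) [Finite Ω] (D : Oct Ω) (S : Set Ω) (a2 : Ω → Ω) (v : Ω → V)
  (A : Set Ω) (x : Ω), Mp D S a2 v → x ∈ S → v x ≠ v (D.p3 x) →
  (∀ z ∈ D.fc x, v z = v x ∨ v z = v (D.p3 x) ∨ a2 z ∉ D.fc x) →
  Act D (S \ D.fc x) (ca D a2 x) (cv D v x) A →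
  cnt (S \ D.fc x) v (D.F A) (v x) = 2 → cnt (S \ D.fc x) v (D.F A) (v (D.p3 x)) = 2 →
  a2 (D.p1 x) ∉ A → a2 (D.p5 x) ∉ A → a2 (D.p1 x) ≠ D.p5 x → ∃ A', Act D S a2 v A'

/-- LN: lift, type N, no free corner at `v` -/
def S_LN : Prop := ∀ (Ω V : Type) [Finite Ω] (D : Oct Ω) (S : Set Ω) (a2 : Ω → Ω) (v : Ω → V)
  (A : Set Ω) (x : Ω), Mp D S a2 v → x ∈ S → v x ≠ v (D.p3 x) → TN D a2 x →
  Act D (S \ D.fc x) (ca D a2 x) (cv D v x) A →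
  cnt (S \ D.fc x) v (D.F A) (v x) = 0 → a2 x ∈ A → ∃ A', Act D S a2 v A'

/-- LA: lift, type D1, no free corner at `v` -/
def S_LA1 : Prop := ∀ (Ω V : Type) [Finite Ω] (D : Oct Ω) (S : Set Ω) (a2 : Ω → Ω) (v : Ω → V)
  (A : Set Ω) (x : Ω), Mp D S a2 v → x ∈ S → v x ≠ v (D.p3 x) → TD1 D a2 x →
  Act D (S \ D.fc x) (ca D a2 x) (cv D v x) A →
  cnt (S \ D.fc x) v (D.F A) (v x) = 0 → a2 (D.p5 x) ∈ A → ∃ A', Act D S a2 v A'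

/-- LB: lift, type D1, no free corner at `c` -/
def S_LB1 : Prop := ∀ (Ω V : Type) [Finite Ω] (D : Oct Ω) (S : Set Ω) (a2 : Ω → Ω) (v : Ω → V)
  (A : Set Ω) (x : Ω), Mp D S a2 v → x ∈ S → v x ≠ v (D.p3 x) → TD1 D a2 x →
  Act D (S \ D.fc x) (ca D a2 x) (cv D v x) A →
  cnt (S \ D.fc x) v (D.F A) (v (D.p3 x)) = 0 → a2 (D.p3 x) ∈ A → ∃ A', Act D S a2 v A'

/-- EV: the numbers of free corners on the two sides -/
def S_EV : Prop := ∀ (Ω V : Type) [Finite Ω] (D : Oct Ω) (S : Set Ω) (a2 : Ω → Ω) (v : Ω → V)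
  (A : Set Ω) (x : Ω), Mp D S a2 v → x ∈ S → v x ≠ v (D.p3 x) → (∃ y ∈ S \ D.fc x, v y = v x) →
  Act D (S \ D.fc x) (ca D a2 x) (cv D v x) A →
  (cnt (S \ D.fc x) v (D.F A) (v x) = 0 ∧ cnt (S \ D.fc x) v (D.F A) (v (D.p3 x)) = 4) ∨
  (cnt (S \ D.fc x) v (D.F A) (v x) = 2 ∧ cnt (S \ D.fc x) v (D.F A) (v (D.p3 x)) = 2) ∨
  (cnt (S \ D.fc x) v (D.F A) (v x) = 4 ∧ cnt (S \ D.fc x) v (D.F A) (v (D.p3 x)) = 0)

/-- ZE: pigeonhole on one side. `W` = flags outside the face with label `u`; all flags of `W`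
except `e1`, `e2` are glued among themselves; no free corner in `W`; then `e1` or `e2` is in `A` -/
def S_ZE : Prop := ∀ (Ω V : Type) [Finite Ω] (D : Oct Ω) (S : Set Ω) (a2 : Ω → Ω) (v : Ω → V)
  (A : Set Ω) (x : Ω) (u : V) (e1 e2 : Ω), Mp D S a2 v → x ∈ S →
  Act D (S \ D.fc x) (ca D a2 x) (cv D v x) A →
  e1 ∈ S \ D.fc x → v e1 = u →
  (∀ y ∈ S \ D.fc x, v y = u → y ≠ e1 → y ≠ e2 →
    ca D a2 x y ∈ S \ D.fc x ∧ v (ca D a2 x y) = u ∧ ca D a2 x y ≠ e1 ∧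
      ca D a2 x (ca D a2 x y) = y) →
  cnt (S \ D.fc x) v (D.F A) u = 0 → e1 ∈ A ∨ e2 ∈ A

/-- XN: lift for a face of type N -/
def S_XN : Prop := ∀ (Ω V : Type) [Finite Ω] (D : Oct Ω) (S : Set Ω) (a2 : Ω → Ω) (v : Ω → V)
  (x : Ω), Mp D S a2 v → x ∈ S → v x ≠ v (D.p3 x) → TN D a2 x →
  (∃ A, Act D (S \ D.fc x) (ca D a2 x) (cv D v x) A) → ∃ A', Act D S a2 v A'

/-- X1: lift for a face of type D1 -/
def S_X1 : Prop := ∀ (Ω V : Type) [Finite Ω] (D : Oct Ω) (S : Set Ω) (a2 : Ω → Ω) (v : Ω → V)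
  (x : Ω), Mp D S a2 v → x ∈ S → v x ≠ v (D.p3 x) → TD1 D a2 x →
  (∃ A, Act D (S \ D.fc x) (ca D a2 x) (cv D v x) A) → ∃ A', Act D S a2 v A'

/-- X2: lift for a face of type D2 -/
def S_X2 : Prop := ∀ (Ω V : Type) [Finite Ω] (D : Oct Ω) (S : Set Ω) (a2 : Ω → Ω) (v : Ω → V)
  (x : Ω), Mp D S a2 v → x ∈ S → v x ≠ v (D.p3 x) → TD2 D a2 x →
  (∃ A, Act D (S \ D.fc x) (ca D a2 x) (cv D v x) A) → ∃ A', Act D S a2 v A'

/-- FI: a contractible face -/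
def S_FI : Prop := ∀ (Ω V : Type) [Finite Ω] (D : Oct Ω) (S : Set Ω) (a2 : Ω → Ω) (v : Ω → V)
  (T : Set Ω) (x : Ω), Mp D S a2 v → Ori D S a2 v T → x ∈ S → v x ≠ v (D.p3 x) →
  ∃ y ∈ S, v y ≠ v (D.p3 y) ∧ (TD1 D a2 y ∨ TD2 D a2 y ∨
    (TN D a2 y ∧ (Src D y T ∨ Cyc D y T ∨ Spc D v y T)))

/-- BA: the case without contractible face -/
def S_BA : Prop := ∀ (Ω V : Type) [Finite Ω] (D : Oct Ω) (S : Set Ω) (a2 : Ω → Ω) (v : Ω → V)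
  (T : Set Ω), Mp D S a2 v → Ori D S a2 v T → (∀ x ∈ S, v x = v (D.p3 x)) →
  ∃ A, Act D S a2 v A

/-- MA: main theorem of the core -/
def S_MA : Prop := ∀ (Ω V : Type) [Finite Ω] (D : Oct Ω) (S : Set Ω) (a2 : Ω → Ω) (v : Ω → V)
  (T : Set Ω), Mp D S a2 v → Ori D S a2 v T → ∃ A, Act D S a2 v A

end KQ
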